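import Mathlib

/-!
# Prime model uniqueness in omega-models of RCA_0: definitions (MP_031366_lc)

The second-order part of an omega-model of `RCA_0` is a Turing ideal `I` of sets of natural
numbers.  Languages are relational (function symbols are represented by their graphs) and are
regarded as parts of the universal countable relational language, which has a `k`-ary relation
symbol `(r, k)` for all natural numbers `r`, `k`.
-/

set_option autoImplicit false

namespace Pool.Agent.H93PMU

open Classical

/-- First-order formulas with variables `x_0, x_1, ...` over the universal countable relational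
language; `rel r vs` applies the symbol `(r, length of vs)` to the variables listed in `vs`. -/
inductive Fml : Type
  | eq (i j : ℕ) : Fml
  | rel (r : ℕ) (vs : List ℕ) : Fml
  | neg (φ : Fml) : Fml
  | and (φ ψ : Fml) : Fml
  | ex (i : ℕ) (φ : Fml) : Fml

/-- The free variables of a formula. -/
def Fml.fv : Fml → Finset ℕ
  | .eq i j => {i, j}
  | .rel _ vs => vs.toFinset
  | .neg φ => φ.fv
  | .and φ ψ => φ.fv ∪ ψ.fv
  | .ex i φ => φ.fv.erase i

/-- The Goedel number of a formula. -/
def Fml.code : Fml → ℕ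
  | .eq i j => Nat.pair 0 (Nat.pair i j)
  | .rel r vs => Nat.pair 1 (Nat.pair r (Encodable.encode vs))
  | .neg φ => Nat.pair 2 φ.code
  | .and φ ψ => Nat.pair 3 (Nat.pair φ.code ψ.code)
  | .ex i φ => Nat.pair 4 (Nat.pair i φ.code)

/-- A countable structure: a nonempty set of natural numbers with an interpretation of every
relation symbol (only its values on tuples from the domain matter). -/
structure Str where
  dom : Set ℕ
  nonempty : dom.Nonempty
  rel : ℕ → List ℕ → Prop

/-- Tarskian satisfaction. -/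
def Sat (A : Str) : Fml → (ℕ → ℕ) → Prop
  | .eq i j, v => v i = v j
  | .rel r vs, v => A.rel r (vs.map v)
  | .neg φ, v => ¬ Sat A φ v
  | .and φ ψ, v => Sat A φ v ∧ Sat A ψ v
  | .ex i φ, v => ∃ a ∈ A.dom, Sat A φ (Function.update v i a)

/-- `A` satisfies `φ` under all assignments (for a sentence: `φ` is true in `A`). -/
def Models (A : Str) (φ : Fml) : Prop :=
  ∀ v : ℕ → ℕ, (∀ i, v i ∈ A.dom) → Sat A φ v

/-- The elementary diagram of `A`, as a set of natural numbers: all pairs consisting of (the code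
of) a formula `φ` and a finite tuple `l` of elements of `A`, at least as long as to give values
to all free variables of `φ`, such that `A` satisfies `φ` at `l`. -/
def ED (A : Str) : Set ℕ :=
  {n | ∃ (φ : Fml) (l : List ℕ), n = Nat.pair φ.code (Encodable.encode l) ∧
    (∀ i ∈ φ.fv, i < l.length) ∧ (∀ a ∈ l, a ∈ A.dom) ∧ Sat A φ (fun i => l.getD i 0)}

/-- The characteristic function of a set of natural numbers. -/
noncomputable def chr (X : Set ℕ) : ℕ →. ℕ := fun n => Part.some (if n ∈ X then 1 else 0)

/-- Turing ideals: the second-order parts of the omega-models of `RCA_0`. -/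
structure TuringIdeal (I : Set (Set ℕ)) : Prop where
  nonempty : I.Nonempty
  join : ∀ X ∈ I, ∀ Y ∈ I, {n | (∃ m ∈ X, n = 2 * m) ∨ ∃ m ∈ Y, n = 2 * m + 1} ∈ I
  down : ∀ X ∈ I, ∀ Y : Set ℕ, TuringReducible (chr Y) (chr X) → Y ∈ I

/-- The ideal satisfies weak Koenig's lemma: every infinite binary tree in `I` has a path in `I`.
A tree is given by the set `S` of the codes of its nodes. -/
def WKL (I : Set (Set ℕ)) : Prop :=
  ∀ S ∈ I, (∀ σ τ : List Bool, Encodable.encode (σ ++ τ) ∈ S → Encodable.encode σ ∈ S) →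
    (∀ n : ℕ, ∃ σ : List Bool, σ.length = n ∧ Encodable.encode σ ∈ S) →
    ∃ P ∈ I, ∀ n : ℕ, Encodable.encode ((List.range n).map fun i => decide (i ∈ P)) ∈ S

/-- The ideal satisfies arithmetical comprehension: with every set it contains its projection;
equivalently, it is closed under the Turing jump. -/
def ACA (I : Set (Set ℕ)) : Prop :=
  ∀ X ∈ I, {n | ∃ m, Nat.pair n m ∈ X} ∈ I

/-- `T` is a complete theory: a consistent set of sentences that proves every sentence or its
negation. -/
def CompleteTheory (T : Set Fml) : Prop :=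
  (∀ φ ∈ T, φ.fv = ∅) ∧ (∃ A : Str, ∀ φ ∈ T, Models A φ) ∧
    ∀ ψ : Fml, ψ.fv = ∅ →
      (∀ A : Str, (∀ φ ∈ T, Models A φ) → Models A ψ) ∨
      (∀ A : Str, (∀ φ ∈ T, Models A φ) → Models A ψ.neg)

/-- `A` and `B` satisfy the same sentences. -/
def ElemEquiv (A B : Str) : Prop :=
  ∀ φ : Fml, φ.fv = ∅ → (Models A φ ↔ Models B φ)

/-- The graph of a function restricted to a set, as a set of natural numbers. -/
def graph (D : Set ℕ) (f : ℕ → ℕ) : Set ℕ := {n | ∃ a ∈ D, n = Nat.pair a (f a)}

/-- `f` is an elementary embedding of `A` in `B`. -/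
def ElemEmb (A B : Str) (f : ℕ → ℕ) : Prop :=
  (∀ a ∈ A.dom, f a ∈ B.dom) ∧
    ∀ (φ : Fml) (v : ℕ → ℕ), (∀ i, v i ∈ A.dom) → (Sat A φ v ↔ Sat B φ (fun i => f (v i)))

/-- `f` is an isomorphism of `A` onto `B`. -/
def Iso (A B : Str) (f : ℕ → ℕ) : Prop :=
  Set.BijOn f A.dom B.dom ∧
    ∀ (r : ℕ) (l : List ℕ), (∀ a ∈ l, a ∈ A.dom) → (A.rel r l ↔ B.rel r (l.map f))

/-- `A` is prime in the sense of `I`: it elementarily embeds, by an embedding in `I`, in every
model in `I` of its theory. -/
def PrimeIn (I : Set (Set ℕ)) (A : Str) : Prop :=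
  ∀ M : Str, ED M ∈ I → ElemEquiv A M → ∃ f : ℕ → ℕ, graph A.dom f ∈ I ∧ ElemEmb A M f

/-- The statement `PMU` (prime model uniqueness), interpreted in the ideal `I`. -/
def PMU (I : Set (Set ℕ)) : Prop :=
  ∀ T : Set Fml, Fml.code '' T ∈ I → CompleteTheory T →
    ∀ A B : Str, ED A ∈ I → ED B ∈ I → (∀ φ ∈ T, Models A φ) → (∀ φ ∈ T, Models B φ) →
      PrimeIn I A → PrimeIn I B → ∃ f : ℕ → ℕ, graph A.dom f ∈ I ∧ Iso A B f

/-- The ideal of computable sets. -/
def REC : Set (Set ℕ) := {X | ComputablePred fun n => n ∈ X}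

end Pool.Agent.H93PMU
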