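import Mathlib
import Pool.Agent.H93PMU.Defs

/-!
# Basic facts on satisfaction
-/

set_option autoImplicit false

namespace Pool.Agent.H93PMU

open Encodable

theorem sat_congr (A : Str) (φ : Fml) : ∀ {v w : ℕ → ℕ}, (∀ i ∈ φ.fv, v i = w i) →
    (Sat A φ v ↔ Sat A φ w) := by
  induction φ with
  | eq i j =>
    intro v w h
    simp only [Fml.fv, Finset.mem_insert, Finset.mem_singleton] at h
    simp only [Sat]
    rw [h i (Or.inl rfl), h j (Or.inr rfl)]
  | rel r vs =>
    intro v w h
    simp only [Fml.fv, List.mem_toFinset] at h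
    simp only [Sat]
    rw [List.map_congr_left h]
  | neg φ ih =>
    intro v w h
    simp only [Sat]
    rw [ih h]
  | and φ ψ ih1 ih2 =>
    intro v w h
    simp only [Fml.fv, Finset.mem_union] at h
    simp only [Sat]
    rw [ih1 fun i hi => h i (Or.inl hi), ih2 fun i hi => h i (Or.inr hi)]
  | ex i φ ih =>
    intro v w h
    simp only [Fml.fv, Finset.mem_erase] at h
    simp only [Sat]
    refine exists_congr fun a => and_congr_right fun _ => ih fun j hj => ?_
    by_cases hji : j = i
    · subst hji; simp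
    · simp only [Function.update_of_ne hji]
      exact h j ⟨hji, hj⟩

theorem code_injective : Function.Injective Fml.code := by
  intro φ
  induction φ with
  | eq i j =>
    intro ψ h
    cases ψ <;> simp [Fml.code] at h ⊢
    exact h
  | rel r vs =>
    intro ψ h
    cases ψ <;> simp [Fml.code] at h ⊢
    exact h
  | neg φ ih =>
    intro ψ h
    cases ψ <;> simp [Fml.code] at h ⊢
    exact ih h
  | and φ₁ φ₂ ih1 ih2 =>
    intro ψ h
    cases ψ <;> simp [Fml.code] at h ⊢
    exact ⟨ih1 h.1, ih2 h.2⟩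
  | ex i φ ih =>
    intro ψ h
    cases ψ <;> simp [Fml.code] at h ⊢
    exact ⟨h.1, ih h.2⟩

theorem mem_ED {A : Str} {φ : Fml} {l : List ℕ} :
    Nat.pair φ.code (encode l) ∈ ED A ↔
      (∀ i ∈ φ.fv, i < l.length) ∧ (∀ a ∈ l, a ∈ A.dom) ∧ Sat A φ (fun i => l.getD i 0) := by
  constructor
  · rintro ⟨ψ, l', h, h1, h2, h3⟩
    rw [Nat.pair_eq_pair] at h
    have h4 := code_injective h.1
    have h5 := encode_injective h.2
    subst h4; subst h5
    exact ⟨h1, h2, h3⟩
  · rintro ⟨h1, h2, h3⟩
    exact ⟨φ, l, rfl, h1, h2, h3⟩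

/-! Derived connectives. -/

/-- Implication. -/
def Fml.imp (φ ψ : Fml) : Fml := .neg (.and φ (.neg ψ))

/-- Disjunction. -/
def Fml.or (φ ψ : Fml) : Fml := .neg (.and (.neg φ) (.neg ψ))

/-- Existential quantification over a list of variables. -/
def Fml.exs : List ℕ → Fml → Fml
  | [], φ => φ
  | i :: l, φ => .ex i (Fml.exs l φ)

@[simp] theorem sat_eq {A : Str} {i j : ℕ} {v : ℕ → ℕ} : Sat A (.eq i j) v ↔ v i = v j := Iff.rfl

@[simp] theorem sat_rel {A : Str} {r : ℕ} {vs : List ℕ} {v : ℕ → ℕ} :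
    Sat A (.rel r vs) v ↔ A.rel r (vs.map v) := Iff.rfl

@[simp] theorem sat_neg {A : Str} {φ : Fml} {v : ℕ → ℕ} : Sat A φ.neg v ↔ ¬ Sat A φ v := Iff.rfl

@[simp] theorem sat_and {A : Str} {φ ψ : Fml} {v : ℕ → ℕ} :
    Sat A (φ.and ψ) v ↔ Sat A φ v ∧ Sat A ψ v := Iff.rfl

@[simp] theorem sat_ex {A : Str} {φ : Fml} {i : ℕ} {v : ℕ → ℕ} :
    Sat A (.ex i φ) v ↔ ∃ a ∈ A.dom, Sat A φ (Function.update v i a) := Iff.rfl

@[simp] theorem sat_imp {A : Str} {φ ψ : Fml} {v : ℕ → ℕ} :
    Sat A (φ.imp ψ) v ↔ (Sat A φ v → Sat A ψ v) := by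
  simp [Fml.imp]

@[simp] theorem sat_or {A : Str} {φ ψ : Fml} {v : ℕ → ℕ} :
    Sat A (φ.or ψ) v ↔ (Sat A φ v ∨ Sat A ψ v) := by
  simp only [Fml.or, sat_neg, sat_and]; tauto

theorem sat_exs {A : Str} {φ : Fml} : ∀ {l : List ℕ} {v : ℕ → ℕ}, Sat A (Fml.exs l φ) v ↔
    ∃ w : ℕ → ℕ, (∀ i, i ∉ l → w i = v i) ∧ (∀ i ∈ l, w i ∈ A.dom) ∧ Sat A φ w := by
  intro l
  induction l with
  | nil =>
    intro v
    simp only [Fml.exs, List.not_mem_nil, not_false_eq_true, forall_const, false_imp_iff,
      true_and, implies_true]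
    constructor
    · intro h; exact ⟨v, fun _ => rfl, h⟩
    · rintro ⟨w, h1, h2⟩
      have : w = v := funext h1
      rwa [this] at h2
  | cons i l ih =>
    intro v
    simp only [Fml.exs, sat_ex, ih]
    constructor
    · rintro ⟨a, ha, w, h1, h2, h3⟩
      refine ⟨w, fun j hj => ?_, fun j hj => ?_, h3⟩
      · rw [List.mem_cons, not_or] at hj
        rw [h1 j hj.2, Function.update_of_ne hj.1]
      · by_cases hjl : j ∈ l
        · exact h2 j hjl
        · rw [h1 j hjl]
          rw [List.mem_cons] at hj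
          rcases hj with hj | hj
          · subst hj; simpa using ha
          · exact absurd hj hjl
    · rintro ⟨w, h1, h2, h3⟩
      refine ⟨w i, h2 i (by simp), w, fun j hj => ?_, fun j hj => h2 j (by simp [hj]), h3⟩
      by_cases hji : j = i
      · subst hji; simp
      · rw [Function.update_of_ne hji]
        exact h1 j (by simp [hji, hj])

theorem fv_exs {φ : Fml} {l : List ℕ} : (Fml.exs l φ).fv = φ.fv \ l.toFinset := by
  induction l with
  | nil => simp [Fml.exs]
  | cons i l ih =>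
    simp only [Fml.exs, Fml.fv, ih]
    ext j
    simp only [Finset.mem_erase, Finset.mem_sdiff, List.mem_toFinset, List.mem_cons, not_or]
    tauto

/-- The universal closure of a formula. -/
noncomputable def Fml.closure (φ : Fml) : Fml := .neg (Fml.exs φ.fv.toList (.neg φ))

theorem closure_fv (φ : Fml) : φ.closure.fv = ∅ := by
  simp only [Fml.closure, Fml.fv, fv_exs]
  ext j
  simp

theorem models_closure {A : Str} {φ : Fml} : Models A φ.closure ↔ Models A φ := by
  constructor
  · intro h v hv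
    by_contra hc
    have := h v hv
    simp only [Fml.closure, sat_neg, sat_exs, not_exists, not_and, not_not] at this
    exact hc (this v (fun _ _ => rfl) (fun i _ => hv i))
  · intro h v hv
    simp only [Fml.closure, sat_neg, sat_exs, not_exists, not_and, not_not]
    intro w h1 h2
    have hw : ∀ i, w i ∈ A.dom := fun i => by
      by_cases hi : i ∈ φ.fv.toList
      · exact h2 i hi
      · rw [h1 i hi]; exact hv i
    exact h w hw

theorem ElemEquiv.models {A B : Str} (h : ElemEquiv A B) (φ : Fml) :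
    Models A φ ↔ Models B φ := by
  rw [← models_closure, ← models_closure (A := B)]
  exact h _ (closure_fv φ)

/-- The assignment given by a list and a default value. -/
def asg (l : List ℕ) (d : ℕ) : ℕ → ℕ := fun i => l.getD i d

theorem asg_mem {D : Set ℕ} {l : List ℕ} {d : ℕ} (hl : ∀ a ∈ l, a ∈ D) (hd : d ∈ D) (i : ℕ) :
    asg l d i ∈ D := by
  unfold asg
  by_cases hi : i < l.length
  · rw [List.getD_eq_getElem _ _ hi]; exact hl _ (List.getElem_mem hi)
  · rw [List.getD_eq_default _ _ (not_lt.1 hi)]; exact hd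

theorem sentence_models {A : Str} {φ : Fml} (h : φ.fv = ∅) (v : ℕ → ℕ) :
    Models A φ ↔ Sat A φ v := by
  constructor
  · intro hm
    obtain ⟨a, ha⟩ := A.nonempty
    refine (sat_congr A φ ?_).1 (hm (fun _ => a) fun _ => ha)
    rw [h]; simp
  · intro hs w _
    refine (sat_congr A φ ?_).1 hs
    rw [h]; simp

end Pool.Agent.H93PMU
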