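import Mathlib
import Pool.Agent.H93PMU.Basic

/-!
# The theory: dense circular orders some of which are cut open

`sp n s` says that the `n`-th circle is cut at stage `s`.
-/

set_option autoImplicit false

namespace Pool.Agent.H93PMU

/-- `a` lies on the `n`-th circle. -/
def P (M : Str) (n a : ℕ) : Prop := M.rel (Nat.pair 0 n) [a]

/-- Circular order of the `n`-th circle. -/
def C (M : Str) (n a b c : ℕ) : Prop := M.rel (Nat.pair 1 n) [a, b, c]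

/-- Linear order of the `n`-th circle cut open at stage `s`. -/
def R (M : Str) (n s a b : ℕ) : Prop := M.rel (Nat.pair 2 (Nat.pair n s)) [a, b]

/-- The axioms of the theory, semantically. -/
structure Good (sp : ℕ → ℕ → Prop) (M : Str) : Prop where
  disj : ∀ n m, ∀ a ∈ M.dom, P M n a → P M m a → n = m
  ne : ∀ n, ∃ a ∈ M.dom, P M n a
  two : ∀ n, ∀ x ∈ M.dom, P M n x → ∃ a ∈ M.dom, P M n a ∧ a ≠ x
  cP : ∀ n, ∀ a ∈ M.dom, ∀ b ∈ M.dom, ∀ c ∈ M.dom, C M n a b c →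
    P M n a ∧ P M n b ∧ P M n c ∧ a ≠ b ∧ b ≠ c ∧ a ≠ c
  cyc : ∀ n, ∀ a ∈ M.dom, ∀ b ∈ M.dom, ∀ c ∈ M.dom, C M n a b c → C M n b c a
  trans : ∀ n, ∀ x ∈ M.dom, ∀ a ∈ M.dom, ∀ b ∈ M.dom, ∀ c ∈ M.dom,
    C M n x a b → C M n x b c → C M n x a c
  total : ∀ n, ∀ x ∈ M.dom, ∀ a ∈ M.dom, ∀ b ∈ M.dom, P M n x → P M n a → P M n b →
    x ≠ a → x ≠ b → a ≠ b → C M n x a b ∨ C M n x b a
  asym : ∀ n, ∀ x ∈ M.dom, ∀ a ∈ M.dom, ∀ b ∈ M.dom, C M n x a b → ¬ C M n x b a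
  dense : ∀ n, ∀ x ∈ M.dom, ∀ a ∈ M.dom, ∀ b ∈ M.dom, C M n x a b →
    ∃ c ∈ M.dom, C M n x a c ∧ C M n x c b
  up : ∀ n, ∀ x ∈ M.dom, ∀ a ∈ M.dom, P M n x → P M n a → x ≠ a → ∃ c ∈ M.dom, C M n x a c
  down : ∀ n, ∀ x ∈ M.dom, ∀ a ∈ M.dom, P M n x → P M n a → x ≠ a → ∃ c ∈ M.dom, C M n x c a
  base : ∀ n, ∀ x ∈ M.dom, ∀ a ∈ M.dom, ∀ b ∈ M.dom, ∀ c ∈ M.dom,
    P M n x → P M n a → P M n b → P M n c → x ≠ a → x ≠ b → x ≠ c →
    (C M n a b c ↔ (C M n x a b ∧ C M n x b c) ∨ (C M n x b c ∧ C M n x c a) ∨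
      (C M n x c a ∧ C M n x a b))
  rP : ∀ n s, ∀ a ∈ M.dom, ∀ b ∈ M.dom, R M n s a b → sp n s ∧ P M n a ∧ P M n b
  rtrans : ∀ n s, ∀ a ∈ M.dom, ∀ b ∈ M.dom, ∀ c ∈ M.dom, R M n s a b → R M n s b c →
    R M n s a c
  rasym : ∀ n s, ∀ a ∈ M.dom, ∀ b ∈ M.dom, R M n s a b → ¬ R M n s b a
  rtotal : ∀ n s, sp n s → ∀ a ∈ M.dom, ∀ b ∈ M.dom, P M n a → P M n b → a ≠ b →
    R M n s a b ∨ R M n s b a
  rdense : ∀ n s, ∀ a ∈ M.dom, ∀ b ∈ M.dom, R M n s a b → ∃ c ∈ M.dom, R M n s a c ∧ R M n s c b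
  rup : ∀ n s, sp n s → ∀ a ∈ M.dom, P M n a → ∃ c ∈ M.dom, R M n s a c
  rdown : ∀ n s, sp n s → ∀ a ∈ M.dom, P M n a → ∃ c ∈ M.dom, R M n s c a
  rcyc : ∀ n s, sp n s → ∀ a ∈ M.dom, ∀ b ∈ M.dom, ∀ c ∈ M.dom, P M n a → P M n b → P M n c →
    (C M n a b c ↔ (R M n s a b ∧ R M n s b c) ∨ (R M n s b c ∧ R M n s c a) ∨
      (R M n s c a ∧ R M n s a b))
  other : ∀ (r : ℕ) (l : List ℕ), (∀ a ∈ l, a ∈ M.dom) → M.rel r l →
    (∃ n a, r = Nat.pair 0 n ∧ l = [a]) ∨ (∃ n a b c, r = Nat.pair 1 n ∧ l = [a, b, c]) ∨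
      (∃ n s a b, r = Nat.pair 2 (Nat.pair n s) ∧ l = [a, b])

theorem exists_fin_max {Q : ℕ → Prop} {lt : ℕ → ℕ → Prop}
    (htr : ∀ a b c, Q a → Q b → Q c → lt a b → lt b c → lt a c)
    (htot : ∀ a b, Q a → Q b → a ≠ b → lt a b ∨ lt b a)
    (L : Finset ℕ) (hL : ∀ l ∈ L, Q l) (hne : L.Nonempty) :
    ∃ m ∈ L, ∀ l ∈ L, l = m ∨ lt l m := by
  classical
  induction L using Finset.induction_on with
  | empty => exact absurd hne (by simp)
  | insert a s ha ih =>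
    by_cases hs : s.Nonempty
    · obtain ⟨m, hm, h⟩ := ih (fun l hl => hL l (Finset.mem_insert_of_mem hl)) hs
      have ham : a ≠ m := fun h => ha (h ▸ hm)
      rcases htot a m (hL a (Finset.mem_insert_self _ _)) (hL m (Finset.mem_insert_of_mem hm))
        ham with h1 | h1
      · refine ⟨m, Finset.mem_insert_of_mem hm, fun l hl => ?_⟩
        rcases Finset.mem_insert.1 hl with rfl | hl
        · exact Or.inr h1
        · exact h l hl
      · refine ⟨a, Finset.mem_insert_self _ _, fun l hl => ?_⟩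
        rcases Finset.mem_insert.1 hl with rfl | hl
        · exact Or.inl rfl
        · rcases h l hl with rfl | h2
          · exact Or.inr h1
          · exact Or.inr (htr l m a (hL l (Finset.mem_insert_of_mem hl))
              (hL m (Finset.mem_insert_of_mem hm)) (hL a (Finset.mem_insert_self _ _)) h2 h1)
    · rw [Finset.not_nonempty_iff_eq_empty] at hs
      subst hs
      exact ⟨a, by simp, fun l hl => by simp at hl; exact Or.inl hl⟩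

/-- Filling a finite gap in a dense linear order without endpoints. -/
theorem fill_gap {Q : ℕ → Prop} {lt : ℕ → ℕ → Prop}
    (htr : ∀ a b c, Q a → Q b → Q c → lt a b → lt b c → lt a c)
    (htot : ∀ a b, Q a → Q b → a ≠ b → lt a b ∨ lt b a)
    (hdense : ∀ a b, Q a → Q b → lt a b → ∃ c, Q c ∧ lt a c ∧ lt c b)
    (hup : ∀ a, Q a → ∃ c, Q c ∧ lt a c) (hdown : ∀ a, Q a → ∃ c, Q c ∧ lt c a)
    (hne : ∃ a, Q a) (L U : Finset ℕ) (hL : ∀ l ∈ L, Q l) (hU : ∀ u ∈ U, Q u)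
    (hLU : ∀ l ∈ L, ∀ u ∈ U, lt l u) :
    ∃ b, Q b ∧ (∀ l ∈ L, lt l b) ∧ ∀ u ∈ U, lt b u := by
  have key1 : ∀ m, Q m → (m ∈ L) → (∀ l ∈ L, l = m ∨ lt l m) → ∀ b, Q b → lt m b →
      ∀ l ∈ L, lt l b := by
    intro m hm hmL h b hb hmb l hl
    rcases h l hl with rfl | h1
    · exact hmb
    · exact htr l m b (hL l hl) hm hb h1 hmb
  have key2 : ∀ m, Q m → (m ∈ U) → (∀ l ∈ U, l = m ∨ lt m l) → ∀ b, Q b → lt b m →
      ∀ l ∈ U, lt b l := by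
    intro m hm hmL h b hb hmb l hl
    rcases h l hl with rfl | h1
    · exact hmb
    · exact htr b m l hb hm (hU l hl) hmb h1
  have hmin : U.Nonempty → ∃ m ∈ U, ∀ l ∈ U, l = m ∨ lt m l :=
    fun h => exists_fin_max (Q := Q) (lt := fun a b => lt b a)
      (fun a b c ha hb hc h1 h2 => htr c b a hc hb ha h2 h1)
      (fun a b ha hb hab => (htot a b ha hb hab).symm) U hU h
  have hmax : L.Nonempty → ∃ m ∈ L, ∀ l ∈ L, l = m ∨ lt l m :=
    fun h => exists_fin_max htr htot L hL h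
  by_cases hLn : L.Nonempty <;> by_cases hUn : U.Nonempty
  · obtain ⟨m, hm, h1⟩ := hmax hLn
    obtain ⟨m', hm', h2⟩ := hmin hUn
    obtain ⟨c, hc, hc1, hc2⟩ := hdense m m' (hL m hm) (hU m' hm') (hLU m hm m' hm')
    exact ⟨c, hc, key1 m (hL m hm) hm h1 c hc hc1, key2 m' (hU m' hm') hm' h2 c hc hc2⟩
  · obtain ⟨m, hm, h1⟩ := hmax hLn
    obtain ⟨c, hc, hc1⟩ := hup m (hL m hm)
    rw [Finset.not_nonempty_iff_eq_empty] at hUn
    subst hUn
    exact ⟨c, hc, key1 m (hL m hm) hm h1 c hc hc1, by simp⟩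
  · obtain ⟨m', hm', h2⟩ := hmin hUn
    obtain ⟨c, hc, hc2⟩ := hdown m' (hU m' hm')
    rw [Finset.not_nonempty_iff_eq_empty] at hLn
    subst hLn
    exact ⟨c, hc, by simp, key2 m' (hU m' hm') hm' h2 c hc hc2⟩
  · rw [Finset.not_nonempty_iff_eq_empty] at hUn hLn
    subst hUn; subst hLn
    obtain ⟨c, hc⟩ := hne
    exact ⟨c, hc, by simp, by simp⟩

/-- Gap filling on a circle of `N` cut at the base point `y`. -/
theorem Good.fillC {sp : ℕ → ℕ → Prop} {N : Str} (hN : Good sp N) {n y : ℕ} (hy : y ∈ N.dom)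
    (hyP : P N n y) (L U : Finset ℕ) (hL : ∀ l ∈ L, l ∈ N.dom ∧ P N n l ∧ l ≠ y)
    (hU : ∀ u ∈ U, u ∈ N.dom ∧ P N n u ∧ u ≠ y) (hLU : ∀ l ∈ L, ∀ u ∈ U, C N n y l u) :
    ∃ b ∈ N.dom, P N n b ∧ b ≠ y ∧ (∀ l ∈ L, C N n y l b) ∧ ∀ u ∈ U, C N n y b u := by
  obtain ⟨b, hb, h1, h2⟩ := fill_gap (Q := fun a => a ∈ N.dom ∧ P N n a ∧ a ≠ y)
    (lt := fun a b => C N n y a b) (fun a b c ha hb hc h1 h2 =>
      hN.trans n y hy a ha.1 b hb.1 c hc.1 h1 h2)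
    (fun a b ha hb hab => hN.total n y hy a ha.1 b hb.1 hyP ha.2.1 hb.2.1 ha.2.2.symm
      hb.2.2.symm hab)
    (fun a b ha hb hab => by
      obtain ⟨c, hc, h1, h2⟩ := hN.dense n y hy a ha.1 b hb.1 hab
      have := hN.cP n y hy a ha.1 c hc h1
      exact ⟨c, ⟨hc, this.2.2.1, this.2.2.2.2.2.symm⟩, h1, h2⟩)
    (fun a ha => by
      obtain ⟨c, hc, h1⟩ := hN.up n y hy a ha.1 hyP ha.2.1 ha.2.2.symm
      have := hN.cP n y hy a ha.1 c hc h1
      exact ⟨c, ⟨hc, this.2.2.1, this.2.2.2.2.2.symm⟩, h1⟩)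
    (fun a ha => by
      obtain ⟨c, hc, h1⟩ := hN.down n y hy a ha.1 hyP ha.2.1 ha.2.2.symm
      have := hN.cP n y hy c hc a ha.1 h1
      exact ⟨c, ⟨hc, this.2.1, this.2.2.2.1.symm⟩, h1⟩)
    (by
      obtain ⟨a, ha, h1, h2⟩ := hN.two n y hy hyP
      exact ⟨a, ha, h1, h2⟩) L U hL hU hLU
  exact ⟨b, hb.1, hb.2.1, hb.2.2, h1, h2⟩

/-- Gap filling on a circle of `N` that has been cut open. -/
theorem Good.fillR {sp : ℕ → ℕ → Prop} {N : Str} (hN : Good sp N) {n s : ℕ} (hs : sp n s)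
    (L U : Finset ℕ) (hL : ∀ l ∈ L, l ∈ N.dom ∧ P N n l)
    (hU : ∀ u ∈ U, u ∈ N.dom ∧ P N n u) (hLU : ∀ l ∈ L, ∀ u ∈ U, R N n s l u) :
    ∃ b ∈ N.dom, P N n b ∧ (∀ l ∈ L, R N n s l b) ∧ ∀ u ∈ U, R N n s b u := by
  obtain ⟨b, hb, h1, h2⟩ := fill_gap (Q := fun a => a ∈ N.dom ∧ P N n a)
    (lt := fun a b => R N n s a b) (fun a b c ha hb hc h1 h2 =>
      hN.rtrans n s a ha.1 b hb.1 c hc.1 h1 h2)
    (fun a b ha hb hab => hN.rtotal n s hs a ha.1 b hb.1 ha.2 hb.2 hab)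
    (fun a b ha hb hab => by
      obtain ⟨c, hc, h1, h2⟩ := hN.rdense n s a ha.1 b hb.1 hab
      exact ⟨c, ⟨hc, (hN.rP n s a ha.1 c hc h1).2.2⟩, h1, h2⟩)
    (fun a ha => by
      obtain ⟨c, hc, h1⟩ := hN.rup n s hs a ha.1 ha.2
      exact ⟨c, ⟨hc, (hN.rP n s a ha.1 c hc h1).2.2⟩, h1⟩)
    (fun a ha => by
      obtain ⟨c, hc, h1⟩ := hN.rdown n s hs a ha.1 ha.2
      exact ⟨c, ⟨hc, (hN.rP n s c hc a ha.1 h1).2.1⟩, h1⟩)
    (hN.ne n) L U hL hU hLU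
  exact ⟨b, hb.1, hb.2, h1, h2⟩

/-- `v` and `w` satisfy the same atomic formulas with variables in `S` and symbols with indices
below `k`. -/
structure KEq (k : ℕ) (M N : Str) (S : Finset ℕ) (v w : ℕ → ℕ) : Prop where
  vM : ∀ i ∈ S, v i ∈ M.dom
  wN : ∀ i ∈ S, w i ∈ N.dom
  eq : ∀ i ∈ S, ∀ j ∈ S, (v i = v j ↔ w i = w j)
  p : ∀ n < k, ∀ i ∈ S, (P M n (v i) ↔ P N n (w i))
  c : ∀ n < k, ∀ i ∈ S, ∀ j ∈ S, ∀ l ∈ S, (C M n (v i) (v j) (v l) ↔ C N n (w i) (w j) (w l))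
  r : ∀ n < k, ∀ s < k, ∀ i ∈ S, ∀ j ∈ S, (R M n s (v i) (v j) ↔ R N n s (w i) (w j))

theorem KEq.symm {k : ℕ} {M N : Str} {S : Finset ℕ} {v w : ℕ → ℕ} (h : KEq k M N S v w) :
    KEq k N M S w v where
  vM := h.wN
  wN := h.vM
  eq := fun i hi j hj => (h.eq i hi j hj).symm
  p := fun n hn i hi => (h.p n hn i hi).symm
  c := fun n hn i hi j hj l hl => (h.c n hn i hi j hj l hl).symm
  r := fun n hn s hs i hi j hj => (h.r n hn s hs i hi j hj).symm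

theorem KEq.mono {k : ℕ} {M N : Str} {S S' : Finset ℕ} {v w : ℕ → ℕ} (h : KEq k M N S v w)
    (hS : S' ⊆ S) : KEq k M N S' v w where
  vM := fun i hi => h.vM i (hS hi)
  wN := fun i hi => h.wN i (hS hi)
  eq := fun i hi j hj => h.eq i (hS hi) j (hS hj)
  p := fun n hn i hi => h.p n hn i (hS hi)
  c := fun n hn i hi j hj l hl => h.c n hn i (hS hi) j (hS hj) l (hS hl)
  r := fun n hn s hs i hi j hj => h.r n hn s hs i (hS hi) j (hS hj)

/-- The element `b` relates to `w` in the same way as `a` relates to `v`. -/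
structure Match (k : ℕ) (M N : Str) (S : Finset ℕ) (v w : ℕ → ℕ) (a b : ℕ) : Prop where
  aM : a ∈ M.dom
  bN : b ∈ N.dom
  eq : ∀ j ∈ S, (v j = a ↔ w j = b)
  p : ∀ n < k, (P M n a ↔ P N n b)
  c : ∀ n < k, ∀ j ∈ S, ∀ l ∈ S, (C M n a (v j) (v l) ↔ C N n b (w j) (w l))
  r1 : ∀ n < k, ∀ s < k, ∀ j ∈ S, (R M n s a (v j) ↔ R N n s b (w j))
  r2 : ∀ n < k, ∀ s < k, ∀ j ∈ S, (R M n s (v j) a ↔ R N n s (w j) b)

variable {sp : ℕ → ℕ → Prop}

theorem Good.cyc' {M : Str} (hM : Good sp M) {n a b c : ℕ} (ha : a ∈ M.dom) (hb : b ∈ M.dom)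
    (hc : c ∈ M.dom) : C M n a b c ↔ C M n b c a :=
  ⟨hM.cyc n a ha b hb c hc, fun h => hM.cyc n c hc a ha b hb (hM.cyc n b hb c hc a ha h)⟩

theorem Good.not_C_aab {M : Str} (hM : Good sp M) {n a b : ℕ} (ha : a ∈ M.dom)
    (hb : b ∈ M.dom) : ¬ C M n a a b := fun h => (hM.cP n a ha a ha b hb h).2.2.2.1 rfl

theorem Good.not_C_aba {M : Str} (hM : Good sp M) {n a b : ℕ} (ha : a ∈ M.dom)
    (hb : b ∈ M.dom) : ¬ C M n a b a := fun h => (hM.cP n a ha b hb a ha h).2.2.2.2.2 rfl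

theorem Good.not_C_abb {M : Str} (hM : Good sp M) {n a b : ℕ} (ha : a ∈ M.dom)
    (hb : b ∈ M.dom) : ¬ C M n a b b := fun h => (hM.cP n a ha b hb b hb h).2.2.2.2.1 rfl

theorem Good.not_R_aa {M : Str} (hM : Good sp M) {n s a : ℕ} (ha : a ∈ M.dom) :
    ¬ R M n s a a := fun h => hM.rasym n s a ha a ha h h

theorem KEq.insert {k : ℕ} {M N : Str} (hM : Good sp M) (hN : Good sp N) {S : Finset ℕ}
    {v w : ℕ → ℕ} (h : KEq k M N S v w) {a b i : ℕ} (hi : i ∉ S)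
    (hm : Match k M N S v w a b) :
    KEq k M N (insert i S) (Function.update v i a) (Function.update w i b) := by
  have hne : ∀ j ∈ S, j ≠ i := fun j hj hji => hi (hji ▸ hj)
  have hv : ∀ j ∈ S, Function.update v i a j = v j := fun j hj =>
    Function.update_of_ne (hne j hj) _ _
  have hw : ∀ j ∈ S, Function.update w i b j = w j := fun j hj =>
    Function.update_of_ne (hne j hj) _ _
  have hvi : Function.update v i a i = a := Function.update_self _ _ _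
  have hwi : Function.update w i b i = b := Function.update_self _ _ _
  refine ⟨?_, ?_, ?_, ?_, ?_, ?_⟩
  · intro j hj
    rcases Finset.mem_insert.1 hj with rfl | hj
    · rw [hvi]; exact hm.aM
    · rw [hv j hj]; exact h.vM j hj
  · intro j hj
    rcases Finset.mem_insert.1 hj with rfl | hj
    · rw [hwi]; exact hm.bN
    · rw [hw j hj]; exact h.wN j hj
  · intro j hj l hl
    rw [Finset.mem_insert] at hj hl
    rcases hj with rfl | hj <;> rcases hl with rfl | hl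
    · simp
    · rw [hvi, hwi, hv l hl, hw l hl, eq_comm, hm.eq l hl, eq_comm]
    · rw [hvi, hwi, hv j hj, hw j hj, hm.eq j hj]
    · rw [hv j hj, hw j hj, hv l hl, hw l hl, h.eq j hj l hl]
  · intro n hn j hj
    rcases Finset.mem_insert.1 hj with rfl | hj
    · rw [hvi, hwi, hm.p n hn]
    · rw [hv j hj, hw j hj, h.p n hn j hj]
  · intro n hn j hj l hl m hm'
    rw [Finset.mem_insert] at hj hl hm'
    rcases hj with rfl | hj <;> rcases hl with rfl | hl <;> rcases hm' with rfl | hm'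
    · rw [hvi, hwi]
      exact ⟨fun h => absurd h (hM.not_C_aab hm.aM hm.aM),
        fun h => absurd h (hN.not_C_aab hm.bN hm.bN)⟩
    · rw [hvi, hwi, hv m hm', hw m hm']
      exact ⟨fun h' => absurd h' (hM.not_C_aab hm.aM (h.vM m hm')),
        fun h' => absurd h' (hN.not_C_aab hm.bN (h.wN m hm'))⟩
    · rw [hvi, hwi, hv l hl, hw l hl]
      exact ⟨fun h' => absurd h' (hM.not_C_aba hm.aM (h.vM l hl)),
        fun h' => absurd h' (hN.not_C_aba hm.bN (h.wN l hl))⟩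
    · rw [hvi, hwi, hv l hl, hw l hl, hv m hm', hw m hm']
      exact hm.c n hn l hl m hm'
    · rw [hvi, hwi, hv j hj, hw j hj]
      exact ⟨fun h' => absurd h' (hM.not_C_abb (h.vM j hj) hm.aM),
        fun h' => absurd h' (hN.not_C_abb (h.wN j hj) hm.bN)⟩
    · rw [hvi, hwi, hv j hj, hw j hj, hv m hm', hw m hm', hM.cyc' (h.vM j hj) hm.aM (h.vM m hm'),
        hN.cyc' (h.wN j hj) hm.bN (h.wN m hm')]
      exact hm.c n hn m hm' j hj
    · rw [hvi, hwi, hv j hj, hw j hj, hv l hl, hw l hl, ← hM.cyc' hm.aM (h.vM j hj) (h.vM l hl),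
        ← hN.cyc' hm.bN (h.wN j hj) (h.wN l hl)]
      exact hm.c n hn j hj l hl
    · rw [hv j hj, hw j hj, hv l hl, hw l hl, hv m hm', hw m hm']
      exact h.c n hn j hj l hl m hm'
  · intro n hn s hs j hj l hl
    rw [Finset.mem_insert] at hj hl
    rcases hj with rfl | hj <;> rcases hl with rfl | hl
    · rw [hvi, hwi]
      exact ⟨fun h => absurd h (hM.not_R_aa hm.aM), fun h => absurd h (hN.not_R_aa hm.bN)⟩
    · rw [hvi, hwi, hv l hl, hw l hl]; exact hm.r1 n hn s hs l hl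
    · rw [hvi, hwi, hv j hj, hw j hj]; exact hm.r2 n hn s hs j hj
    · rw [hv j hj, hw j hj, hv l hl, hw l hl]; exact h.r n hn s hs j hj l hl

end Pool.Agent.H93PMU
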