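import Mathlib
import Pool.Agent.H93PMU.Good

/-!
# The extension property and elementary equivalence of models of the theory
-/

set_option autoImplicit false

namespace Pool.Agent.H93PMU

variable {sp : ℕ → ℕ → Prop}

theorem exists_match (hsp : ∀ n s s', sp n s → sp n s' → s = s') {M N : Str} (hM : Good sp M)
    (hN : Good sp N) {k : ℕ} {S : Finset ℕ} {v w : ℕ → ℕ} (h : KEq k M N S v w) {a : ℕ}
    (ha : a ∈ M.dom) : ∃ b, Match k M N S v w a b := by
  classical
  by_cases h1 : ∃ j ∈ S, v j = a
  · obtain ⟨j, hj, rfl⟩ := h1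
    exact ⟨w j, h.vM j hj, h.wN j hj, fun i hi => h.eq i hi j hj, fun n hn => h.p n hn j hj,
      fun n hn i hi l hl => h.c n hn j hj i hi l hl,
      fun n hn s hs i hi => h.r n hn s hs j hj i hi,
      fun n hn s hs i hi => h.r n hn s hs i hi j hj⟩
  push Not at h1
  by_cases h2 : ∃ n < k, P M n a
  · obtain ⟨n, hn, hPa⟩ := h2
    have hSP : ∀ j ∈ S, (P M n (v j) ↔ P N n (w j)) := fun j hj => h.p n hn j hj
    by_cases h3 : ∃ s < k, sp n s
    · obtain ⟨s, hs, hns⟩ := h3
      obtain ⟨b, hb, hPb, hbL, hbU⟩ := hN.fillR hns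
        ((S.filter fun j => P M n (v j) ∧ R M n s (v j) a).image w)
        ((S.filter fun j => P M n (v j) ∧ R M n s a (v j)).image w)
        (by
          intro l hl
          simp only [Finset.mem_image, Finset.mem_filter] at hl
          obtain ⟨j, ⟨hj, hj1, _⟩, rfl⟩ := hl
          exact ⟨h.wN j hj, (hSP j hj).1 hj1⟩)
        (by
          intro l hl
          simp only [Finset.mem_image, Finset.mem_filter] at hl
          obtain ⟨j, ⟨hj, hj1, _⟩, rfl⟩ := hl
          exact ⟨h.wN j hj, (hSP j hj).1 hj1⟩)
        (by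
          intro l hl u hu
          simp only [Finset.mem_image, Finset.mem_filter] at hl hu
          obtain ⟨j, ⟨hj, hj1, hj2⟩, rfl⟩ := hl
          obtain ⟨i, ⟨hi, hi1, hi2⟩, rfl⟩ := hu
          exact (h.r n hn s hs j hj i hi).1
            (hM.rtrans n s _ (h.vM j hj) _ ha _ (h.vM i hi) hj2 hi2))
      have f1 : ∀ j ∈ S, P M n (v j) → R M n s (v j) a → R N n s (w j) b := fun j hj h1 h2 =>
        hbL _ (Finset.mem_image.2 ⟨j, by simp [hj, h1, h2], rfl⟩)
      have f2 : ∀ j ∈ S, P M n (v j) → R M n s a (v j) → R N n s b (w j) := fun j hj h1 h2 =>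
        hbU _ (Finset.mem_image.2 ⟨j, by simp [hj, h1, h2], rfl⟩)
      have k1 : ∀ j ∈ S, P M n (v j) → (R M n s (v j) a ↔ R N n s (w j) b) := fun j hj hp =>
        ⟨f1 j hj hp, fun hr => by
          rcases hM.rtotal n s hns _ (h.vM j hj) _ ha hp hPa (h1 j hj) with h3 | h3
          · exact h3
          · exact absurd (f2 j hj hp h3) (hN.rasym n s _ (h.wN j hj) _ hb hr)⟩
      have k2 : ∀ j ∈ S, P M n (v j) → (R M n s a (v j) ↔ R N n s b (w j)) := fun j hj hp =>
        ⟨f2 j hj hp, fun hr => by
          rcases hM.rtotal n s hns _ (h.vM j hj) _ ha hp hPa (h1 j hj) with h3 | h3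
          · exact absurd (f1 j hj hp h3) (hN.rasym n s _ hb _ (h.wN j hj) hr)
          · exact h3⟩
      refine ⟨b, ha, hb, ?_, ?_, ?_, ?_, ?_⟩
      · intro j hj
        refine ⟨fun h' => absurd h' (h1 j hj), fun h' => ?_⟩
        exfalso
        have hp : P M n (v j) := (hSP j hj).2 (h' ▸ hPb)
        rcases hM.rtotal n s hns _ (h.vM j hj) _ ha hp hPa (h1 j hj) with h3 | h3
        · have := f1 j hj hp h3
          rw [h'] at this; exact hN.not_R_aa hb this
        · have := f2 j hj hp h3
          rw [h'] at this; exact hN.not_R_aa hb this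
      · intro m hm
        constructor
        · intro h'
          rw [← hM.disj n m a ha hPa h']; exact hPb
        · intro h'
          rw [← hN.disj n m b hb hPb h']; exact hPa
      · intro m hm j hj l hl
        by_cases hmn : m = n
        · subst hmn
          by_cases hjl : P M m (v j) ∧ P M m (v l)
          · rw [hM.rcyc m s hns a ha _ (h.vM j hj) _ (h.vM l hl) hPa hjl.1 hjl.2,
              hN.rcyc m s hns b hb _ (h.wN j hj) _ (h.wN l hl) hPb ((hSP j hj).1 hjl.1)
                ((hSP l hl).1 hjl.2), k2 j hj hjl.1, k1 l hl hjl.2, h.r m hm s hs j hj l hl]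
          · constructor
            · intro h'
              have := hM.cP m a ha _ (h.vM j hj) _ (h.vM l hl) h'
              exact absurd ⟨this.2.1, this.2.2.1⟩ hjl
            · intro h'
              have := hN.cP m b hb _ (h.wN j hj) _ (h.wN l hl) h'
              exact absurd ⟨(hSP j hj).2 this.2.1, (hSP l hl).2 this.2.2.1⟩ hjl
        · constructor
          · intro h'
            have := hM.cP m a ha _ (h.vM j hj) _ (h.vM l hl) h'
            exact absurd (hM.disj m n a ha this.1 hPa) hmn
          · intro h'
            have := hN.cP m b hb _ (h.wN j hj) _ (h.wN l hl) h'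
            exact absurd (hN.disj m n b hb this.1 hPb) hmn
      · intro m hm t ht j hj
        constructor
        · intro h'
          have h4 := hM.rP m t a ha _ (h.vM j hj) h'
          have h5 := hM.disj m n a ha h4.2.1 hPa
          subst h5
          have h6 := hsp m t s h4.1 hns
          subst h6
          exact (k2 j hj h4.2.2).1 h'
        · intro h'
          have h4 := hN.rP m t b hb _ (h.wN j hj) h'
          have h5 := hN.disj m n b hb h4.2.1 hPb
          subst h5
          have h6 := hsp m t s h4.1 hns
          subst h6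
          exact (k2 j hj ((hSP j hj).2 h4.2.2)).2 h'
      · intro m hm t ht j hj
        constructor
        · intro h'
          have h4 := hM.rP m t _ (h.vM j hj) a ha h'
          have h5 := hM.disj m n a ha h4.2.2 hPa
          subst h5
          have h6 := hsp m t s h4.1 hns
          subst h6
          exact (k1 j hj h4.2.1).1 h'
        · intro h'
          have h4 := hN.rP m t _ (h.wN j hj) b hb h'
          have h5 := hN.disj m n b hb h4.2.2 hPb
          subst h5
          have h6 := hsp m t s h4.1 hns
          subst h6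
          exact (k1 j hj ((hSP j hj).2 h4.2.1)).2 h'
    · push Not at h3
      by_cases h4 : ∃ j0 ∈ S, P M n (v j0)
      · obtain ⟨j0, hj0, hp0⟩ := h4
        have hx := h.vM j0 hj0
        have hy := h.wN j0 hj0
        have hyP : P N n (w j0) := (hSP j0 hj0).1 hp0
        obtain ⟨b, hb, hPb, hby, hbL, hbU⟩ := hN.fillC hy hyP
          ((S.filter fun j => C M n (v j0) (v j) a).image w)
          ((S.filter fun j => C M n (v j0) a (v j)).image w)
          (by
            intro l hl
            simp only [Finset.mem_image, Finset.mem_filter] at hl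
            obtain ⟨j, ⟨hj, hj1⟩, rfl⟩ := hl
            have h5 := hM.cP n _ hx _ (h.vM j hj) _ ha hj1
            refine ⟨h.wN j hj, (hSP j hj).1 h5.2.1, fun h6 => ?_⟩
            exact h5.2.2.2.1 ((h.eq j0 hj0 j hj).2 h6.symm))
          (by
            intro l hl
            simp only [Finset.mem_image, Finset.mem_filter] at hl
            obtain ⟨j, ⟨hj, hj1⟩, rfl⟩ := hl
            have h5 := hM.cP n _ hx _ ha _ (h.vM j hj) hj1
            refine ⟨h.wN j hj, (hSP j hj).1 h5.2.2.1, fun h6 => ?_⟩
            exact h5.2.2.2.2.2 ((h.eq j0 hj0 j hj).2 h6.symm))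
          (by
            intro l hl u hu
            simp only [Finset.mem_image, Finset.mem_filter] at hl hu
            obtain ⟨j, ⟨hj, hj1⟩, rfl⟩ := hl
            obtain ⟨i, ⟨hi, hi1⟩, rfl⟩ := hu
            exact (h.c n hn j0 hj0 j hj i hi).1
              (hM.trans n _ hx _ (h.vM j hj) _ ha _ (h.vM i hi) hj1 hi1))
        have f1 : ∀ j ∈ S, C M n (v j0) (v j) a → C N n (w j0) (w j) b := fun j hj h1 =>
          hbL _ (Finset.mem_image.2 ⟨j, by simp [hj, h1], rfl⟩)
        have f2 : ∀ j ∈ S, C M n (v j0) a (v j) → C N n (w j0) b (w j) := fun j hj h1 =>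
          hbU _ (Finset.mem_image.2 ⟨j, by simp [hj, h1], rfl⟩)
        have tot : ∀ j ∈ S, P M n (v j) → v j ≠ v j0 →
            C M n (v j0) (v j) a ∨ C M n (v j0) a (v j) := fun j hj hp hne =>
          hM.total n _ hx _ (h.vM j hj) _ ha hp0 hp hPa hne.symm (h1 j0 hj0) (h1 j hj)
        have k1 : ∀ j ∈ S, (C M n (v j0) (v j) a ↔ C N n (w j0) (w j) b) := fun j hj =>
          ⟨f1 j hj, fun hr => by
            have h5 := hN.cP n _ hy _ (h.wN j hj) _ hb hr
            rcases tot j hj ((hSP j hj).2 h5.2.1) (fun h6 => h5.2.2.2.1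
              ((h.eq j0 hj0 j hj).1 h6.symm)) with h6 | h6
            · exact h6
            · exact absurd (f2 j hj h6) (hN.asym n _ hy _ (h.wN j hj) _ hb hr)⟩
        have k2 : ∀ j ∈ S, (C M n (v j0) a (v j) ↔ C N n (w j0) b (w j)) := fun j hj =>
          ⟨f2 j hj, fun hr => by
            have h5 := hN.cP n _ hy _ hb _ (h.wN j hj) hr
            rcases tot j hj ((hSP j hj).2 h5.2.2.1) (fun h6 => h5.2.2.2.2.2
              ((h.eq j0 hj0 j hj).1 h6.symm)) with h6 | h6
            · exact absurd (f1 j hj h6) (hN.asym n _ hy _ hb _ (h.wN j hj) hr)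
            · exact h6⟩
        refine ⟨b, ha, hb, ?_, ?_, ?_, ?_, ?_⟩
        · intro j hj
          refine ⟨fun h' => absurd h' (h1 j hj), fun h' => ?_⟩
          exfalso
          have hp : P M n (v j) := (hSP j hj).2 (h' ▸ hPb)
          by_cases hjx : v j = v j0
          · exact hby (by rw [← h', (h.eq j hj j0 hj0).1 hjx])
          · rcases tot j hj hp hjx with h5 | h5
            · have := f1 j hj h5
              rw [h'] at this; exact hN.not_C_abb hy hb this
            · have := f2 j hj h5
              rw [h'] at this; exact hN.not_C_abb hy hb this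
        · intro m hm
          constructor
          · intro h'
            rw [← hM.disj n m a ha hPa h']; exact hPb
          · intro h'
            rw [← hN.disj n m b hb hPb h']; exact hPa
        · intro m hm j hj l hl
          by_cases hmn : m = n
          · subst hmn
            by_cases hjl : P M m (v j) ∧ P M m (v l)
            · by_cases e1 : v j = v j0
              · have e1' : w j = w j0 := (h.eq j hj j0 hj0).1 e1
                rw [e1, e1', hM.cyc' ha hx (h.vM l hl), hN.cyc' hb hy (h.wN l hl)]
                exact k1 l hl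
              · by_cases e2 : v l = v j0
                · have e2' : w l = w j0 := (h.eq l hl j0 hj0).1 e2
                  rw [e2, e2', ← hM.cyc' hx ha (h.vM j hj), ← hN.cyc' hy hb (h.wN j hj)]
                  exact k2 j hj
                · have e1' : w j ≠ w j0 := fun h' => e1 ((h.eq j hj j0 hj0).2 h')
                  have e2' : w l ≠ w j0 := fun h' => e2 ((h.eq l hl j0 hj0).2 h')
                  rw [hM.base m _ hx a ha _ (h.vM j hj) _ (h.vM l hl) hp0 hPa hjl.1 hjl.2
                    (h1 j0 hj0) (Ne.symm e1) (Ne.symm e2),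
                    hN.base m _ hy b hb _ (h.wN j hj) _ (h.wN l hl) hyP hPb
                    ((hSP j hj).1 hjl.1) ((hSP l hl).1 hjl.2) hby.symm (Ne.symm e1')
                    (Ne.symm e2'), k2 j hj, k1 l hl, h.c m hm j0 hj0 j hj l hl]
            · constructor
              · intro h'
                have := hM.cP m a ha _ (h.vM j hj) _ (h.vM l hl) h'
                exact absurd ⟨this.2.1, this.2.2.1⟩ hjl
              · intro h'
                have := hN.cP m b hb _ (h.wN j hj) _ (h.wN l hl) h'
                exact absurd ⟨(hSP j hj).2 this.2.1, (hSP l hl).2 this.2.2.1⟩ hjl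
          · constructor
            · intro h'
              have := hM.cP m a ha _ (h.vM j hj) _ (h.vM l hl) h'
              exact absurd (hM.disj m n a ha this.1 hPa) hmn
            · intro h'
              have := hN.cP m b hb _ (h.wN j hj) _ (h.wN l hl) h'
              exact absurd (hN.disj m n b hb this.1 hPb) hmn
        · intro m hm t ht j hj
          constructor
          · intro h'
            have h4 := hM.rP m t a ha _ (h.vM j hj) h'
            have h5 := hM.disj m n a ha h4.2.1 hPa
            subst h5
            exact absurd h4.1 (h3 t ht)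
          · intro h'
            have h4 := hN.rP m t b hb _ (h.wN j hj) h'
            have h5 := hN.disj m n b hb h4.2.1 hPb
            subst h5
            exact absurd h4.1 (h3 t ht)
        · intro m hm t ht j hj
          constructor
          · intro h'
            have h4 := hM.rP m t _ (h.vM j hj) a ha h'
            have h5 := hM.disj m n a ha h4.2.2 hPa
            subst h5
            exact absurd h4.1 (h3 t ht)
          · intro h'
            have h4 := hN.rP m t _ (h.wN j hj) b hb h'
            have h5 := hN.disj m n b hb h4.2.2 hPb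
            subst h5
            exact absurd h4.1 (h3 t ht)
      · push Not at h4
        obtain ⟨b, hb, hPb⟩ := hN.ne n
        have h4' : ∀ j ∈ S, ¬ P N n (w j) := fun j hj h' => h4 j hj ((hSP j hj).2 h')
        refine ⟨b, ha, hb, ?_, ?_, ?_, ?_, ?_⟩
        · intro j hj
          refine ⟨fun h' => absurd h' (h1 j hj), fun h' => ?_⟩
          exact absurd (h' ▸ hPb) (h4' j hj)
        · intro m hm
          constructor
          · intro h'
            rw [← hM.disj n m a ha hPa h']; exact hPb
          · intro h'
            rw [← hN.disj n m b hb hPb h']; exact hPa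
        · intro m hm j hj l hl
          constructor
          · intro h'
            have h5 := hM.cP m a ha _ (h.vM j hj) _ (h.vM l hl) h'
            have h6 := hM.disj m n a ha h5.1 hPa
            subst h6
            exact absurd h5.2.1 (h4 j hj)
          · intro h'
            have h5 := hN.cP m b hb _ (h.wN j hj) _ (h.wN l hl) h'
            have h6 := hN.disj m n b hb h5.1 hPb
            subst h6
            exact absurd h5.2.1 (h4' j hj)
        · intro m hm t ht j hj
          constructor
          · intro h'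
            have h5 := hM.rP m t a ha _ (h.vM j hj) h'
            have h6 := hM.disj m n a ha h5.2.1 hPa
            subst h6
            exact absurd h5.2.2 (h4 j hj)
          · intro h'
            have h5 := hN.rP m t b hb _ (h.wN j hj) h'
            have h6 := hN.disj m n b hb h5.2.1 hPb
            subst h6
            exact absurd h5.2.2 (h4' j hj)
        · intro m hm t ht j hj
          constructor
          · intro h'
            have h5 := hM.rP m t _ (h.vM j hj) a ha h'
            have h6 := hM.disj m n a ha h5.2.2 hPa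
            subst h6
            exact absurd h5.2.1 (h4 j hj)
          · intro h'
            have h5 := hN.rP m t _ (h.wN j hj) b hb h'
            have h6 := hN.disj m n b hb h5.2.2 hPb
            subst h6
            exact absurd h5.2.1 (h4' j hj)
  · push Not at h2
    -- a fresh invisible circle
    obtain ⟨N0, hN0k, hN0⟩ : ∃ N0, k ≤ N0 ∧ ∀ j ∈ S, ¬ P N N0 (w j) := by
      let f : ℕ → ℕ := fun j => if hj : ∃ n, P N n (w j) then hj.choose else 0
      refine ⟨max k (S.sup f + 1), le_max_left _ _, fun j hj h' => ?_⟩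
      have hex : ∃ n, P N n (w j) := ⟨_, h'⟩
      have h5 : f j = hex.choose := dif_pos hex
      have h6 := hN.disj _ _ _ (h.wN j hj) h' hex.choose_spec
      have h7 : f j ≤ S.sup f := Finset.le_sup hj
      rw [h5] at h7
      have h8 := le_max_right k (S.sup f + 1)
      omega
    obtain ⟨b, hb, hPb⟩ := hN.ne N0
    have hbv : ∀ m < k, ¬ P N m b := fun m hm h' => by
      have := hN.disj m N0 b hb h' hPb
      omega
    refine ⟨b, ha, hb, ?_, ?_, ?_, ?_, ?_⟩
    · intro j hj
      exact ⟨fun h' => absurd h' (h1 j hj), fun h' => absurd (h' ▸ hPb) (hN0 j hj)⟩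
    · intro m hm
      exact ⟨fun h' => absurd h' (h2 m hm), fun h' => absurd h' (hbv m hm)⟩
    · intro m hm j hj l hl
      exact ⟨fun h' => absurd (hM.cP m a ha _ (h.vM j hj) _ (h.vM l hl) h').1 (h2 m hm),
        fun h' => absurd (hN.cP m b hb _ (h.wN j hj) _ (h.wN l hl) h').1 (hbv m hm)⟩
    · intro m hm t ht j hj
      exact ⟨fun h' => absurd (hM.rP m t a ha _ (h.vM j hj) h').2.1 (h2 m hm),
        fun h' => absurd (hN.rP m t b hb _ (h.wN j hj) h').2.1 (hbv m hm)⟩
    · intro m hm t ht j hj
      exact ⟨fun h' => absurd (hM.rP m t _ (h.vM j hj) a ha h').2.2 (h2 m hm),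
        fun h' => absurd (hN.rP m t _ (h.wN j hj) b hb h').2.2 (hbv m hm)⟩

/-- A bound for all indices of relation symbols in a formula. -/
def Fml.bnd : Fml → ℕ
  | .eq _ _ => 0
  | .rel r _ => r + 1
  | .neg φ => φ.bnd
  | .and φ ψ => max φ.bnd ψ.bnd
  | .ex _ φ => φ.bnd

theorem KEq.rel {M N : Str} (hM : Good sp M) (hN : Good sp N) {k : ℕ} {S : Finset ℕ}
    {v w : ℕ → ℕ} (h : KEq k M N S v w) {r : ℕ} (hr : r < k) {vs : List ℕ}
    (hvs : ∀ i ∈ vs, i ∈ S) : M.rel r (vs.map v) ↔ N.rel r (vs.map w) := by
  have hle : ∀ a b : ℕ, b ≤ Nat.pair a b := fun a b => Nat.right_le_pair a b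
  have hle' : ∀ a b : ℕ, a ≤ Nat.pair a b := fun a b => Nat.left_le_pair a b
  have main : ∀ (M N : Str), Good sp M → KEq k M N S v w → M.rel r (vs.map v) →
      N.rel r (vs.map w) := by
    intro M N hM h hrel
    have hdom : ∀ a ∈ vs.map v, a ∈ M.dom := by
      intro a ha
      obtain ⟨i, hi, rfl⟩ := List.mem_map.1 ha
      exact h.vM i (hvs i hi)
    rcases hM.other r _ hdom hrel with ⟨n, a, rfl, hl⟩ | ⟨n, a, b, c, rfl, hl⟩ |
      ⟨n, s, a, b, rfl, hl⟩
    · match vs, hl with
      | [i], hl =>
        simp only [List.map_cons, List.map_nil] at hrel ⊢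
        exact (h.p n (lt_of_le_of_lt (hle 0 n) hr) i (hvs i (by simp))).1 hrel
    · match vs, hl with
      | [i, j, l], hl =>
        simp only [List.map_cons, List.map_nil] at hrel ⊢
        exact (h.c n (lt_of_le_of_lt (hle 1 n) hr) i (hvs i (by simp)) j (hvs j (by simp))
          l (hvs l (by simp))).1 hrel
    · match vs, hl with
      | [i, j], hl =>
        simp only [List.map_cons, List.map_nil] at hrel ⊢
        exact (h.r n (lt_of_le_of_lt (le_trans (hle' n s) (hle 2 _)) hr) s
          (lt_of_le_of_lt (le_trans (hle n s) (hle 2 _)) hr) i (hvs i (by simp))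
          j (hvs j (by simp))).1 hrel
  have main' : ∀ (M N : Str), Good sp N → KEq k M N S v w → N.rel r (vs.map w) →
      M.rel r (vs.map v) := by
    intro M N hN h hrel
    have hdom : ∀ a ∈ vs.map w, a ∈ N.dom := by
      intro a ha
      obtain ⟨i, hi, rfl⟩ := List.mem_map.1 ha
      exact h.wN i (hvs i hi)
    rcases hN.other r _ hdom hrel with ⟨n, a, rfl, hl⟩ | ⟨n, a, b, c, rfl, hl⟩ |
      ⟨n, s, a, b, rfl, hl⟩
    · match vs, hl with
      | [i], hl =>
        simp only [List.map_cons, List.map_nil] at hrel ⊢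
        exact (h.p n (lt_of_le_of_lt (hle 0 n) hr) i (hvs i (by simp))).2 hrel
    · match vs, hl with
      | [i, j, l], hl =>
        simp only [List.map_cons, List.map_nil] at hrel ⊢
        exact (h.c n (lt_of_le_of_lt (hle 1 n) hr) i (hvs i (by simp)) j (hvs j (by simp))
          l (hvs l (by simp))).2 hrel
    · match vs, hl with
      | [i, j], hl =>
        simp only [List.map_cons, List.map_nil] at hrel ⊢
        exact (h.r n (lt_of_le_of_lt (le_trans (hle' n s) (hle 2 _)) hr) s
          (lt_of_le_of_lt (le_trans (hle n s) (hle 2 _)) hr) i (hvs i (by simp))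
          j (hvs j (by simp))).2 hrel
  exact ⟨main M N hM h, main' M N hN h⟩

theorem sat_of_keq (hsp : ∀ n s s', sp n s → sp n s' → s = s') {M N : Str} (hM : Good sp M)
    (hN : Good sp N) {k : ℕ} (φ : Fml) (hφ : φ.bnd ≤ k) :
    ∀ {S : Finset ℕ} {v w : ℕ → ℕ}, KEq k M N S v w → φ.fv ⊆ S → (Sat M φ v ↔ Sat N φ w) := by
  induction φ with
  | eq i j =>
    intro S v w h hS
    simp only [Fml.fv, Finset.insert_subset_iff, Finset.singleton_subset_iff] at hS
    simp only [Sat]
    exact h.eq i hS.1 j hS.2
  | rel r vs =>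
    intro S v w h hS
    simp only [Fml.bnd] at hφ
    exact h.rel hM hN (by omega) fun i hi => hS (by simpa [Fml.fv] using hi)
  | neg φ ih =>
    intro S v w h hS
    simp only [Sat]
    rw [ih hφ h hS]
  | and φ ψ ih1 ih2 =>
    intro S v w h hS
    simp only [Fml.bnd, max_le_iff] at hφ
    simp only [Fml.fv, Finset.union_subset_iff] at hS
    simp only [Sat]
    rw [ih1 hφ.1 h hS.1, ih2 hφ.2 h hS.2]
  | ex i φ ih =>
    intro S v w h hS
    have h' : KEq k M N (S.erase i) v w := h.mono (Finset.erase_subset _ _)
    have hi : i ∉ S.erase i := Finset.notMem_erase i S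
    have hsub : φ.fv ⊆ insert i (S.erase i) := by
      intro j hj
      by_cases hji : j = i
      · simp [hji]
      · simp only [Finset.mem_insert, Finset.mem_erase]
        refine Or.inr ⟨hji, hS ?_⟩
        simp [Fml.fv, hji, hj]
    simp only [Sat]
    constructor
    · rintro ⟨a, ha, hs⟩
      obtain ⟨b, hb⟩ := exists_match hsp hM hN h' ha
      exact ⟨b, hb.bN, (ih hφ (h'.insert hM hN hi hb) hsub).1 hs⟩
    · rintro ⟨b, hb, hs⟩
      obtain ⟨a, ha⟩ := exists_match hsp hN hM h'.symm hb
      exact ⟨a, ha.bN, (ih hφ (h'.symm.insert hN hM hi ha).symm hsub).2 hs⟩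

/-- All models of the axioms are elementarily equivalent. -/
theorem Good.elemEquiv (hsp : ∀ n s s', sp n s → sp n s' → s = s') {M N : Str}
    (hM : Good sp M) (hN : Good sp N) : ElemEquiv M N := by
  intro φ hφ
  rw [sentence_models hφ (fun _ => 0), sentence_models hφ (fun _ => 0)]
  refine sat_of_keq hsp hM hN φ (k := φ.bnd) le_rfl (S := ∅) ?_ (by rw [hφ])
  constructor <;> simp

/-- Embeddings between models of the axioms are elementary. -/
theorem Good.elemEmb (hsp : ∀ n s s', sp n s → sp n s' → s = s') {M N : Str}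
    (hM : Good sp M) (hN : Good sp N) {f : ℕ → ℕ} (hf : ∀ a ∈ M.dom, f a ∈ N.dom)
    (hinj : ∀ a ∈ M.dom, ∀ b ∈ M.dom, f a = f b → a = b)
    (hP : ∀ n, ∀ a ∈ M.dom, (P M n a ↔ P N n (f a)))
    (hC : ∀ n, ∀ a ∈ M.dom, ∀ b ∈ M.dom, ∀ c ∈ M.dom, (C M n a b c ↔ C N n (f a) (f b) (f c)))
    (hR : ∀ n s, ∀ a ∈ M.dom, ∀ b ∈ M.dom, (R M n s a b ↔ R N n s (f a) (f b))) :
    ElemEmb M N f := by
  refine ⟨hf, fun φ v hv => ?_⟩
  refine sat_of_keq hsp hM hN φ (k := φ.bnd) le_rfl (S := φ.fv) ?_ (Finset.Subset.refl _)
  exact ⟨fun i _ => hv i, fun i _ => hf _ (hv i),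
    fun i _ j _ => ⟨fun h => by rw [h], fun h => hinj _ (hv i) _ (hv j) h⟩,
    fun n _ i _ => hP n _ (hv i), fun n _ i _ j _ l _ => hC n _ (hv i) _ (hv j) _ (hv l),
    fun n _ s _ i _ j _ => hR n s _ (hv i) _ (hv j)⟩

end Pool.Agent.H93PMU
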