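import Mathlib
import Pool.Agent.H19.Reduce

/-!
# Relative computability combinators

`RC Z f`: the total function `f` between `Primcodable` types is computable with the oracle `Z`.
-/

set_option autoImplicit false

namespace Pool.Agent.H93PMU

open Encodable Pool.Agent.H19

variable {α β γ σ : Type*} [Primcodable α] [Primcodable β] [Primcodable γ] [Primcodable σ]

/-- `f` is computable relative to the oracle `Z`: it has a computable approximation which uses
finite initial segments of the oracle. -/
def RC (Z : ℕ → Bool) (f : α → β) : Prop :=
  ∃ F : α → List Bool → Option β, Computable₂ F ∧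
    (∀ a s b, F a (pre Z s) = some b → b = f a) ∧
    (∀ a, ∃ s, ∀ t ≥ s, F a (pre Z t) = some (f a))

/-- Binary version. -/
def RC₂ (Z : ℕ → Bool) (f : α → β → γ) : Prop := RC Z (fun p : α × β => f p.1 p.2)

variable {Z : ℕ → Bool}

theorem RC.of_eq {f g : α → β} (hf : RC Z f) (h : ∀ a, f a = g a) : RC Z g := by
  have : f = g := funext h
  rwa [← this]

theorem RC.of_computable {f : α → β} (hf : Computable f) : RC Z f := by
  refine ⟨fun a _ => some (f a), ?_, ?_, ?_⟩
  · exact Computable.option_some.comp (hf.comp Computable.fst)
  · intro a s b h; simpa using h.symm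
  · intro a; exact ⟨0, fun t _ => rfl⟩

theorem RC.const (b : β) : RC Z (fun _ : α => b) := RC.of_computable (Computable.const b)

theorem RC.id : RC Z (fun a : α => a) := RC.of_computable Computable.id

theorem RC.comp {g : β → γ} {f : α → β} (hg : RC Z g) (hf : RC Z f) :
    RC Z (fun a => g (f a)) := by
  obtain ⟨F, hF1, hF2, hF3⟩ := hf
  obtain ⟨G, hG1, hG2, hG3⟩ := hg
  refine ⟨fun a τ => (F a τ).bind fun b => G b τ, ?_, ?_, ?_⟩
  · refine Computable.option_bind hF1 ?_
    exact hG1.comp Computable.snd (Computable.snd.comp Computable.fst)
  · intro a s c h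
    rw [Option.bind_eq_some_iff] at h
    obtain ⟨b, hb, hc⟩ := h
    have := hF2 _ _ _ hb
    subst this
    exact hG2 _ _ _ hc
  · intro a
    obtain ⟨s, hs⟩ := hF3 a
    obtain ⟨t, ht⟩ := hG3 (f a)
    refine ⟨max s t, fun u hu => ?_⟩
    simp only
    rw [hs u (le_trans (le_max_left _ _) hu), Option.bind_some,
      ht u (le_trans (le_max_right _ _) hu)]

theorem RC.pair {f : α → β} {g : α → γ} (hf : RC Z f) (hg : RC Z g) :
    RC Z (fun a => (f a, g a)) := by
  obtain ⟨F, hF1, hF2, hF3⟩ := hf
  obtain ⟨G, hG1, hG2, hG3⟩ := hg
  refine ⟨fun a τ => (F a τ).bind fun b => (G a τ).map fun c => (b, c), ?_, ?_, ?_⟩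
  · refine Computable.option_bind hF1 ?_
    refine Computable.option_map (hG1.comp (Computable.fst.comp Computable.fst)
      (Computable.snd.comp Computable.fst)) ?_
    exact Computable.pair (Computable.snd.comp Computable.fst) Computable.snd
  · intro a s c h
    rw [Option.bind_eq_some_iff] at h
    obtain ⟨b, hb, hc⟩ := h
    rw [Option.map_eq_some_iff] at hc
    obtain ⟨d, hd, rfl⟩ := hc
    rw [hF2 _ _ _ hb, hG2 _ _ _ hd]
  · intro a
    obtain ⟨s, hs⟩ := hF3 a
    obtain ⟨t, ht⟩ := hG3 a
    refine ⟨max s t, fun u hu => ?_⟩
    simp only
    rw [hs u (le_trans (le_max_left _ _) hu), Option.bind_some,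
      ht u (le_trans (le_max_right _ _) hu), Option.map_some]

theorem RC.fst : RC Z (fun p : α × β => p.1) := RC.of_computable Computable.fst

theorem RC.snd : RC Z (fun p : α × β => p.2) := RC.of_computable Computable.snd

theorem RC₂.comp {f : α → β → γ} {g : σ → α} {h : σ → β} (hf : RC₂ Z f) (hg : RC Z g)
    (hh : RC Z h) : RC Z (fun a => f (g a) (h a)) :=
  RC.comp (g := fun p : α × β => f p.1 p.2) hf (hg.pair hh)

theorem RC.comp_computable {g : β → γ} {f : α → β} (hg : Computable g) (hf : RC Z f) :
    RC Z (fun a => g (f a)) := (RC.of_computable hg).comp hf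

theorem RC.comp_computable₂ {f : α → β → γ} {g : σ → α} {h : σ → β} (hf : Computable₂ f)
    (hg : RC Z g) (hh : RC Z h) : RC Z (fun a => f (g a) (h a)) :=
  RC.comp (g := fun p : α × β => f p.1 p.2) (RC.of_computable hf) (hg.pair hh)

theorem RC₂.of_computable {f : α → β → γ} (hf : Computable₂ f) : RC₂ Z f := RC.of_computable hf

/-- The oracle itself. -/
theorem RC.oracle (Z : ℕ → Bool) : RC Z Z := by
  refine ⟨fun n τ => τ[n]?, ?_, ?_, ?_⟩
  · exact Computable.list_getElem?.comp Computable.snd Computable.fst
  · intro n s b h
    have hn : n < s := by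
      rw [List.getElem?_eq_some_iff] at h
      simpa [pre_length] using h.1
    simp only [pre_getElem? Z hn] at h
    simpa using h.symm
  · intro n
    exact ⟨n + 1, fun t ht => pre_getElem? Z ht⟩

theorem RC.ite {c : α → Bool} {f g : α → β} (hc : RC Z c) (hf : RC Z f) (hg : RC Z g) :
    RC Z (fun a => if c a then f a else g a) := by
  have h1 : Computable (fun p : Bool × (β × β) => if p.1 then p.2.1 else p.2.2) :=
    comp_ite (c := fun p : Bool × (β × β) => p.1) Computable.fst
      (Computable.fst.comp Computable.snd) (Computable.snd.comp Computable.snd)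
  exact (RC.comp_computable h1 (hc.pair (hf.pair hg)))

theorem RC.and {f g : α → Bool} (hf : RC Z f) (hg : RC Z g) : RC Z (fun a => f a && g a) :=
  RC.comp_computable₂ (f := fun a b : Bool => a && b)
    (comp_and Computable.fst Computable.snd) hf hg

theorem RC.or {f g : α → Bool} (hf : RC Z f) (hg : RC Z g) : RC Z (fun a => f a || g a) :=
  RC.comp_computable₂ (f := fun a b : Bool => a || b)
    (comp_or Computable.fst Computable.snd) hf hg

theorem RC.not {f : α → Bool} (hf : RC Z f) : RC Z (fun a => !(f a)) :=
  RC.comp_computable (g := fun a : Bool => !a) (comp_not Computable.id) hf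

/-- Primitive recursion. -/
theorem RC.nat_rec {f : α → ℕ} {g : α → β} {h : α → ℕ × β → β} (hf : RC Z f) (hg : RC Z g)
    (hh : RC₂ Z h) :
    RC Z (fun a => (Nat.rec (g a) (fun y IH => h a (y, IH)) (f a) : β)) := by
  obtain ⟨F, hF1, hF2, hF3⟩ := hf
  obtain ⟨G, hG1, hG2, hG3⟩ := hg
  obtain ⟨H, hH1, hH2, hH3⟩ := hh
  let R : α → List Bool → ℕ → Option β := fun a τ n =>
    Nat.rec (G a τ) (fun y IH => IH.bind fun i => H (a, (y, i)) τ) n
  have hR : ∀ a τ, R a τ 0 = G a τ := fun a τ => rfl
  have hRs : ∀ a τ n, R a τ (n + 1) = (R a τ n).bind fun i => H (a, (n, i)) τ :=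
    fun a τ n => rfl
  let r : α → ℕ → β := fun a n => Nat.rec (g a) (fun y IH => h a (y, IH)) n
  have hr : ∀ a, r a 0 = g a := fun a => rfl
  have hrs : ∀ a n, r a (n + 1) = h a (n, r a n) := fun a n => rfl
  have hsound : ∀ a n s b, R a (pre Z s) n = some b → b = r a n := by
    intro a n s
    induction n with
    | zero => intro b hb; exact hG2 _ _ _ hb
    | succ n ih =>
      intro b hb
      rw [hRs, Option.bind_eq_some_iff] at hb
      obtain ⟨i, hi, hb⟩ := hb
      rw [hrs, ← ih i hi]
      exact hH2 _ _ _ hb
  have hev : ∀ a n, ∃ s, ∀ t ≥ s, R a (pre Z t) n = some (r a n) := by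
    intro a n
    induction n with
    | zero => exact hG3 a
    | succ n ih =>
      obtain ⟨s, hs⟩ := ih
      obtain ⟨t, ht⟩ := hH3 (a, (n, r a n))
      refine ⟨max s t, fun u hu => ?_⟩
      rw [hRs, hs u (le_trans (le_max_left _ _) hu), Option.bind_some,
        ht u (le_trans (le_max_right _ _) hu)]
  refine ⟨fun a τ => (F a τ).bind fun n => R a τ n, ?_, ?_, ?_⟩
  · refine Computable.option_bind hF1 ?_
    refine Computable.nat_rec (f := fun q : (α × List Bool) × ℕ => q.2)
      (g := fun q : (α × List Bool) × ℕ => G q.1.1 q.1.2)
      (h := fun (q : (α × List Bool) × ℕ) (p : ℕ × Option β) =>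
        p.2.bind fun i => H (q.1.1, (p.1, i)) q.1.2)
      Computable.snd ?_ ?_
    · exact hG1.comp (Computable.fst.comp Computable.fst) (Computable.snd.comp Computable.fst)
    · refine Computable.option_bind (Computable.snd.comp Computable.snd) ?_
      refine hH1.comp ?_ ?_
      · refine Computable.pair ?_ (Computable.pair ?_ Computable.snd)
        · exact Computable.fst.comp (Computable.fst.comp (Computable.fst.comp Computable.fst))
        · exact Computable.fst.comp (Computable.snd.comp Computable.fst)
      · exact Computable.snd.comp (Computable.fst.comp (Computable.fst.comp Computable.fst))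
  · intro a s b hb
    rw [Option.bind_eq_some_iff] at hb
    obtain ⟨n, hn, hb⟩ := hb
    have := hF2 _ _ _ hn
    subst this
    exact hsound _ _ _ _ hb
  · intro a
    obtain ⟨s, hs⟩ := hF3 a
    obtain ⟨t, ht⟩ := hev a (f a)
    refine ⟨max s t, fun u hu => ?_⟩
    simp only
    rw [hs u (le_trans (le_max_left _ _) hu), Option.bind_some,
      ht u (le_trans (le_max_right _ _) hu)]

/-- Course: folds over lists. -/
theorem RC.list_foldl {f : α → List β} {g : α → σ} {h : α → σ × β → σ}
    (hf : RC Z f) (hg : RC Z g) (hh : RC₂ Z h) :
    RC Z fun a => (f a).foldl (fun s b => h a (s, b)) (g a) := by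
  have hstep : RC₂ Z (fun (a : α) (p : ℕ × σ) =>
      (Option.elim ((f a)[p.1]?) p.2 (fun b => h a (p.2, b)) : σ)) := by
    obtain ⟨H, hH1, hH2, hH3⟩ := hh
    obtain ⟨F, hF1, hF2, hF3⟩ := hf
    refine ⟨fun q τ => (F q.1 τ).bind fun l => Option.elim (l[q.2.1]?) (some q.2.2)
      (fun b => H (q.1, (q.2.2, b)) τ), ?_, ?_, ?_⟩
    · refine Computable.option_bind (hF1.comp (Computable.fst.comp Computable.fst)
        Computable.snd) ?_
      refine (Computable.option_casesOn
        (o := fun r : ((α × (ℕ × σ)) × List Bool) × List β => r.2[r.1.1.2.1]?)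
        (f := fun r => some r.1.1.2.2)
        (g := fun r b => H (r.1.1.1, (r.1.1.2.2, b)) r.1.2) ?_ ?_ ?_).of_eq ?_
      · exact Computable.list_getElem?.comp Computable.snd
          (Computable.fst.comp (Computable.snd.comp (Computable.fst.comp Computable.fst)))
      · exact Computable.option_some.comp
          (Computable.snd.comp (Computable.snd.comp (Computable.fst.comp Computable.fst)))
      · refine hH1.comp ?_ (Computable.snd.comp (Computable.fst.comp Computable.fst))
        refine Computable.pair ?_ (Computable.pair ?_ Computable.snd)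
        · exact Computable.fst.comp (Computable.fst.comp (Computable.fst.comp Computable.fst))
        · exact Computable.snd.comp (Computable.snd.comp (Computable.fst.comp
            (Computable.fst.comp Computable.fst)))
      · rintro ⟨⟨⟨a, n, s⟩, τ⟩, l⟩
        simp only
        cases l[n]? <;> rfl
    · rintro ⟨a, n, x⟩ s b hb
      rw [Option.bind_eq_some_iff] at hb
      obtain ⟨l, hl, hb⟩ := hb
      have := hF2 _ _ _ hl
      subst this
      simp only at hb ⊢
      cases hc : (f a)[n]? with
      | none => rw [hc] at hb; simpa using hb.symm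
      | some c =>
        rw [hc] at hb
        exact hH2 _ _ _ hb
    · rintro ⟨a, n, x⟩
      obtain ⟨s, hs⟩ := hF3 a
      cases hc : (f a)[n]? with
      | none =>
        refine ⟨s, fun t ht => ?_⟩
        simp only
        rw [hs t ht, Option.bind_some, hc]
        rfl
      | some c =>
        obtain ⟨s', hs'⟩ := hH3 (a, (x, c))
        refine ⟨max s s', fun t ht => ?_⟩
        simp only
        rw [hs t (le_trans (le_max_left _ _) ht), Option.bind_some, hc]
        exact hs' t (le_trans (le_max_right _ _) ht)
  have hrec := RC.nat_rec (f := fun a => (f a).length) (g := g)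
    (h := fun a p => (Option.elim ((f a)[p.1]?) p.2 (fun b => h a (p.2, b)) : σ))
    (RC.comp_computable Computable.list_length hf) hg hstep
  refine hrec.of_eq fun a => ?_
  have key : ∀ n, n ≤ (f a).length →
      (Nat.rec (g a) (fun y IH => (Option.elim ((f a)[y]?) IH (fun b => h a (IH, b)) : σ)) n : σ)
        = ((f a).take n).foldl (fun s b => h a (s, b)) (g a) := by
    intro n
    induction n with
    | zero => intro _; simp
    | succ n ih =>
      intro hn
      have hlt : n < (f a).length := hn
      have e1 : (f a)[n]? = some (f a)[n] := List.getElem?_eq_getElem hlt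
      rw [List.take_add_one, List.foldl_append, ← ih (le_of_lt hlt)]
      simp only [e1, Option.toList_some, List.foldl_cons, List.foldl_nil, Option.elim_some]
  have := key (f a).length le_rfl
  rw [List.take_length] at this
  exact this

theorem RC.list_all {f : α → List β} {g : α → β → Bool} (hf : RC Z f) (hg : RC₂ Z g) :
    RC Z fun a => (f a).all (g a) := by
  have h1 : RC₂ Z (fun (a : α) (p : Bool × β) => p.1 && g a p.2) :=
    RC.and (RC.of_computable (Computable.fst.comp Computable.snd))
      (RC₂.comp hg RC.fst (RC.of_computable (Computable.snd.comp Computable.snd)))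
  refine (RC.list_foldl hf (RC.const true) h1).of_eq fun a => ?_
  have : ∀ (l : List β) (acc : Bool),
      l.foldl (fun s b => s && g a b) acc = (acc && l.all (g a)) := by
    intro l
    induction l with
    | nil => intro acc; simp
    | cons b l ih => intro acc; simp [ih, Bool.and_assoc]
  simpa using this (f a) true

theorem RC.list_any {f : α → List β} {g : α → β → Bool} (hf : RC Z f) (hg : RC₂ Z g) :
    RC Z fun a => (f a).any (g a) := by
  refine (RC.not (RC.list_all (g := fun a b => !(g a b)) hf (RC.not hg))).of_eq fun a => ?_
  rw [List.all_eq_not_any_not]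
  simp

theorem RC.list_flatMap {f : α → List β} {g : α → β → List γ} (hf : RC Z f) (hg : RC₂ Z g) :
    RC Z fun a => (f a).flatMap (g a) := by
  have h1 : RC₂ Z (fun (a : α) (p : List γ × β) => p.1 ++ g a p.2) :=
    RC.comp_computable₂ (f := fun a b : List γ => a ++ b) Computable.list_append
      (RC.of_computable (Computable.fst.comp Computable.snd))
      (RC₂.comp hg RC.fst (RC.of_computable (Computable.snd.comp Computable.snd)))
  refine (RC.list_foldl hf (RC.const ([] : List γ)) h1).of_eq fun a => ?_
  have : ∀ (l : List β) (acc : List γ),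
      l.foldl (fun s b => s ++ g a b) acc = acc ++ l.flatMap (g a) := by
    intro l
    induction l with
    | nil => intro acc; simp
    | cons b l ih => intro acc; simp [ih, List.append_assoc]
  simpa using this (f a) []

theorem RC.list_map {f : α → List β} {g : α → β → γ} (hf : RC Z f) (hg : RC₂ Z g) :
    RC Z fun a => (f a).map (g a) := by
  have h1 : RC₂ Z (fun (a : α) (b : β) => [g a b]) :=
    RC.comp_computable₂ (f := fun (a : γ) (l : List γ) => a :: l) Computable.list_cons hg
      (RC.const [])
  refine (RC.list_flatMap hf h1).of_eq fun a => ?_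
  induction f a with
  | nil => simp
  | cons b l ih => simp_all

theorem RC.list_filter {f : α → List β} {g : α → β → Bool} (hf : RC Z f) (hg : RC₂ Z g) :
    RC Z fun a => (f a).filter (g a) := by
  have h1 : RC₂ Z (fun (a : α) (b : β) => if g a b then [b] else []) :=
    RC.ite hg (RC.comp_computable₂ (f := fun (a : β) (l : List β) => a :: l)
      Computable.list_cons RC.snd (RC.const [])) (RC.const [])
  refine (RC.list_flatMap hf h1).of_eq fun a => ?_
  induction f a with
  | nil => simp
  | cons b l ih =>
    by_cases hb : g a b <;> simp_all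

/-- Unbounded search. -/
theorem RC.find {p : α → ℕ → Bool} (hp : RC₂ Z p) (hex : ∀ a, ∃ n, p a n = true) :
    RC Z (fun a => Nat.find (hex a)) := by
  obtain ⟨P, hP1, hP2, hP3⟩ := hp
  -- the bounded search: state `none` = still searching, `some r` = result `r`
  let st : (α × List Bool) → ℕ × Option (Option ℕ) → Option (Option ℕ) := fun q p =>
    Option.casesOn p.2
      (Option.casesOn (P (q.1, p.1) q.2) (some none)
        (fun b => if b then some (some p.1) else none))
      (fun r => some r)
  let R : α → List Bool → ℕ → Option (Option ℕ) := fun a τ n =>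
    Nat.rec none (fun y IH => st (a, τ) (y, IH)) n
  have hR0 : ∀ a τ, R a τ 0 = none := fun _ _ => rfl
  have hRs : ∀ a τ n, R a τ (n + 1) = st (a, τ) (n, R a τ n) := fun _ _ _ => rfl
  have hnone : ∀ a τ n, R a τ n = none ↔ ∀ m < n, P (a, m) τ = some false := by
    intro a τ n
    induction n with
    | zero => simp [hR0]
    | succ n ih =>
      rw [hRs]
      cases hc : R a τ n with
      | some r =>
        rw [hc] at ih
        simp only [reduceCtorEq, false_iff] at ih
        simp only [st]
        constructor
        · intro h; cases h
        · intro h; exact absurd (fun m hm => h m (Nat.lt_succ_of_lt hm)) ih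
      | none =>
        rw [hc] at ih
        have ih' := ih.1 rfl
        simp only [st]
        cases hP : P (a, n) τ with
        | none =>
          simp only [reduceCtorEq, false_iff]
          intro h
          have := h n (Nat.lt_succ_self n)
          rw [hP] at this; cases this
        | some b =>
          cases b with
          | true =>
            simp only [if_true, reduceCtorEq, false_iff]
            intro h
            have := h n (Nat.lt_succ_self n)
            rw [hP] at this; cases this
          | false =>
            simp only [Bool.false_eq_true, if_false, true_iff]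
            intro m hm
            rcases Nat.lt_succ_iff_lt_or_eq.1 hm with hm | rfl
            · exact ih' m hm
            · exact hP
  have hsome : ∀ a τ n r, R a τ n = some (some r) →
      P (a, r) τ = some true ∧ ∀ m < r, P (a, m) τ = some false := by
    intro a τ n
    induction n with
    | zero => intro r h; rw [hR0] at h; cases h
    | succ n ih =>
      intro r h
      rw [hRs] at h
      cases hc : R a τ n with
      | some r' =>
        rw [hc] at h
        simp only [st] at h
        cases h
        exact ih r hc
      | none =>
        rw [hc] at h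
        simp only [st] at h
        cases hP : P (a, n) τ with
        | none => rw [hP] at h; simp at h
        | some b =>
          rw [hP] at h
          cases b with
          | true =>
            simp only [if_true, Option.some.injEq] at h
            subst h
            exact ⟨hP, (hnone a τ n).1 hc⟩
          | false => simp at h
  refine ⟨fun a τ => (R a τ τ.length).bind _root_.id, ?_, ?_, ?_⟩
  · have hst : Computable₂ st := by
      refine Computable.option_casesOn
        (o := fun r : (α × List Bool) × (ℕ × Option (Option ℕ)) => r.2.2)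
        (f := fun r => (Option.casesOn (P (r.1.1, r.2.1) r.1.2) (some none)
          (fun b => if b then some (some r.2.1) else none) : Option (Option ℕ)))
        (g := fun _ r => some r) ?_ ?_ ?_
      · exact Computable.snd.comp Computable.snd
      · refine Computable.option_casesOn
          (o := fun r : (α × List Bool) × (ℕ × Option (Option ℕ)) => P (r.1.1, r.2.1) r.1.2)
          (f := fun _ => some none)
          (g := fun r b => if b then some (some r.2.1) else none) ?_ ?_ ?_
        · refine hP1.comp (Computable.pair ?_ ?_) ?_
          · exact Computable.fst.comp Computable.fst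
          · exact Computable.fst.comp Computable.snd
          · exact Computable.snd.comp Computable.fst
        · exact Computable.const _
        · refine comp_ite (c := fun r : ((α × List Bool) × (ℕ × Option (Option ℕ))) × Bool =>
            r.2) Computable.snd ?_ (Computable.const _)
          exact Computable.option_some.comp (Computable.option_some.comp
            (Computable.fst.comp (Computable.snd.comp Computable.fst)))
      · exact Computable.option_some.comp Computable.snd
    have hRc : Computable (fun q : α × List Bool => R q.1 q.2 q.2.length) := by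
      refine Computable.nat_rec (f := fun q : α × List Bool => q.2.length)
        (g := fun _ => (none : Option (Option ℕ))) (h := fun q p => st (q.1, q.2) p)
        (Computable.list_length.comp Computable.snd) (Computable.const _) ?_
      exact hst.comp (Computable.pair (Computable.fst.comp Computable.fst)
        (Computable.snd.comp Computable.fst)) Computable.snd
    refine Computable.option_bind hRc ?_
    exact Computable.snd
  · intro a s n hn
    rw [Option.bind_eq_some_iff] at hn
    obtain ⟨r, hr, hrn⟩ := hn
    simp only [_root_.id] at hrn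
    subst hrn
    obtain ⟨h1, h2⟩ := hsome _ _ _ _ hr
    have h1' := hP2 _ _ _ h1
    refine (Nat.find_eq_iff (hex a)).2 ⟨h1'.symm, fun m hm => ?_⟩ |>.symm
    have := hP2 _ _ _ (h2 m hm)
    simp only at this
    rw [← this]; simp
  · intro a
    have hsp := Nat.find_spec (hex a)
    have hmin : ∀ m < Nat.find (hex a), p a m = false := fun m hm => by
      have := Nat.find_min (hex a) hm
      simpa using this
    set N := Nat.find (hex a) with hN
    have hev : ∀ k, k ≤ N + 1 → ∃ s, ∀ t ≥ s, ∀ m < k, P (a, m) (pre Z t) = some (p a m) := by
      intro k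
      induction k with
      | zero => intro _; exact ⟨0, fun t _ m hm => absurd hm (Nat.not_lt_zero m)⟩
      | succ k ih =>
        intro hk
        obtain ⟨s, hs⟩ := ih (le_trans (Nat.le_succ k) hk)
        obtain ⟨t, ht⟩ := hP3 (a, k)
        refine ⟨max s t, fun u hu m hm => ?_⟩
        rcases Nat.lt_succ_iff_lt_or_eq.1 hm with hm | rfl
        · exact hs u (le_trans (le_max_left _ _) hu) m hm
        · exact ht u (le_trans (le_max_right _ _) hu)
    obtain ⟨s, hs⟩ := hev (N + 1) le_rfl
    refine ⟨max s (N + 1), fun t ht => ?_⟩
    have hts : t ≥ s := le_trans (le_max_left _ _) ht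
    have htN : N + 1 ≤ t := le_trans (le_max_right _ _) ht
    simp only [pre_length]
    have hN1 : R a (pre Z t) N = none := (hnone _ _ _).2 fun m hm => by
      rw [hs t hts m (Nat.lt_succ_of_lt hm), hmin m hm]
    have hN2 : R a (pre Z t) (N + 1) = some (some N) := by
      rw [hRs, hN1]
      simp only [st]
      rw [hs t hts N (Nat.lt_succ_self N), hsp]
      simp
    have hstay : ∀ k, R a (pre Z t) (N + 1 + k) = some (some N) := by
      intro k
      induction k with
      | zero => exact hN2
      | succ k ih =>
        rw [← Nat.add_assoc, hRs, ih]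
    obtain ⟨k, rfl⟩ := Nat.exists_eq_add_of_le htN
    rw [hstay k]
    rfl

/-- Bounded evaluation of a code on a number and an initial segment of a string. -/
def evTake (c : Nat.Partrec.Code) (n : ℕ) (τ : List Bool) (k : ℕ) : Option ℕ :=
  Nat.Partrec.Code.evaln k.unpair.1 c (encode (n, τ.take k.unpair.2))

theorem evTake_computable (c : Nat.Partrec.Code) :
    Computable (fun q : (ℕ × List Bool) × ℕ => evTake c q.1.1 q.1.2 q.2) := by
  have h1 : Computable (fun q : (ℕ × List Bool) × ℕ => ((q.2.unpair.1, c),
      encode (q.1.1, q.1.2.take q.2.unpair.2))) := by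
    refine Computable.pair (Computable.pair ?_ (Computable.const c)) ?_
    · exact Computable.fst.comp (Computable.unpair.comp Computable.snd)
    · refine Computable.encode.comp (Computable.pair
        (Computable.fst.comp Computable.fst) ?_)
      exact comp_take (Computable.snd.comp (Computable.unpair.comp Computable.snd))
        (Computable.snd.comp Computable.fst)
  have h2 := (Nat.Partrec.Code.primrec_evaln.to_comp).comp h1
  exact h2

theorem evTake_sound {c : Nat.Partrec.Code} {n : ℕ} {Z : ℕ → Bool} {s k v : ℕ}
    (h : evTake c n (pre Z s) k = some v) : ∃ s', v ∈ c.eval (encode (n, pre Z s')) := by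
  have h1 := Nat.Partrec.Code.evaln_sound (Option.mem_def.2 h)
  have hlen : (pre Z s).take k.unpair.2 = pre Z (min k.unpair.2 s) := by
    rcases le_total k.unpair.2 s with h | h
    · rw [pre_take Z h, min_eq_left h]
    · rw [List.take_of_length_le (by simpa [pre_length] using h), min_eq_right h]
  rw [hlen] at h1
  exact ⟨_, h1⟩

/-- From Turing reducibility of characteristic functions. -/
theorem RC.of_turing {B : ℕ → Bool} (h : TuringReducible (chi B) (chi Z)) : RC Z B := by
  obtain ⟨c, hc⟩ := exists_codeComputes h
  -- search below the length of the string for a halting computation on a shorter string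
  obtain ⟨P, hPdef⟩ : ∃ P : ℕ → List Bool → ℕ → Option ℕ, P = evTake c := ⟨_, rfl⟩
  let R : ℕ → List Bool → ℕ → Option ℕ := fun n τ m =>
    Nat.rec none (fun y IH => Option.casesOn IH (P n τ y) (fun r => some r)) m
  have hR0 : ∀ n τ, R n τ 0 = none := fun _ _ => rfl
  have hRs : ∀ n τ m, R n τ (m + 1) = Option.casesOn (R n τ m) (P n τ m) (fun r => some r) :=
    fun _ _ _ => rfl
  have hsound : ∀ n τ m v, R n τ m = some v → ∃ k, P n τ k = some v := by
    intro n τ m
    induction m with
    | zero => intro v h; rw [hR0] at h; cases h
    | succ m ih =>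
      intro v h
      rw [hRs] at h
      cases hc : R n τ m with
      | none => rw [hc] at h; exact ⟨m, h⟩
      | some r => rw [hc] at h; simp only [Option.some.injEq] at h; subst h; exact ih _ hc
  have hcompl : ∀ n τ k v, P n τ k = some v → ∀ m, k < m → (R n τ m).isSome := by
    intro n τ k v hk m hm
    induction m with
    | zero => exact absurd hm (Nat.not_lt_zero k)
    | succ m ih =>
      rw [hRs]
      cases hc : R n τ m with
      | some r => rfl
      | none =>
        rcases Nat.lt_succ_iff_lt_or_eq.1 hm with hm | rfl
        · have := ih hm; rw [hc] at this; cases this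
        · simp only [hk]; rfl
  refine ⟨fun n τ => (R n τ τ.length).map fun v => decide (v = 1), ?_, ?_, ?_⟩
  · have hPc : Computable (fun q : (ℕ × List Bool) × ℕ => P q.1.1 q.1.2 q.2) := by
      rw [hPdef]; exact evTake_computable c
    have hRc : Computable (fun q : ℕ × List Bool => R q.1 q.2 q.2.length) := by
      refine Computable.nat_rec (f := fun q : ℕ × List Bool => q.2.length)
        (g := fun _ => (none : Option ℕ))
        (h := fun (q : ℕ × List Bool) (p : ℕ × Option ℕ) =>
          (Option.casesOn p.2 (P q.1 q.2 p.1) (fun r => some r) : Option ℕ))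
        (Computable.list_length.comp Computable.snd) (Computable.const _) ?_
      refine Computable.option_casesOn
        (o := fun r : (ℕ × List Bool) × (ℕ × Option ℕ) => r.2.2)
        (f := fun r => P r.1.1 r.1.2 r.2.1) (g := fun _ r => some r) ?_ ?_ ?_
      · exact Computable.snd.comp Computable.snd
      · exact hPc.comp (Computable.pair Computable.fst (Computable.fst.comp Computable.snd))
      · exact Computable.option_some.comp Computable.snd
    refine Computable.option_map hRc ?_
    exact comp_decEq Computable.snd (Computable.const 1)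
  · intro n s b hb
    rw [Option.map_eq_some_iff] at hb
    obtain ⟨v, hv, rfl⟩ := hb
    obtain ⟨k, hk⟩ := hsound _ _ _ _ hv
    rw [hPdef] at hk
    obtain ⟨s', h1⟩ := evTake_sound hk
    have h2 := hc.1 _ _ _ h1
    rw [h2]
    cases B n <;> simp
  · intro n
    obtain ⟨s, hs⟩ := hc.2 n
    obtain ⟨k, hk⟩ := Nat.Partrec.Code.evaln_complete.1 hs
    refine ⟨max s (Nat.pair k s + 1), fun t ht => ?_⟩
    have hts : s ≤ t := le_trans (le_max_left _ _) ht
    have htk : Nat.pair k s < t := lt_of_lt_of_le (Nat.lt_succ_self _)
      (le_trans (le_max_right _ _) ht)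
    have hP : P n (pre Z t) (Nat.pair k s) = some (if B n then 1 else 0) := by
      rw [hPdef]
      simp only [evTake, Nat.unpair_pair]
      rw [pre_take Z hts]
      exact hk
    have hR := hcompl n (pre Z t) _ _ hP t htk
    obtain ⟨v, hv⟩ := Option.isSome_iff_exists.1 hR
    simp only [pre_length]
    rw [hv, Option.map_some]
    obtain ⟨k', hk'⟩ := hsound _ _ _ _ hv
    rw [hPdef] at hk'
    obtain ⟨s', h1⟩ := evTake_sound hk'
    have h2 := hc.1 _ _ _ h1
    rw [h2]
    cases B n <;> simp

/-- To Turing reducibility of characteristic functions. -/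
theorem RC.turing {B : ℕ → Bool} (h : RC Z B) : TuringReducible (chi B) (chi Z) := by
  obtain ⟨F, hF1, hF2, hF3⟩ := h
  have hG : Partrec₂ (fun (n : ℕ) (τ : List Bool) =>
      ((F n τ).map (fun b : Bool => if b then 1 else 0) : Part ℕ)) := by
    have h1 : Computable₂ (fun (n : ℕ) (τ : List Bool) =>
        (F n τ).map (fun b : Bool => if b then 1 else 0)) := by
      refine Computable.option_map hF1 ?_
      exact comp_ite (c := fun p : (ℕ × List Bool) × Bool => p.2) Computable.snd
        (Computable.const 1) (Computable.const 0)
    exact Computable.ofOption h1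
  obtain ⟨c, hc⟩ := exists_code_of_partrec₂ hG
  refine turingReducible_of_codeComputes (c := c) ⟨fun n s v hv => ?_, fun n => ?_⟩
  · rw [hc] at hv
    simp only [Part.mem_coe, Option.mem_def, Option.map_eq_some_iff] at hv
    obtain ⟨b, hb, rfl⟩ := hv
    rw [hF2 _ _ _ hb]
  · obtain ⟨s, hs⟩ := hF3 n
    refine ⟨s, ?_⟩
    rw [hc, hs s le_rfl]
    simp

theorem RC.turing_iff {B : ℕ → Bool} : TuringReducible (chi B) (chi Z) ↔ RC Z B :=
  ⟨RC.of_turing, RC.turing⟩

end Pool.Agent.H93PMU
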