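import Mathlib
import Pool.Agent.H93PMU.RC

/-!
# Predicates decidable relative to an oracle
-/

set_option autoImplicit false

namespace Pool.Agent.H93PMU

open Encodable Pool.Agent.H19 Classical

variable {α β γ σ : Type*} [Primcodable α] [Primcodable β] [Primcodable γ] [Primcodable σ]
variable {Z : ℕ → Bool}

/-- The predicate `p` is decidable relative to `Z`. -/
def RCp (Z : ℕ → Bool) (p : α → Prop) : Prop := RC Z (fun a => decide (p a))

theorem RCp.of_iff {p q : α → Prop} (h : RCp Z p) (hpq : ∀ a, p a ↔ q a) : RCp Z q := by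
  refine RC.of_eq h fun a => ?_
  simp only [hpq a]

theorem RCp.of_bool {f : α → Bool} (h : RC Z f) : RCp Z (fun a => f a = true) := by
  refine RC.of_eq h fun a => ?_
  cases hfa : f a <;> simp [hfa]

theorem RCp.comp {p : β → Prop} {f : α → β} (hp : RCp Z p) (hf : RC Z f) :
    RCp Z (fun a => p (f a)) := RC.comp (g := fun b => decide (p b)) hp hf

theorem RCp.and {p q : α → Prop} (hp : RCp Z p) (hq : RCp Z q) : RCp Z (fun a => p a ∧ q a) := by
  refine RC.of_eq (RC.and hp hq) fun a => ?_
  by_cases h1 : p a <;> by_cases h2 : q a <;> simp [h1, h2]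

theorem RCp.or {p q : α → Prop} (hp : RCp Z p) (hq : RCp Z q) : RCp Z (fun a => p a ∨ q a) := by
  refine RC.of_eq (RC.or hp hq) fun a => ?_
  by_cases h1 : p a <;> by_cases h2 : q a <;> simp [h1, h2]

theorem RCp.not {p : α → Prop} (hp : RCp Z p) : RCp Z (fun a => ¬ p a) := by
  refine RC.of_eq (RC.not hp) fun a => ?_
  by_cases h1 : p a <;> simp [h1]

theorem RCp.imp {p q : α → Prop} (hp : RCp Z p) (hq : RCp Z q) : RCp Z (fun a => p a → q a) :=
  (hp.not.or hq).of_iff fun a => by tauto

theorem RCp.iff {p q : α → Prop} (hp : RCp Z p) (hq : RCp Z q) : RCp Z (fun a => p a ↔ q a) :=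
  ((hp.imp hq).and (hq.imp hp)).of_iff fun a => by tauto

theorem RCp.const (b : Prop) : RCp Z (fun _ : α => b) := RC.const _

theorem RCp.eq {f g : α → β} (hf : RC Z f) (hg : RC Z g) : RCp Z (fun a => f a = g a) := by
  have h1 : Computable (fun p : β × β => decide (p.1 = p.2)) :=
    comp_decEq Computable.fst Computable.snd
  refine (RC.comp_computable h1 (hf.pair hg)).of_eq fun a => ?_
  simp

theorem RCp.le {f g : α → ℕ} (hf : RC Z f) (hg : RC Z g) : RCp Z (fun a => f a ≤ g a) := by
  have h1 : Computable (fun p : ℕ × ℕ => decide (p.1 ≤ p.2)) :=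
    comp_decLe Computable.fst Computable.snd
  refine (RC.comp_computable h1 (hf.pair hg)).of_eq fun a => ?_
  simp

theorem RCp.lt {f g : α → ℕ} (hf : RC Z f) (hg : RC Z g) : RCp Z (fun a => f a < g a) := by
  have h1 : Computable (fun p : ℕ × ℕ => decide (p.1 < p.2)) :=
    comp_decLt Computable.fst Computable.snd
  refine (RC.comp_computable h1 (hf.pair hg)).of_eq fun a => ?_
  simp

theorem RCp.all {f : α → List β} {p : α → β → Prop} (hf : RC Z f)
    (hp : RCp Z (fun q : α × β => p q.1 q.2)) : RCp Z (fun a => ∀ b ∈ f a, p a b) := by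
  have h := RC.list_all (g := fun a b => decide (p a b)) hf hp
  refine RC.of_eq h fun a => ?_
  rw [Bool.eq_iff_iff]
  simp

theorem RCp.ex {f : α → List β} {p : α → β → Prop} (hf : RC Z f)
    (hp : RCp Z (fun q : α × β => p q.1 q.2)) : RCp Z (fun a => ∃ b ∈ f a, p a b) := by
  have h := RC.list_any (g := fun a b => decide (p a b)) hf hp
  refine RC.of_eq h fun a => ?_
  rw [Bool.eq_iff_iff]
  simp

theorem RCp.all_lt {f : α → ℕ} {p : α → ℕ → Prop} (hf : RC Z f)
    (hp : RCp Z (fun q : α × ℕ => p q.1 q.2)) : RCp Z (fun a => ∀ b < f a, p a b) := by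
  refine (RCp.all (f := fun a => List.range (f a)) (p := p)
    (RC.comp_computable (comp_range Computable.id) hf) hp).of_iff fun a => ?_
  simp

theorem RCp.ex_lt {f : α → ℕ} {p : α → ℕ → Prop} (hf : RC Z f)
    (hp : RCp Z (fun q : α × ℕ => p q.1 q.2)) : RCp Z (fun a => ∃ b < f a, p a b) := by
  refine (RCp.ex (f := fun a => List.range (f a)) (p := p)
    (RC.comp_computable (comp_range Computable.id) hf) hp).of_iff fun a => ?_
  simp

theorem RCp.mem {f : α → β} {g : α → List β} (hf : RC Z f) (hg : RC Z g) :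
    RCp Z (fun a => f a ∈ g a) := by
  refine (RCp.ex (f := g) (p := fun a b => f a = b) hg
    (RCp.eq (hf.comp RC.fst) RC.snd)).of_iff fun a => ?_
  simp

theorem RC.ite_prop {c : α → Prop} {f g : α → β} (hc : RCp Z c) (hf : RC Z f) (hg : RC Z g) :
    RC Z (fun a => if c a then f a else g a) := by
  refine (RC.ite (c := fun a => decide (c a)) hc hf hg).of_eq fun a => ?_
  by_cases h : c a <;> simp [h]

theorem RC.filter_prop {f : α → List β} {p : α → β → Prop} (hf : RC Z f)
    (hp : RCp Z (fun q : α × β => p q.1 q.2)) :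
    RC Z (fun a => (f a).filter (fun b => decide (p a b))) :=
  RC.list_filter (g := fun a b => decide (p a b)) hf hp

/-- Unbounded search for a natural number. -/
theorem RC.find_prop {p : α → ℕ → Prop} (hp : RCp Z (fun q : α × ℕ => p q.1 q.2))
    (hex : ∀ a, ∃ n, p a n) : ∃ g : α → ℕ, RC Z g ∧ ∀ a, p a (g a) := by
  have hex' : ∀ a, ∃ n, decide (p a n) = true := fun a => by
    obtain ⟨n, hn⟩ := hex a
    exact ⟨n, by simpa using hn⟩
  refine ⟨fun a => Nat.find (hex' a), RC.find (p := fun a n => decide (p a n)) hp hex',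
    fun a => ?_⟩
  have := Nat.find_spec (hex' a)
  simpa using this

/-- Unbounded search for an element of a coded type. -/
theorem RC.find_coded [Inhabited β] {p : α → β → Prop}
    (hp : RCp Z (fun q : α × β => p q.1 q.2))
    (hex : ∀ a, ∃ b, p a b) : ∃ g : α → β, RC Z g ∧ ∀ a, p a (g a) := by
  have hdec : Computable (fun n : ℕ => (decode (α := β) n).getD default) :=
    Computable.option_getD Computable.decode (Computable.const default)
  obtain ⟨g, hg1, hg2⟩ := RC.find_prop (Z := Z)
    (p := fun a n => p a ((decode (α := β) n).getD default))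
    (hp.comp (RC.pair RC.fst (RC.comp_computable hdec RC.snd)))
    (fun a => by
      obtain ⟨b, hb⟩ := hex a
      exact ⟨encode b, by simpa using hb⟩)
  exact ⟨fun a => (decode (α := β) (g a)).getD default, RC.comp_computable hdec hg1, hg2⟩

/-- Composition of oracles: what is computable in `W` is computable in `Z` if `W` is. -/
theorem RC.trans_oracle {W : ℕ → Bool} {f : α → β} (hf : RC W f) (hW : RC Z W) : RC Z f := by
  obtain ⟨F, hF1, hF2, hF3⟩ := hf
  -- the prefix of `W` of a given length is computable in `Z`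
  have hpre : RC Z (fun n : ℕ => pre W n) := by
    refine (RC.list_map (f := fun n : ℕ => List.range n) (g := fun (_ : ℕ) (i : ℕ) => W i)
      (RC.comp_computable (comp_range Computable.id) RC.id) (hW.comp RC.snd)).of_eq fun n => rfl
  have hsearch : RCp Z (fun q : α × ℕ => (F q.1 (pre W q.2)).isSome = true) := by
    refine RCp.of_bool ?_
    refine RC.comp_computable (g := fun o : Option β => o.isSome)
      Primrec.option_isSome.to_comp ?_
    exact RC.comp_computable₂ hF1 RC.fst (hpre.comp RC.snd)
  obtain ⟨g, hg1, hg2⟩ := RC.find_prop (Z := Z)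
    (p := fun (a : α) (s : ℕ) => (F a (pre W s)).isSome = true) hsearch (fun a => by
      obtain ⟨s, hs⟩ := hF3 a
      exact ⟨s, by simp [hs s le_rfl]⟩)
  have hval : RC Z (fun a => F a (pre W (g a))) :=
    RC.comp_computable₂ hF1 RC.id (hpre.comp hg1)
  have hval' : (fun a => F a (pre W (g a))) = fun a => some (f a) := by
    funext a
    obtain ⟨b, hb⟩ := Option.isSome_iff_exists.1 (hg2 a)
    rw [hb, hF2 _ _ _ hb]
  rw [hval'] at hval
  -- strip the `some`
  obtain ⟨G, hG1, hG2, hG3⟩ := hval
  refine ⟨fun a τ => (G a τ).bind _root_.id, ?_, ?_, ?_⟩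
  · exact Computable.option_bind hG1 Computable.snd
  · intro a s b hb
    rw [Option.bind_eq_some_iff] at hb
    obtain ⟨o, ho, hob⟩ := hb
    simp only [_root_.id] at hob
    subst hob
    have := hG2 _ _ _ ho
    simpa using this
  · intro a
    obtain ⟨s, hs⟩ := hG3 a
    exact ⟨s, fun t ht => by simp [hs t ht]⟩

end Pool.Agent.H93PMU
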