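import Mathlib
import Pool.Agent.H93PMU.Basic
import Pool.Agent.H93PMU.Extend
import Pool.Agent.H93PMU.Pred

/-!
# Goedel numbers: free variables and bounds
-/

set_option autoImplicit false

namespace Pool.Agent.H93PMU

open Encodable Pool.Agent.H19

theorem right_lt_pair {t q : ℕ} (ht : 1 ≤ t) : q < Nat.pair t q := by
  unfold Nat.pair
  split_ifs with h
  · nlinarith
  · nlinarith

theorem unpair_snd_lt {n : ℕ} (h : 1 ≤ n.unpair.1) : n.unpair.2 < n := by
  conv_rhs => rw [← Nat.pair_unpair n]
  exact right_lt_pair h

theorem unpair_fst_le (n : ℕ) : n.unpair.1 ≤ n := Nat.unpair_left_le n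

theorem unpair_snd_le (n : ℕ) : n.unpair.2 ≤ n := Nat.unpair_right_le n

/-- The list of free variables of the formula with code `n`, if `n` is the code of a formula. -/
def info (n : ℕ) : Option (List ℕ) :=
  if n.unpair.1 = 0 then some [n.unpair.2.unpair.1, n.unpair.2.unpair.2]
  else if n.unpair.1 = 1 then decode (α := List ℕ) n.unpair.2.unpair.2
  else if h2 : n.unpair.1 = 2 then info n.unpair.2
  else if h3 : n.unpair.1 = 3 then
    (info n.unpair.2.unpair.1).bind fun L => (info n.unpair.2.unpair.2).map fun L' => L ++ L'
  else if h4 : n.unpair.1 = 4 then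
    (info n.unpair.2.unpair.2).map fun L => L.filter fun i => decide (i ≠ n.unpair.2.unpair.1)
  else none
termination_by n
decreasing_by
  all_goals first
    | exact unpair_snd_lt (by omega)
    | exact lt_of_le_of_lt (unpair_snd_le _) (unpair_snd_lt (by omega))
    | exact lt_of_le_of_lt (unpair_fst_le _) (unpair_snd_lt (by omega))

/-- One step of the computation of `info`. -/
def infoStep (prev : List (Option (List ℕ))) : Option (List ℕ) :=
  let n := prev.length
  if n.unpair.1 = 0 then some [n.unpair.2.unpair.1, n.unpair.2.unpair.2]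
  else if n.unpair.1 = 1 then decode (α := List ℕ) n.unpair.2.unpair.2
  else if n.unpair.1 = 2 then (prev[n.unpair.2]?).getD none
  else if n.unpair.1 = 3 then
    ((prev[n.unpair.2.unpair.1]?).getD none).bind fun L =>
      ((prev[n.unpair.2.unpair.2]?).getD none).map fun L' => L ++ L'
  else if n.unpair.1 = 4 then
    ((prev[n.unpair.2.unpair.2]?).getD none).map fun L =>
      L.filter fun i => decide (i ≠ n.unpair.2.unpair.1)
  else none

theorem infoStep_eq (n : ℕ) : infoStep ((List.range n).map info) = info n := by
  have hget : ∀ m, m < n → (((List.range n).map info)[m]?).getD none = info m := by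
    intro m hm
    simp [hm]
  unfold infoStep
  simp only [List.length_map, List.length_range]
  rw [info]
  split_ifs with h0 h1 h2 h3 h4
  · rfl
  · rfl
  · exact hget _ (unpair_snd_lt (by omega))
  · rw [hget _ (lt_of_le_of_lt (unpair_fst_le _) (unpair_snd_lt (by omega))),
      hget _ (lt_of_le_of_lt (unpair_snd_le _) (unpair_snd_lt (by omega)))]
  · rw [hget _ (lt_of_le_of_lt (unpair_snd_le _) (unpair_snd_lt (by omega)))]
  · rfl

theorem infoStep_computable : Computable infoStep := by
  have hn : Computable (fun prev : List (Option (List ℕ)) => prev.length) :=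
    Computable.list_length
  have ht : Computable (fun prev : List (Option (List ℕ)) => prev.length.unpair.1) :=
    Computable.fst.comp (Computable.unpair.comp hn)
  have hq : Computable (fun prev : List (Option (List ℕ)) => prev.length.unpair.2) :=
    Computable.snd.comp (Computable.unpair.comp hn)
  have hq1 : Computable (fun prev : List (Option (List ℕ)) => prev.length.unpair.2.unpair.1) :=
    Computable.fst.comp (Computable.unpair.comp hq)
  have hq2 : Computable (fun prev : List (Option (List ℕ)) => prev.length.unpair.2.unpair.2) :=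
    Computable.snd.comp (Computable.unpair.comp hq)
  have hg : ∀ {f : List (Option (List ℕ)) → ℕ}, Computable f →
      Computable (fun prev : List (Option (List ℕ)) => (prev[f prev]?).getD none) := by
    intro f hf
    exact Computable.option_getD (Computable.list_getElem?.comp Computable.id hf)
      (Computable.const none)
  have htest : ∀ k : ℕ, Computable (fun prev : List (Option (List ℕ)) =>
      decide (prev.length.unpair.1 = k)) := fun k => comp_decEq ht (Computable.const k)
  have h := comp_ite (htest 0) (f := fun prev : List (Option (List ℕ)) =>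
      (some [prev.length.unpair.2.unpair.1, prev.length.unpair.2.unpair.2] : Option (List ℕ)))
    (Computable.option_some.comp (Computable.list_cons.comp hq1
      (Computable.list_cons.comp hq2 (Computable.const []))))
    (comp_ite (htest 1) (f := fun prev : List (Option (List ℕ)) =>
        decode (α := List ℕ) prev.length.unpair.2.unpair.2)
      (Computable.decode.comp hq2)
      (comp_ite (htest 2) (hg hq)
        (comp_ite (htest 3) (f := fun prev : List (Option (List ℕ)) =>
            ((prev[prev.length.unpair.2.unpair.1]?).getD none).bind fun L =>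
            ((prev[prev.length.unpair.2.unpair.2]?).getD none).map fun L' => L ++ L')
          (by
            refine Computable.option_bind (hg hq1) ?_
            refine Computable.option_map ((hg hq2).comp Computable.fst) ?_
            exact Computable.list_append.comp (Computable.snd.comp Computable.fst)
              Computable.snd)
          (comp_ite (htest 4) (f := fun prev : List (Option (List ℕ)) =>
              ((prev[prev.length.unpair.2.unpair.2]?).getD none).map fun L =>
                L.filter fun i => decide (i ≠ prev.length.unpair.2.unpair.1))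
            (by
              refine Computable.option_map (hg hq2) ?_
              refine comp_list_filter (f := fun p : List (Option (List ℕ)) × List ℕ => p.2)
                (g := fun p i => decide (i ≠ p.1.length.unpair.2.unpair.1)) Computable.snd ?_
              refine (comp_not (comp_decEq (f := fun p : (List (Option (List ℕ)) × List ℕ) × ℕ =>
                p.2) (g := fun p => p.1.1.length.unpair.2.unpair.1) Computable.snd
                (hq1.comp (Computable.fst.comp Computable.fst)))).of_eq fun p => ?_
              simp)
            (Computable.const none)))))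
  refine h.of_eq fun prev => ?_
  simp only [infoStep, decide_eq_true_eq]

theorem info_computable : Computable info := by
  have h := Computable.nat_strong_rec (fun (_ : Unit) (n : ℕ) => info n)
    (g := fun _ prev => some (infoStep prev))
    (Computable.option_some.comp (infoStep_computable.comp Computable.snd))
    (fun _ n => by rw [infoStep_eq])
  exact h.comp (Computable.const ()) Computable.id

theorem info_code (φ : Fml) : ∃ L, info φ.code = some L ∧ ∀ i, i ∈ L ↔ i ∈ φ.fv := by
  induction φ with
  | eq i j =>
    refine ⟨[i, j], ?_, ?_⟩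
    · rw [info]; simp [Fml.code]
    · intro k; simp [Fml.fv]
  | rel r vs =>
    refine ⟨vs, ?_, ?_⟩
    · rw [info]; simp [Fml.code]
    · intro k; simp [Fml.fv]
  | neg φ ih =>
    obtain ⟨L, h1, h2⟩ := ih
    refine ⟨L, ?_, ?_⟩
    · rw [info]; simp [Fml.code, h1]
    · intro k; simp [Fml.fv, h2]
  | and φ ψ ih1 ih2 =>
    obtain ⟨L, h1, h2⟩ := ih1
    obtain ⟨L', h3, h4⟩ := ih2
    refine ⟨L ++ L', ?_, ?_⟩
    · rw [info]; simp [Fml.code, h1, h3]
    · intro k; simp [Fml.fv, h2, h4]
  | ex i φ ih =>
    obtain ⟨L, h1, h2⟩ := ih
    refine ⟨L.filter (fun j => decide (j ≠ i)), ?_, ?_⟩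
    · rw [info]; simp [Fml.code, h1]
    · intro k
      simp only [List.mem_filter, h2, Fml.fv, Finset.mem_erase, decide_eq_true_eq]
      tauto

theorem code_of_info : ∀ (n : ℕ) (L : List ℕ), info n = some L → ∃ φ : Fml, n = φ.code := by
  intro n
  induction n using Nat.strong_induction_on with
  | _ n ih =>
    intro L hL
    rw [info] at hL
    split_ifs at hL with h0 h1 h2 h3 h4
    · refine ⟨.eq n.unpair.2.unpair.1 n.unpair.2.unpair.2, ?_⟩
      simp only [Fml.code, Nat.pair_unpair]
      rw [← h0, Nat.pair_unpair]
    · refine ⟨.rel n.unpair.2.unpair.1 L, ?_⟩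
      have h5 : encode L = n.unpair.2.unpair.2 := by
        rw [Denumerable.decode_eq_ofNat] at hL
        rw [← Option.some.inj hL, Denumerable.encode_ofNat]
      simp only [Fml.code]
      rw [h5, Nat.pair_unpair, ← h1, Nat.pair_unpair]
    · obtain ⟨φ, hφ⟩ := ih _ (unpair_snd_lt (by omega)) L hL
      refine ⟨.neg φ, ?_⟩
      simp only [Fml.code]
      rw [← hφ, ← h2, Nat.pair_unpair]
    · rw [Option.bind_eq_some_iff] at hL
      obtain ⟨L1, hL1, hL2⟩ := hL
      rw [Option.map_eq_some_iff] at hL2
      obtain ⟨L2, hL2, _⟩ := hL2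
      obtain ⟨φ, hφ⟩ := ih _ (lt_of_le_of_lt (unpair_fst_le _) (unpair_snd_lt (by omega))) L1 hL1
      obtain ⟨ψ, hψ⟩ := ih _ (lt_of_le_of_lt (unpair_snd_le _) (unpair_snd_lt (by omega))) L2 hL2
      refine ⟨.and φ ψ, ?_⟩
      simp only [Fml.code]
      rw [← hφ, ← hψ, Nat.pair_unpair, ← h3, Nat.pair_unpair]
    · rw [Option.map_eq_some_iff] at hL
      obtain ⟨L1, hL1, _⟩ := hL
      obtain ⟨φ, hφ⟩ := ih _ (lt_of_le_of_lt (unpair_snd_le _) (unpair_snd_lt (by omega))) L1 hL1
      refine ⟨.ex n.unpair.2.unpair.1 φ, ?_⟩
      simp only [Fml.code]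
      rw [← hφ, Nat.pair_unpair, ← h4, Nat.pair_unpair]

/-- A strict bound for all variables (free and bound) of a formula. -/
def Fml.vb : Fml → ℕ
  | .eq i j => max i j + 1
  | .rel _ vs => encode vs + 1
  | .neg φ => φ.vb
  | .and φ ψ => max φ.vb ψ.vb
  | .ex i φ => max (i + 1) φ.vb

theorem le_encode_list {vs : List ℕ} : ∀ i ∈ vs, i ≤ encode vs := by
  induction vs with
  | nil => intro i hi; simp at hi
  | cons a l ih =>
    intro i hi
    rw [Encodable.encode_list_cons]
    simp only [Encodable.encode_nat]
    rcases List.mem_cons.1 hi with rfl | hi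
    · exact le_trans (Nat.left_le_pair _ _) (Nat.le_succ _)
    · exact le_trans (ih i hi) (le_trans (Nat.right_le_pair _ _) (Nat.le_succ _))

theorem fv_lt_vb (φ : Fml) : ∀ i ∈ φ.fv, i < φ.vb := by
  induction φ with
  | eq i j => intro k hk; simp [Fml.fv] at hk; simp [Fml.vb]; omega
  | rel r vs =>
    intro k hk
    simp only [Fml.fv, List.mem_toFinset] at hk
    exact Nat.lt_succ_of_le (le_encode_list k hk)
  | neg φ ih => exact ih
  | and φ ψ ih1 ih2 =>
    intro k hk
    simp only [Fml.fv, Finset.mem_union] at hk
    simp only [Fml.vb]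
    rcases hk with hk | hk
    · exact lt_of_lt_of_le (ih1 k hk) (le_max_left _ _)
    · exact lt_of_lt_of_le (ih2 k hk) (le_max_right _ _)
  | ex i φ ih =>
    intro k hk
    simp only [Fml.fv, Finset.mem_erase] at hk
    exact lt_of_lt_of_le (ih k hk.2) (le_max_right _ _)

theorem vb_le_code (φ : Fml) : φ.vb ≤ φ.code + 1 := by
  induction φ with
  | eq i j =>
    simp only [Fml.vb, Fml.code]
    have h1 := Nat.left_le_pair i j
    have h2 := Nat.right_le_pair i j
    have h3 := Nat.right_le_pair 0 (Nat.pair i j)
    omega
  | rel r vs =>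
    simp only [Fml.vb, Fml.code]
    have h1 := Nat.right_le_pair r (encode vs)
    have h2 := Nat.right_le_pair 1 (Nat.pair r (encode vs))
    omega
  | neg φ ih =>
    simp only [Fml.vb, Fml.code]
    have h1 := Nat.right_le_pair 2 φ.code
    omega
  | and φ ψ ih1 ih2 =>
    simp only [Fml.vb, Fml.code]
    have h1 := Nat.left_le_pair φ.code ψ.code
    have h2 := Nat.right_le_pair φ.code ψ.code
    have h3 := Nat.right_le_pair 3 (Nat.pair φ.code ψ.code)
    omega
  | ex i φ ih =>
    simp only [Fml.vb, Fml.code]
    have h1 := Nat.left_le_pair i φ.code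
    have h2 := Nat.right_le_pair i φ.code
    have h3 := Nat.right_le_pair 4 (Nat.pair i φ.code)
    omega

theorem bnd_le_code (φ : Fml) : φ.bnd ≤ φ.code + 1 := by
  induction φ with
  | eq i j => simp [Fml.bnd]
  | rel r vs =>
    simp only [Fml.bnd, Fml.code]
    have h1 := Nat.left_le_pair r (encode vs)
    have h2 := Nat.right_le_pair 1 (Nat.pair r (encode vs))
    omega
  | neg φ ih =>
    simp only [Fml.bnd, Fml.code]
    have h1 := Nat.right_le_pair 2 φ.code
    omega
  | and φ ψ ih1 ih2 =>
    simp only [Fml.bnd, Fml.code]
    have h1 := Nat.left_le_pair φ.code ψ.code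
    have h2 := Nat.right_le_pair φ.code ψ.code
    have h3 := Nat.right_le_pair 3 (Nat.pair φ.code ψ.code)
    omega
  | ex i φ ih =>
    simp only [Fml.bnd, Fml.code]
    have h2 := Nat.right_le_pair i φ.code
    have h3 := Nat.right_le_pair 4 (Nat.pair i φ.code)
    omega

end Pool.Agent.H93PMU
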