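import Mathlib
import Pool.Agent.H93PMU.Extend

/-!
# The axioms are first-order: they transfer along elementary equivalence
-/

set_option autoImplicit false
set_option linter.unusedSimpArgs false
set_option linter.flexible false

namespace Pool.Agent.H93PMU

variable {sp : ℕ → ℕ → Prop}

theorem models_iff_lists {A : Str} {φ : Fml} {k : ℕ} (hk : ∀ i ∈ φ.fv, i < k) :
    Models A φ ↔ ∀ l : List ℕ, l.length = k → (∀ a ∈ l, a ∈ A.dom) →
      Sat A φ (fun i => l.getD i 0) := by
  obtain ⟨d, hd⟩ := A.nonempty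
  constructor
  · intro h l hl hla
    refine (sat_congr A φ fun i hi => ?_).1 (h (asg l d) (asg_mem hla hd))
    have : i < l.length := by rw [hl]; exact hk i hi
    simp only [asg]
    rw [List.getD_eq_getElem _ _ this, List.getD_eq_getElem _ _ this]
  · intro h v hv
    refine (sat_congr A φ fun i hi => ?_).1 (h ((List.range k).map v) (by simp) ?_)
    · have : i < ((List.range k).map v).length := by simpa using hk i hi
      rw [List.getD_eq_getElem _ _ this]
      simp
    · intro a ha
      obtain ⟨i, _, rfl⟩ := List.mem_map.1 ha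
      exact hv i

theorem ElemEquiv.lists {A M : Str} (h : ElemEquiv A M) (φ : Fml) (k : ℕ)
    (hk : ∀ i ∈ φ.fv, i < k)
    (hA : ∀ l : List ℕ, l.length = k → (∀ a ∈ l, a ∈ A.dom) → Sat A φ (fun i => l.getD i 0)) :
    ∀ l : List ℕ, l.length = k → (∀ a ∈ l, a ∈ M.dom) → Sat M φ (fun i => l.getD i 0) :=
  (models_iff_lists hk).1 ((h.models φ).1 ((models_iff_lists hk).2 hA))

/-- Formulas for the relations. -/
def fP (n i : ℕ) : Fml := .rel (Nat.pair 0 n) [i]

/-- Formulas for the relations. -/
def fC (n i j l : ℕ) : Fml := .rel (Nat.pair 1 n) [i, j, l]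

/-- Formulas for the relations. -/
def fR (n s i j : ℕ) : Fml := .rel (Nat.pair 2 (Nat.pair n s)) [i, j]

@[simp] theorem sat_fP {A : Str} {n i : ℕ} {v : ℕ → ℕ} : Sat A (fP n i) v ↔ P A n (v i) := Iff.rfl

@[simp] theorem sat_fC {A : Str} {n i j l : ℕ} {v : ℕ → ℕ} :
    Sat A (fC n i j l) v ↔ C A n (v i) (v j) (v l) := Iff.rfl

@[simp] theorem sat_fR {A : Str} {n s i j : ℕ} {v : ℕ → ℕ} :
    Sat A (fR n s i j) v ↔ R A n s (v i) (v j) := Iff.rfl

/-- One-variable transfer. -/
theorem ElemEquiv.l0 {A M : Str} (h : ElemEquiv A M) (φ : Fml) (hk : ∀ i ∈ φ.fv, i < 0)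
    (hA : Sat A φ (fun _ => 0)) : Sat M φ (fun _ => 0) := by
  have := h.lists φ 0 hk (fun l hl _ => by
    have : l = [] := List.length_eq_zero_iff.1 hl
    subst this
    simpa using hA) [] rfl (by simp)
  simpa using this

theorem ElemEquiv.l1 {A M : Str} (h : ElemEquiv A M) (φ : Fml) (hk : ∀ i ∈ φ.fv, i < 1)
    (hA : ∀ a ∈ A.dom, Sat A φ (fun i => [a].getD i 0)) :
    ∀ a ∈ M.dom, Sat M φ (fun i => [a].getD i 0) := by
  intro a ha
  refine h.lists φ 1 hk (fun l hl hla => ?_) [a] rfl (by simpa using ha)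
  match l, hl with
  | [a], _ => exact hA a (hla a (by simp))

theorem ElemEquiv.l2 {A M : Str} (h : ElemEquiv A M) (φ : Fml) (hk : ∀ i ∈ φ.fv, i < 2)
    (hA : ∀ a ∈ A.dom, ∀ b ∈ A.dom, Sat A φ (fun i => [a, b].getD i 0)) :
    ∀ a ∈ M.dom, ∀ b ∈ M.dom, Sat M φ (fun i => [a, b].getD i 0) := by
  intro a ha b hb
  refine h.lists φ 2 hk (fun l hl hla => ?_) [a, b] rfl (by simp [ha, hb])
  match l, hl with
  | [a, b], _ => exact hA a (hla a (by simp)) b (hla b (by simp))

theorem ElemEquiv.l3 {A M : Str} (h : ElemEquiv A M) (φ : Fml) (hk : ∀ i ∈ φ.fv, i < 3)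
    (hA : ∀ a ∈ A.dom, ∀ b ∈ A.dom, ∀ c ∈ A.dom, Sat A φ (fun i => [a, b, c].getD i 0)) :
    ∀ a ∈ M.dom, ∀ b ∈ M.dom, ∀ c ∈ M.dom, Sat M φ (fun i => [a, b, c].getD i 0) := by
  intro a ha b hb c hc
  refine h.lists φ 3 hk (fun l hl hla => ?_) [a, b, c] rfl (by simp [ha, hb, hc])
  match l, hl with
  | [a, b, c], _ => exact hA a (hla a (by simp)) b (hla b (by simp)) c (hla c (by simp))

theorem ElemEquiv.l4 {A M : Str} (h : ElemEquiv A M) (φ : Fml) (hk : ∀ i ∈ φ.fv, i < 4)
    (hA : ∀ a ∈ A.dom, ∀ b ∈ A.dom, ∀ c ∈ A.dom, ∀ d ∈ A.dom,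
      Sat A φ (fun i => [a, b, c, d].getD i 0)) :
    ∀ a ∈ M.dom, ∀ b ∈ M.dom, ∀ c ∈ M.dom, ∀ d ∈ M.dom,
      Sat M φ (fun i => [a, b, c, d].getD i 0) := by
  intro a ha b hb c hc d hd
  refine h.lists φ 4 hk (fun l hl hla => ?_) [a, b, c, d] rfl (by simp [ha, hb, hc, hd])
  match l, hl with
  | [a, b, c, d], _ =>
    exact hA a (hla a (by simp)) b (hla b (by simp)) c (hla c (by simp)) d (hla d (by simp))

theorem Good.transfer {A M : Str} (hA : Good sp A) (h : ElemEquiv A M) : Good sp M where
  disj := by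
    intro n m a ha h1 h2
    by_contra hnm
    have := h.l1 (.neg (.and (fP n 0) (fP m 0))) (by simp [Fml.fv, fP, fC, fR, Fml.imp, Fml.or] <;> (intros; omega)) (by
      intro a ha
      simp only [sat_neg, sat_and, sat_fP, List.getD_cons_zero, not_and]
      intro h1 h2
      exact hnm (hA.disj n m a ha h1 h2)) a ha
    simp only [sat_neg, sat_and, sat_fP, List.getD_cons_zero, not_and] at this
    exact this h1 h2
  ne := by
    intro n
    have := h.l0 (.ex 0 (fP n 0)) (by simp [Fml.fv, fP, fC, fR, Fml.imp, Fml.or] <;> (intros; omega)) (by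
      obtain ⟨a, ha, h1⟩ := hA.ne n
      exact ⟨a, ha, by simpa using h1⟩)
    obtain ⟨a, ha, h1⟩ := this
    exact ⟨a, ha, by simpa using h1⟩
  two := by
    intro n
    have := h.l1 (.imp (fP n 0) (.ex 1 (.and (fP n 1) (.neg (.eq 1 0)))))
      (by simp [Fml.fv, fP, fC, fR, Fml.imp, Fml.or] <;> (intros; omega)) (by
        intro x hx
        simp only [sat_imp, sat_ex, sat_and, sat_fP, sat_neg, sat_eq]
        intro h1
        obtain ⟨a, ha, h2, h3⟩ := hA.two n x hx (by simpa using h1)
        exact ⟨a, ha, by simpa using h2, by simpa using h3⟩)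
    intro x hx h1
    have h9 := this x hx
    simp at h9
    exact h9 h1
  cP := by
    intro n a ha b hb c hc h1
    have := h.l3 (.imp (fC n 0 1 2) (.and (fP n 0) (.and (fP n 1) (.and (fP n 2)
      (.and (.neg (.eq 0 1)) (.and (.neg (.eq 1 2)) (.neg (.eq 0 2))))))))
      (by simp [Fml.fv, fP, fC, fR, Fml.imp, Fml.or] <;> (intros; omega)) (by
        intro a ha b hb c hc
        have := hA.cP n a ha b hb c hc
        simpa using this) a ha b hb c hc
    simp at this
    exact this h1
  cyc := by
    intro n a ha b hb c hc h1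
    have := h.l3 (.imp (fC n 0 1 2) (fC n 1 2 0))
      (by simp [Fml.fv, fP, fC, fR, Fml.imp, Fml.or] <;> (intros; omega)) (by
        intro a ha b hb c hc
        have := hA.cyc n a ha b hb c hc
        simpa using this) a ha b hb c hc
    simp at this
    exact this h1
  trans := by
    intro n a ha b hb c hc d hd h1 h2
    have := h.l4 (.imp (fC n 0 1 2) (.imp (fC n 0 2 3) (fC n 0 1 3)))
      (by simp [Fml.fv, fP, fC, fR, Fml.imp, Fml.or] <;> (intros; omega)) (by
        intro a ha b hb c hc d hd
        have := hA.trans n a ha b hb c hc d hd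
        simpa using this) a ha b hb c hc d hd
    simp at this
    exact this h1 h2
  total := by
    intro n a ha b hb c hc h1 h2 h3 h4 h5 h6
    have := h.l3 (.imp (fP n 0) (.imp (fP n 1) (.imp (fP n 2) (.imp (.neg (.eq 0 1))
      (.imp (.neg (.eq 0 2)) (.imp (.neg (.eq 1 2)) (.or (fC n 0 1 2) (fC n 0 2 1))))))))
      (by simp [Fml.fv, fP, fC, fR, Fml.imp, Fml.or] <;> (intros; omega)) (by
        intro a ha b hb c hc
        have := hA.total n a ha b hb c hc
        simpa using this) a ha b hb c hc
    simp at this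
    exact this h1 h2 h3 h4 h5 h6
  asym := by
    intro n a ha b hb c hc h1 h2
    have := h.l3 (.imp (fC n 0 1 2) (.neg (fC n 0 2 1)))
      (by simp [Fml.fv, fP, fC, fR, Fml.imp, Fml.or] <;> (intros; omega)) (by
        intro a ha b hb c hc
        have := hA.asym n a ha b hb c hc
        simpa using this) a ha b hb c hc
    simp at this
    exact this h1 h2
  dense := by
    intro n a ha b hb c hc h1
    have := h.l3 (.imp (fC n 0 1 2) (.ex 3 (.and (fC n 0 1 3) (fC n 0 3 2))))
      (by simp [Fml.fv, fP, fC, fR, Fml.imp, Fml.or] <;> (intros; omega)) (by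
        intro a ha b hb c hc
        have := hA.dense n a ha b hb c hc
        simpa using this) a ha b hb c hc
    simp at this
    exact this h1
  up := by
    intro n a ha b hb h1 h2 h3
    have := h.l2 (.imp (fP n 0) (.imp (fP n 1) (.imp (.neg (.eq 0 1)) (.ex 2 (fC n 0 1 2)))))
      (by simp [Fml.fv, fP, fC, fR, Fml.imp, Fml.or] <;> (intros; omega)) (by
        intro a ha b hb
        have := hA.up n a ha b hb
        simpa using this) a ha b hb
    simp at this
    exact this h1 h2 h3
  down := by
    intro n a ha b hb h1 h2 h3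
    have := h.l2 (.imp (fP n 0) (.imp (fP n 1) (.imp (.neg (.eq 0 1)) (.ex 2 (fC n 0 2 1)))))
      (by simp [Fml.fv, fP, fC, fR, Fml.imp, Fml.or] <;> (intros; omega)) (by
        intro a ha b hb
        have := hA.down n a ha b hb
        simpa using this) a ha b hb
    simp at this
    exact this h1 h2 h3
  base := by
    intro n a ha b hb c hc d hd h1 h2 h3 h4 h5 h6 h7
    let ψ : Fml := .or (.and (fC n 0 1 2) (fC n 0 2 3)) (.or (.and (fC n 0 2 3) (fC n 0 3 1))
      (.and (fC n 0 3 1) (fC n 0 1 2)))
    have := h.l4 (.imp (fP n 0) (.imp (fP n 1) (.imp (fP n 2) (.imp (fP n 3)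
      (.imp (.neg (.eq 0 1)) (.imp (.neg (.eq 0 2)) (.imp (.neg (.eq 0 3))
      (.and (.imp (fC n 1 2 3) ψ) (.imp ψ (fC n 1 2 3))))))))))
      (by simp [ψ, Fml.fv, fP, fC, fR, Fml.imp, Fml.or] <;> (intros; omega)) (by
        intro a ha b hb c hc d hd
        have := hA.base n a ha b hb c hc d hd
        simp only [sat_imp, sat_and, sat_or, sat_neg, sat_eq, sat_fP, sat_fC, ψ]
        intro h1 h2 h3 h4 h5 h6 h7
        have h8 := this h1 h2 h3 h4 h5 h6 h7
        exact ⟨h8.1, h8.2⟩) a ha b hb c hc d hd
    simp only [sat_imp, sat_and, sat_or, sat_neg, sat_eq, sat_fP, sat_fC, ψ] at this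
    have h8 := this h1 h2 h3 h4 h5 h6 h7
    exact ⟨h8.1, h8.2⟩
  rP := by
    intro n s a ha b hb h1
    by_cases hs : sp n s
    · have := h.l2 (.imp (fR n s 0 1) (.and (fP n 0) (fP n 1)))
        (by simp [Fml.fv, fP, fC, fR, Fml.imp, Fml.or] <;> (intros; omega)) (by
          intro a ha b hb
          have := hA.rP n s a ha b hb
          simp only [sat_imp, sat_fR, sat_and, sat_fP]
          exact fun h1 => (this h1).2) a ha b hb
      simp at this
      exact ⟨hs, this h1⟩
    · exfalso
      have := h.l2 (.neg (fR n s 0 1))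
        (by simp [Fml.fv, fP, fC, fR, Fml.imp, Fml.or] <;> (intros; omega)) (by
          intro a ha b hb
          have := hA.rP n s a ha b hb
          simp only [sat_neg, sat_fR]
          exact fun h1 => hs (this h1).1) a ha b hb
      exact (by simpa using this : ¬ R M n s a b) h1
  rtrans := by
    intro n s a ha b hb c hc h1 h2
    have := h.l3 (.imp (fR n s 0 1) (.imp (fR n s 1 2) (fR n s 0 2)))
      (by simp [Fml.fv, fP, fC, fR, Fml.imp, Fml.or] <;> (intros; omega)) (by
        intro a ha b hb c hc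
        have := hA.rtrans n s a ha b hb c hc
        simpa using this) a ha b hb c hc
    simp at this
    exact this h1 h2
  rasym := by
    intro n s a ha b hb h1 h2
    have := h.l2 (.imp (fR n s 0 1) (.neg (fR n s 1 0)))
      (by simp [Fml.fv, fP, fC, fR, Fml.imp, Fml.or] <;> (intros; omega)) (by
        intro a ha b hb
        have := hA.rasym n s a ha b hb
        simpa using this) a ha b hb
    simp at this
    exact this h1 h2
  rtotal := by
    intro n s hs a ha b hb h1 h2 h3
    have := h.l2 (.imp (fP n 0) (.imp (fP n 1) (.imp (.neg (.eq 0 1))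
      (.or (fR n s 0 1) (fR n s 1 0)))))
      (by simp [Fml.fv, fP, fC, fR, Fml.imp, Fml.or] <;> (intros; omega)) (by
        intro a ha b hb
        have := hA.rtotal n s hs a ha b hb
        simpa using this) a ha b hb
    simp at this
    exact this h1 h2 h3
  rdense := by
    intro n s a ha b hb h1
    have := h.l2 (.imp (fR n s 0 1) (.ex 2 (.and (fR n s 0 2) (fR n s 2 1))))
      (by simp [Fml.fv, fP, fC, fR, Fml.imp, Fml.or] <;> (intros; omega)) (by
        intro a ha b hb
        have := hA.rdense n s a ha b hb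
        simpa using this) a ha b hb
    simp at this
    exact this h1
  rup := by
    intro n s hs a ha h1
    have := h.l1 (.imp (fP n 0) (.ex 1 (fR n s 0 1)))
      (by simp [Fml.fv, fP, fC, fR, Fml.imp, Fml.or] <;> (intros; omega)) (by
        intro a ha
        have := hA.rup n s hs a ha
        simpa using this) a ha
    simp at this
    exact this h1
  rdown := by
    intro n s hs a ha h1
    have := h.l1 (.imp (fP n 0) (.ex 1 (fR n s 1 0)))
      (by simp [Fml.fv, fP, fC, fR, Fml.imp, Fml.or] <;> (intros; omega)) (by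
        intro a ha
        have := hA.rdown n s hs a ha
        simpa using this) a ha
    simp at this
    exact this h1
  rcyc := by
    intro n s hs b hb c hc d hd h1 h2 h3
    let ψ : Fml := .or (.and (fR n s 0 1) (fR n s 1 2)) (.or (.and (fR n s 1 2) (fR n s 2 0))
      (.and (fR n s 2 0) (fR n s 0 1)))
    have := h.l3 (.imp (fP n 0) (.imp (fP n 1) (.imp (fP n 2)
      (.and (.imp (fC n 0 1 2) ψ) (.imp ψ (fC n 0 1 2))))))
      (by simp [ψ, Fml.fv, fP, fC, fR, Fml.imp, Fml.or] <;> (intros; omega)) (by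
        intro b hb c hc d hd
        have := hA.rcyc n s hs b hb c hc d hd
        simp only [sat_imp, sat_and, sat_or, sat_fP, sat_fC, sat_fR, ψ]
        intro h1 h2 h3
        have h8 := this h1 h2 h3
        exact ⟨h8.1, h8.2⟩) b hb c hc d hd
    simp only [sat_imp, sat_and, sat_or, sat_fP, sat_fC, sat_fR, ψ] at this
    have h8 := this h1 h2 h3
    exact ⟨h8.1, h8.2⟩
  other := by
    intro r l hl hr
    by_contra hcon
    have hfv : ∀ i ∈ (Fml.neg (.rel r (List.range l.length))).fv, i < l.length := by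
      simp [Fml.fv]
    have := h.lists (.neg (.rel r (List.range l.length))) l.length hfv (by
      intro l' hl' hla h1
      have hmap : (List.range l.length).map (fun i => l'.getD i 0) = l' := by
        rw [← hl']
        apply List.ext_getElem
        · simp
        · intro i h2 h3
          simp [List.getElem?_eq_getElem h3]
      simp only [sat_rel] at h1
      rw [hmap] at h1
      refine hcon ?_
      rcases hA.other r l' hla h1 with ⟨n, a, rfl, h2⟩ | ⟨n, a, b, c, rfl, h2⟩ |
        ⟨n, s, a, b, rfl, h2⟩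
      · left
        subst h2
        match l, hl' with
        | [x], _ => exact ⟨n, x, rfl, rfl⟩
      · right; left
        subst h2
        match l, hl' with
        | [x, y, z], _ => exact ⟨n, x, y, z, rfl, rfl⟩
      · right; right
        subst h2
        match l, hl' with
        | [x, y], _ => exact ⟨n, s, x, y, rfl, rfl⟩) l rfl hl
    apply this
    have hmap : (List.range l.length).map (fun i => l.getD i 0) = l := by
      apply List.ext_getElem
      · simp
      · intro i h2 h3
        simp [List.getElem?_eq_getElem h3]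
    simp only [sat_rel]
    rw [hmap]; exact hr

end Pool.Agent.H93PMU
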