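import Mathlib
import Pool.Agent.H93PMU.Transfer

/-!
# Concrete models of the theory
-/

set_option autoImplicit false
set_option linter.unusedSimpArgs false
set_option linter.flexible false

namespace Pool.Agent.H93PMU

/-- Circular order derived from a linear order. -/
def cyc (x y z : ℚ) : Prop := (x < y ∧ y < z) ∨ (y < z ∧ z < x) ∨ (z < x ∧ x < y)

theorem cyc_base {x a b c : ℚ} (h1 : x ≠ a) (h2 : x ≠ b) (h3 : x ≠ c) :
    cyc a b c ↔ (cyc x a b ∧ cyc x b c) ∨ (cyc x b c ∧ cyc x c a) ∨ (cyc x c a ∧ cyc x a b) := by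
  unfold cyc; grind

theorem cyc_trans {x a b c : ℚ} (h1 : cyc x a b) (h2 : cyc x b c) : cyc x a c := by
  unfold cyc at *; grind

theorem cyc_asym {x a b : ℚ} (h1 : cyc x a b) : ¬ cyc x b a := by
  unfold cyc at *; grind

theorem cyc_total {x a b : ℚ} (h1 : x ≠ a) (h2 : x ≠ b) (h3 : a ≠ b) :
    cyc x a b ∨ cyc x b a := by
  unfold cyc at *; grind

theorem cyc_rot {x a b : ℚ} (h1 : cyc x a b) : cyc a b x := by
  unfold cyc at *; grind

theorem cyc_ne {x a b : ℚ} (h1 : cyc x a b) : x ≠ a ∧ a ≠ b ∧ x ≠ b := by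
  unfold cyc at *; grind

/-- The value of the payload of an element: tag `0` is the value zero, tag `1` gives the positive
dyadic rational `m / 2 ^ k` (with `m` odd), a tag `s + 2` the negative `- m / 2 ^ k`. -/
def val (p : ℕ) : ℚ :=
  if p.unpair.1 = 0 then 0
  else if p.unpair.1 = 1 then (p.unpair.2.unpair.1 : ℚ) / 2 ^ p.unpair.2.unpair.2
  else -((p.unpair.2.unpair.1 : ℚ) / 2 ^ p.unpair.2.unpair.2)

/-- The circle on which an element lies. -/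
def circ (e : ℕ) : ℕ := e.unpair.1

/-- The value of an element. -/
def valE (e : ℕ) : ℚ := val e.unpair.2

/-- The structure with domain `D`. -/
def Gs (sp : ℕ → ℕ → Prop) (D : Set ℕ) (hD : D.Nonempty) : Str where
  dom := D
  nonempty := hD
  rel := fun r l =>
    (∃ n a, r = Nat.pair 0 n ∧ l = [a] ∧ a ∈ D ∧ circ a = n) ∨
    (∃ n a b c, r = Nat.pair 1 n ∧ l = [a, b, c] ∧ (a ∈ D ∧ b ∈ D ∧ c ∈ D) ∧
      (circ a = n ∧ circ b = n ∧ circ c = n) ∧ cyc (valE a) (valE b) (valE c)) ∨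
    (∃ n s a b, r = Nat.pair 2 (Nat.pair n s) ∧ l = [a, b] ∧ sp n s ∧ (a ∈ D ∧ b ∈ D) ∧
      (circ a = n ∧ circ b = n) ∧ valE a < valE b)

/-- Conditions on the domain. -/
structure OKD (sp : ℕ → ℕ → Prop) (D : Set ℕ) : Prop where
  inj : ∀ a ∈ D, ∀ b ∈ D, circ a = circ b → valE a = valE b → a = b
  dense : ∀ a ∈ D, ∀ b ∈ D, circ a = circ b → valE a < valE b →
    ∃ c ∈ D, circ c = circ a ∧ valE a < valE c ∧ valE c < valE b
  up : ∀ a ∈ D, ∃ c ∈ D, circ c = circ a ∧ valE a < valE c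
  down : ∀ s, ∀ a ∈ D, sp (circ a) s → ∃ c ∈ D, circ c = circ a ∧ valE c < valE a
  ne : ∀ n, ∃ a ∈ D, circ a = n

section
variable {sp : ℕ → ℕ → Prop} {D : Set ℕ} {hD : D.Nonempty}

theorem P_Gs {n a : ℕ} : P (Gs sp D hD) n a ↔ a ∈ D ∧ circ a = n := by
  constructor
  · rintro (⟨n', a', h, h2, h3⟩ | ⟨n', a', b, c, h, _⟩ | ⟨n', s, a', b, h, _⟩)
    · rw [Nat.pair_eq_pair] at h
      obtain ⟨_, rfl⟩ := h
      simp only [List.cons.injEq, and_true] at h2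
      subst h2; exact h3
    · rw [Nat.pair_eq_pair] at h; omega
    · rw [Nat.pair_eq_pair] at h; omega
  · rintro ⟨h1, h2⟩
    exact Or.inl ⟨n, a, rfl, rfl, h1, h2⟩

theorem C_Gs {n a b c : ℕ} : C (Gs sp D hD) n a b c ↔ (a ∈ D ∧ b ∈ D ∧ c ∈ D) ∧
    (circ a = n ∧ circ b = n ∧ circ c = n) ∧ cyc (valE a) (valE b) (valE c) := by
  constructor
  · rintro (⟨n', a', h, _⟩ | ⟨n', a', b', c', h, h1, h2⟩ | ⟨n', s, a', b, h, _⟩)
    · rw [Nat.pair_eq_pair] at h; omega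
    · rw [Nat.pair_eq_pair] at h
      obtain ⟨_, rfl⟩ := h
      simp only [List.cons.injEq, and_true] at h1
      obtain ⟨rfl, rfl, rfl⟩ := h1
      exact h2
    · rw [Nat.pair_eq_pair] at h; omega
  · intro h
    exact Or.inr (Or.inl ⟨n, a, b, c, rfl, rfl, h⟩)

theorem R_Gs {n s a b : ℕ} : R (Gs sp D hD) n s a b ↔ sp n s ∧ (a ∈ D ∧ b ∈ D) ∧
    (circ a = n ∧ circ b = n) ∧ valE a < valE b := by
  constructor
  · rintro (⟨n', a', h, _⟩ | ⟨n', a', b', c', h, _⟩ | ⟨n', s', a', b', h, h1, h2⟩)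
    · rw [Nat.pair_eq_pair] at h; omega
    · rw [Nat.pair_eq_pair] at h; omega
    · rw [Nat.pair_eq_pair, Nat.pair_eq_pair] at h
      obtain ⟨_, rfl, rfl⟩ := h
      simp only [List.cons.injEq, and_true] at h1
      obtain ⟨rfl, rfl⟩ := h1
      exact h2
  · intro h
    exact Or.inr (Or.inr ⟨n, s, a, b, rfl, rfl, h⟩)

theorem good_Gs (h : OKD sp D) : Good sp (Gs sp D hD) where
  disj := by
    intro n m a _ h1 h2
    rw [P_Gs] at h1 h2
    exact h1.2.symm.trans h2.2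
  ne := by
    intro n
    obtain ⟨a, ha, h1⟩ := h.ne n
    exact ⟨a, ha, P_Gs.2 ⟨ha, h1⟩⟩
  two := by
    intro n x hx h1
    rw [P_Gs] at h1
    obtain ⟨c, hc, h2, h3⟩ := h.up x hx
    exact ⟨c, hc, P_Gs.2 ⟨hc, h2.trans h1.2⟩, fun h' => by subst h'; exact lt_irrefl _ h3⟩
  cP := by
    intro n a ha b hb c hc h1
    rw [C_Gs] at h1
    obtain ⟨_, ⟨h2, h3, h4⟩, h5⟩ := h1
    have h6 := cyc_ne h5
    refine ⟨P_Gs.2 ⟨ha, h2⟩, P_Gs.2 ⟨hb, h3⟩, P_Gs.2 ⟨hc, h4⟩, ?_, ?_, ?_⟩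
    · rintro rfl; exact h6.1 rfl
    · rintro rfl; exact h6.2.1 rfl
    · rintro rfl; exact h6.2.2 rfl
  cyc := by
    intro n a ha b hb c hc h1
    rw [C_Gs] at h1 ⊢
    obtain ⟨_, ⟨h2, h3, h4⟩, h5⟩ := h1
    exact ⟨⟨hb, hc, ha⟩, ⟨h3, h4, h2⟩, cyc_rot h5⟩
  trans := by
    intro n x hx a ha b hb c hc h1 h2
    rw [C_Gs] at h1 h2 ⊢
    exact ⟨⟨hx, ha, hc⟩, ⟨h1.2.1.1, h1.2.1.2.1, h2.2.1.2.2⟩, cyc_trans h1.2.2 h2.2.2⟩
  total := by
    intro n x hx a ha b hb h1 h2 h3 h4 h5 h6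
    rw [P_Gs] at h1 h2 h3
    rw [C_Gs, C_Gs]
    have e1 : valE x ≠ valE a := fun h' => h4 (h.inj x hx a ha (h1.2.trans h2.2.symm) h')
    have e2 : valE x ≠ valE b := fun h' => h5 (h.inj x hx b hb (h1.2.trans h3.2.symm) h')
    have e3 : valE a ≠ valE b := fun h' => h6 (h.inj a ha b hb (h2.2.trans h3.2.symm) h')
    rcases cyc_total e1 e2 e3 with h7 | h7
    · exact Or.inl ⟨⟨hx, ha, hb⟩, ⟨h1.2, h2.2, h3.2⟩, h7⟩
    · exact Or.inr ⟨⟨hx, hb, ha⟩, ⟨h1.2, h3.2, h2.2⟩, h7⟩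
  asym := by
    intro n x hx a ha b hb h1 h2
    rw [C_Gs] at h1 h2
    exact cyc_asym h1.2.2 h2.2.2
  dense := by
    intro n x hx a ha b hb h1
    rw [C_Gs] at h1
    obtain ⟨_, ⟨h2, h3, h4⟩, h5⟩ := h1
    simp only [C_Gs]
    rcases h5 with h5 | h5 | h5
    · obtain ⟨c, hc, h6, h7, h8⟩ := h.dense a ha b hb (h3.trans h4.symm) h5.2
      refine ⟨c, hc, ⟨⟨hx, ha, hc⟩, ⟨h2, h3, h6.trans h3⟩, ?_⟩, ⟨hx, hc, hb⟩,
        ⟨h2, h6.trans h3, h4⟩, ?_⟩
      · unfold H93PMU.cyc; grind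
      · unfold H93PMU.cyc; grind
    · obtain ⟨c, hc, h6, h7, h8⟩ := h.dense a ha b hb (h3.trans h4.symm) h5.1
      refine ⟨c, hc, ⟨⟨hx, ha, hc⟩, ⟨h2, h3, h6.trans h3⟩, ?_⟩, ⟨hx, hc, hb⟩,
        ⟨h2, h6.trans h3, h4⟩, ?_⟩
      · unfold H93PMU.cyc; grind
      · unfold H93PMU.cyc; grind
    · obtain ⟨c, hc, h6, h7⟩ := h.up a ha
      refine ⟨c, hc, ⟨⟨hx, ha, hc⟩, ⟨h2, h3, h6.trans h3⟩, ?_⟩, ⟨hx, hc, hb⟩,
        ⟨h2, h6.trans h3, h4⟩, ?_⟩
      · unfold H93PMU.cyc; grind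
      · unfold H93PMU.cyc; grind
  up := by
    intro n x hx a ha h1 h2 h3
    rw [P_Gs] at h1 h2
    simp only [C_Gs]
    have e1 : valE x ≠ valE a := fun h' => h3 (h.inj x hx a ha (h1.2.trans h2.2.symm) h')
    rcases lt_or_gt_of_ne e1 with h4 | h4
    · obtain ⟨c, hc, h6, h7⟩ := h.up a ha
      refine ⟨c, hc, ⟨hx, ha, hc⟩, ⟨h1.2, h2.2, h6.trans h2.2⟩, ?_⟩
      unfold H93PMU.cyc; grind
    · obtain ⟨c, hc, h6, h7, h8⟩ := h.dense a ha x hx (h2.2.trans h1.2.symm) h4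
      refine ⟨c, hc, ⟨hx, ha, hc⟩, ⟨h1.2, h2.2, h6.trans h2.2⟩, ?_⟩
      unfold H93PMU.cyc; grind
  down := by
    intro n x hx a ha h1 h2 h3
    rw [P_Gs] at h1 h2
    simp only [C_Gs]
    have e1 : valE x ≠ valE a := fun h' => h3 (h.inj x hx a ha (h1.2.trans h2.2.symm) h')
    rcases lt_or_gt_of_ne e1 with h4 | h4
    · obtain ⟨c, hc, h6, h7, h8⟩ := h.dense x hx a ha (h1.2.trans h2.2.symm) h4
      refine ⟨c, hc, ⟨hx, hc, ha⟩, ⟨h1.2, h6.trans h1.2, h2.2⟩, ?_⟩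
      unfold H93PMU.cyc; grind
    · obtain ⟨c, hc, h6, h7⟩ := h.up x hx
      refine ⟨c, hc, ⟨hx, hc, ha⟩, ⟨h1.2, h6.trans h1.2, h2.2⟩, ?_⟩
      unfold H93PMU.cyc; grind
  base := by
    intro n x hx a ha b hb c hc h1 h2 h3 h4 h5 h6 h7
    rw [P_Gs] at h1 h2 h3 h4
    have e1 : valE x ≠ valE a := fun h' => h5 (h.inj x hx a ha (h1.2.trans h2.2.symm) h')
    have e2 : valE x ≠ valE b := fun h' => h6 (h.inj x hx b hb (h1.2.trans h3.2.symm) h')
    have e3 : valE x ≠ valE c := fun h' => h7 (h.inj x hx c hc (h1.2.trans h4.2.symm) h')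
    have h8 := cyc_base e1 e2 e3
    simp only [C_Gs, h1.1, h2.1, h3.1, h4.1, h1.2, h2.2, h3.2, h4.2, true_and, and_self]
    exact h8
  rP := by
    intro n s a ha b hb h1
    rw [R_Gs] at h1
    exact ⟨h1.1, P_Gs.2 ⟨ha, h1.2.2.1.1⟩, P_Gs.2 ⟨hb, h1.2.2.1.2⟩⟩
  rtrans := by
    intro n s a ha b hb c hc h1 h2
    rw [R_Gs] at h1 h2 ⊢
    exact ⟨h1.1, ⟨ha, hc⟩, ⟨h1.2.2.1.1, h2.2.2.1.2⟩, h1.2.2.2.trans h2.2.2.2⟩
  rasym := by
    intro n s a ha b hb h1 h2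
    rw [R_Gs] at h1 h2
    exact lt_asymm h1.2.2.2 h2.2.2.2
  rtotal := by
    intro n s hs a ha b hb h1 h2 h3
    rw [P_Gs] at h1 h2
    rw [R_Gs, R_Gs]
    have e1 : valE a ≠ valE b := fun h' => h3 (h.inj a ha b hb (h1.2.trans h2.2.symm) h')
    rcases lt_or_gt_of_ne e1 with h4 | h4
    · exact Or.inl ⟨hs, ⟨ha, hb⟩, ⟨h1.2, h2.2⟩, h4⟩
    · exact Or.inr ⟨hs, ⟨hb, ha⟩, ⟨h2.2, h1.2⟩, h4⟩
  rdense := by
    intro n s a ha b hb h1
    rw [R_Gs] at h1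
    obtain ⟨hs, _, ⟨h2, h3⟩, h4⟩ := h1
    obtain ⟨c, hc, h5, h6, h7⟩ := h.dense a ha b hb (h2.trans h3.symm) h4
    exact ⟨c, hc, R_Gs.2 ⟨hs, ⟨ha, hc⟩, ⟨h2, h5.trans h2⟩, h6⟩,
      R_Gs.2 ⟨hs, ⟨hc, hb⟩, ⟨h5.trans h2, h3⟩, h7⟩⟩
  rup := by
    intro n s hs a ha h1
    rw [P_Gs] at h1
    obtain ⟨c, hc, h2, h3⟩ := h.up a ha
    exact ⟨c, hc, R_Gs.2 ⟨hs, ⟨ha, hc⟩, ⟨h1.2, h2.trans h1.2⟩, h3⟩⟩
  rdown := by
    intro n s hs a ha h1
    rw [P_Gs] at h1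
    obtain ⟨c, hc, h2, h3⟩ := h.down s a ha (by rw [h1.2]; exact hs)
    exact ⟨c, hc, R_Gs.2 ⟨hs, ⟨hc, ha⟩, ⟨h2.trans h1.2, h1.2⟩, h3⟩⟩
  rcyc := by
    intro n s hs a ha b hb c hc h1 h2 h3
    rw [P_Gs] at h1 h2 h3
    simp only [C_Gs, R_Gs, h1.1, h2.1, h3.1, h1.2, h2.2, h3.2, hs, true_and, and_self]
    rfl
  other := by
    intro r l _ hr
    rcases hr with ⟨n, a, h1, h2, _⟩ | ⟨n, a, b, c, h1, h2, _⟩ | ⟨n, s, a, b, h1, h2, _⟩
    · exact Or.inl ⟨n, a, h1, h2⟩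
    · exact Or.inr (Or.inl ⟨n, a, b, c, h1, h2⟩)
    · exact Or.inr (Or.inr ⟨n, s, a, b, h1, h2⟩)

end

/-! The two domains. -/

/-- The set of positive elements (the model `A`). -/
def domA : Set ℕ := {e | e.unpair.2.unpair.1 = 1 ∧ e.unpair.2.unpair.2.unpair.1 % 2 = 1}

/-- The domain of the model `B`: zero, the positive elements, and, on circles cut at stage `s`,
negative elements with tag `s`. -/
def domB (sp : ℕ → ℕ → Prop) : Set ℕ :=
  {e | (e.unpair.2.unpair.1 = 0 ∧ e.unpair.2.unpair.2 = 0) ∨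
    (e.unpair.2.unpair.1 = 1 ∧ e.unpair.2.unpair.2.unpair.1 % 2 = 1) ∨
    (2 ≤ e.unpair.2.unpair.1 ∧ e.unpair.2.unpair.2.unpair.1 % 2 = 1 ∧
      sp e.unpair.1 (e.unpair.2.unpair.1 - 2))}

/-- The element of circle `n` with tag `t` and dyadic rational `m / 2 ^ k`. -/
def elt (n t m k : ℕ) : ℕ := Nat.pair n (Nat.pair t (Nat.pair m k))

@[simp] theorem circ_elt {n t m k : ℕ} : circ (elt n t m k) = n := by simp [circ, elt]

theorem valE_elt {n t m k : ℕ} : valE (elt n t m k) =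
    if t = 0 then 0 else if t = 1 then (m : ℚ) / 2 ^ k else -((m : ℚ) / 2 ^ k) := by
  simp [valE, elt, val]

theorem elt_mem_domA {n m k : ℕ} (hm : m % 2 = 1) : elt n 1 m k ∈ domA := by
  simp [domA, elt, hm]

theorem domA_subset_domB {sp : ℕ → ℕ → Prop} : domA ⊆ domB sp := by
  intro e he
  exact Or.inr (Or.inl he)

theorem elt_of_domA {e : ℕ} (he : e ∈ domA) : ∃ m k, m % 2 = 1 ∧ e = elt (circ e) 1 m k := by
  refine ⟨e.unpair.2.unpair.2.unpair.1, e.unpair.2.unpair.2.unpair.2, he.2, ?_⟩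
  have h1 := he.1
  simp only [elt, circ, Nat.pair_unpair]
  conv_lhs => rw [← Nat.pair_unpair e, ← Nat.pair_unpair e.unpair.2, h1]

theorem elt_of_domB {sp : ℕ → ℕ → Prop} {e : ℕ} (he : e ∈ domB sp) : e = elt (circ e) 0 0 0 ∨
    (∃ m k, m % 2 = 1 ∧ e = elt (circ e) 1 m k) ∨
    ∃ s m k, m % 2 = 1 ∧ sp (circ e) s ∧ e = elt (circ e) (s + 2) m k := by
  rcases he with ⟨h1, h2⟩ | h | ⟨h1, h2, h3⟩
  · left
    simp only [elt, circ]
    conv_lhs => rw [← Nat.pair_unpair e, ← Nat.pair_unpair e.unpair.2, h1, h2]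
    rfl
  · exact Or.inr (Or.inl (elt_of_domA h))
  · refine Or.inr (Or.inr ⟨e.unpair.2.unpair.1 - 2, e.unpair.2.unpair.2.unpair.1,
      e.unpair.2.unpair.2.unpair.2, h2, h3, ?_⟩)
    have h4 : e.unpair.2.unpair.1 - 2 + 2 = e.unpair.2.unpair.1 := by omega
    simp only [elt, circ, h4, Nat.pair_unpair]

theorem dy_pos {m k : ℕ} (hm : m % 2 = 1) : (0 : ℚ) < (m : ℚ) / 2 ^ k := by
  have : 0 < m := by omega
  positivity

theorem dy_lt {m k m' k' : ℕ} : (m : ℚ) / 2 ^ k < (m' : ℚ) / 2 ^ k' ↔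
    m * 2 ^ k' < m' * 2 ^ k := by
  rw [div_lt_div_iff₀ (by positivity) (by positivity)]
  exact_mod_cast Iff.rfl

theorem dy_eq {m k m' k' : ℕ} : (m : ℚ) / 2 ^ k = (m' : ℚ) / 2 ^ k' ↔
    m * 2 ^ k' = m' * 2 ^ k := by
  rw [div_eq_div_iff (by positivity) (by positivity)]
  exact_mod_cast Iff.rfl

theorem dy_inj {m k m' k' : ℕ} (hm : m % 2 = 1) (hm' : m' % 2 = 1)
    (h : (m : ℚ) / 2 ^ k = (m' : ℚ) / 2 ^ k') : m = m' ∧ k = k' := by
  rw [dy_eq] at h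
  rcases lt_trichotomy k k' with hk | hk | hk
  · exfalso
    obtain ⟨d, rfl⟩ := Nat.exists_eq_add_of_lt hk
    have : m * 2 ^ (d + 1) = m' := by
      have h2 : m * 2 ^ (k + d + 1) = (m * 2 ^ (d + 1)) * 2 ^ k := by ring
      rw [h2] at h
      exact Nat.eq_of_mul_eq_mul_right (by positivity) h
    rw [← this, pow_succ, ← mul_assoc, Nat.mul_mod_left] at hm'
    omega
  · subst hk
    exact ⟨Nat.eq_of_mul_eq_mul_right (by positivity) h, rfl⟩
  · exfalso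
    obtain ⟨d, rfl⟩ := Nat.exists_eq_add_of_lt hk
    have : m = m' * 2 ^ (d + 1) := by
      have h2 : m' * 2 ^ (k' + d + 1) = (m' * 2 ^ (d + 1)) * 2 ^ k' := by ring
      rw [h2] at h
      exact Nat.eq_of_mul_eq_mul_right (by positivity) h
    rw [this, pow_succ, ← mul_assoc, Nat.mul_mod_left] at hm
    omega

theorem dy_dense {m k m' k' : ℕ} (h : (m : ℚ) / 2 ^ k < (m' : ℚ) / 2 ^ k') :
    ∃ a b : ℕ, a % 2 = 1 ∧ (m : ℚ) / 2 ^ k < (a : ℚ) / 2 ^ b ∧ (a : ℚ) / 2 ^ b < (m' : ℚ) / 2 ^ k' := by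
  rw [dy_lt] at h
  refine ⟨2 * (m * 2 ^ k') + 1, k + k' + 1, by omega, ?_, ?_⟩
  · rw [dy_lt]
    have : m * 2 ^ (k + k' + 1) = 2 * (m * 2 ^ k') * 2 ^ k := by ring
    rw [this]
    exact Nat.mul_lt_mul_of_pos_right (Nat.lt_succ_self _) (by positivity)
  · rw [dy_lt]
    have : m' * 2 ^ (k + k' + 1) = 2 * (m' * 2 ^ k) * 2 ^ k' := by ring
    rw [this]
    refine Nat.mul_lt_mul_of_pos_right ?_ (by positivity)
    omega

theorem dy_up (m k : ℕ) (hm : m % 2 = 1) :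
    ∃ a b : ℕ, a % 2 = 1 ∧ (m : ℚ) / 2 ^ k < (a : ℚ) / 2 ^ b := by
  refine ⟨m + 2, k, by omega, ?_⟩
  rw [dy_lt]
  exact Nat.mul_lt_mul_of_pos_right (by omega) (by positivity)

theorem dy_down {m k : ℕ} (hm : m % 2 = 1) : (m : ℚ) / 2 ^ (k + 1) < (m : ℚ) / 2 ^ k := by
  rw [dy_lt, pow_succ, ← mul_assoc]
  have : 0 < m * 2 ^ k := by
    have : 0 < m := by omega
    positivity
  omega

theorem okd_A (sp : ℕ → ℕ → Prop) : OKD sp domA where
  inj := by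
    intro a ha b hb h1 h2
    obtain ⟨m, k, hm, ha'⟩ := elt_of_domA ha
    obtain ⟨m', k', hm', hb'⟩ := elt_of_domA hb
    have hva : valE a = (m : ℚ) / 2 ^ k := by rw [ha', valE_elt]; simp
    have hvb : valE b = (m' : ℚ) / 2 ^ k' := by rw [hb', valE_elt]; simp
    rw [hva, hvb] at h2
    obtain ⟨rfl, rfl⟩ := dy_inj hm hm' h2
    rw [ha', hb', h1]
  dense := by
    intro a ha b hb h1 h2
    obtain ⟨m, k, hm, ha'⟩ := elt_of_domA ha
    obtain ⟨m', k', hm', hb'⟩ := elt_of_domA hb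
    have hva : valE a = (m : ℚ) / 2 ^ k := by rw [ha', valE_elt]; simp
    have hvb : valE b = (m' : ℚ) / 2 ^ k' := by rw [hb', valE_elt]; simp
    rw [hva, hvb] at h2
    obtain ⟨x, y, hx, h3, h4⟩ := dy_dense h2
    refine ⟨elt (circ a) 1 x y, elt_mem_domA hx, circ_elt, ?_, ?_⟩
    · rw [hva, valE_elt]; simpa using h3
    · rw [hvb, valE_elt]; simpa using h4
  up := by
    intro a ha
    obtain ⟨m, k, hm, ha'⟩ := elt_of_domA ha
    have hva : valE a = (m : ℚ) / 2 ^ k := by rw [ha', valE_elt]; simp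
    obtain ⟨x, y, hx, h3⟩ := dy_up m k hm
    refine ⟨elt (circ a) 1 x y, elt_mem_domA hx, circ_elt, ?_⟩
    rw [hva, valE_elt]; simpa using h3
  down := by
    intro s a ha _
    obtain ⟨m, k, hm, ha'⟩ := elt_of_domA ha
    have hva : valE a = (m : ℚ) / 2 ^ k := by rw [ha', valE_elt]; simp
    refine ⟨elt (circ a) 1 m (k + 1), elt_mem_domA hm, circ_elt, ?_⟩
    rw [hva, valE_elt]; simpa using dy_down hm
  ne := fun n => ⟨elt n 1 1 0, elt_mem_domA rfl, circ_elt⟩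

theorem elt_mem_domB0 {sp : ℕ → ℕ → Prop} {n : ℕ} : elt n 0 0 0 ∈ domB sp := by
  left; simp [elt]; rfl

theorem elt_mem_domB2 {sp : ℕ → ℕ → Prop} {n s m k : ℕ} (hm : m % 2 = 1) (hs : sp n s) :
    elt n (s + 2) m k ∈ domB sp := by
  right; right; simp [elt, hm, hs]

theorem valE_elt0 {n : ℕ} : valE (elt n 0 0 0) = 0 := by rw [valE_elt]; simp

theorem valE_elt1 {n m k : ℕ} : valE (elt n 1 m k) = (m : ℚ) / 2 ^ k := by rw [valE_elt]; simp

theorem valE_elt2 {n s m k : ℕ} : valE (elt n (s + 2) m k) = -((m : ℚ) / 2 ^ k) := by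
  rw [valE_elt]; simp

theorem valE_of0 {e : ℕ} (h : e = elt (circ e) 0 0 0) : valE e = 0 := by rw [h, valE_elt0]

theorem valE_of1 {e m k : ℕ} (h : e = elt (circ e) 1 m k) : valE e = (m : ℚ) / 2 ^ k := by
  rw [h, valE_elt1]

theorem valE_of2 {e s m k : ℕ} (h : e = elt (circ e) (s + 2) m k) :
    valE e = -((m : ℚ) / 2 ^ k) := by
  rw [h, valE_elt2]

theorem okd_B {sp : ℕ → ℕ → Prop} (hsp : ∀ n s s', sp n s → sp n s' → s = s') :
    OKD sp (domB sp) where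
  inj := by
    intro a ha b hb h1 h2
    rcases elt_of_domB ha with ha' | ⟨m, k, hm, ha'⟩ | ⟨s, m, k, hm, hs, ha'⟩ <;>
    rcases elt_of_domB hb with hb' | ⟨m', k', hm', hb'⟩ | ⟨s', m', k', hm', hs', hb'⟩
    · rw [ha', hb', h1]
    · have hva := valE_of0 ha'
      have hvb := valE_of1 hb'
      have := dy_pos (k := k') hm'
      rw [hva, hvb] at h2; linarith
    · have hva := valE_of0 ha'
      have hvb := valE_of2 hb'
      have := dy_pos (k := k') hm'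
      rw [hva, hvb] at h2; linarith
    · have hva := valE_of1 ha'
      have hvb := valE_of0 hb'
      have := dy_pos (k := k) hm
      rw [hva, hvb] at h2; linarith
    · have hva := valE_of1 ha'
      have hvb := valE_of1 hb'
      rw [hva, hvb] at h2
      obtain ⟨rfl, rfl⟩ := dy_inj hm hm' h2
      rw [ha', hb', h1]
    · have hva := valE_of1 ha'
      have hvb := valE_of2 hb'
      have := dy_pos (k := k) hm
      have := dy_pos (k := k') hm'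
      rw [hva, hvb] at h2; linarith
    · have hva := valE_of2 ha'
      have hvb := valE_of0 hb'
      have := dy_pos (k := k) hm
      rw [hva, hvb] at h2; linarith
    · have hva := valE_of2 ha'
      have hvb := valE_of1 hb'
      have := dy_pos (k := k) hm
      have := dy_pos (k := k') hm'
      rw [hva, hvb] at h2; linarith
    · have hva := valE_of2 ha'
      have hvb := valE_of2 hb'
      rw [hva, hvb, neg_inj] at h2
      obtain ⟨rfl, rfl⟩ := dy_inj hm hm' h2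
      have := hsp _ s s' hs (by rw [h1]; exact hs')
      subst this
      rw [ha', hb', h1]
  dense := by
    intro a ha b hb h1 h2
    rcases elt_of_domB ha with ha' | ⟨m, k, hm, ha'⟩ | ⟨s, m, k, hm, hs, ha'⟩ <;>
    rcases elt_of_domB hb with hb' | ⟨m', k', hm', hb'⟩ | ⟨s', m', k', hm', hs', hb'⟩
    · have hva := valE_of0 ha'
      have hvb := valE_of0 hb'
      rw [hva, hvb] at h2; linarith
    · have hva := valE_of0 ha'
      have hvb := valE_of1 hb'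
      refine ⟨elt (circ a) 1 m' (k' + 1), domA_subset_domB (elt_mem_domA hm'), circ_elt, ?_, ?_⟩
      · rw [hva, valE_elt1]; exact dy_pos hm'
      · rw [hvb, valE_elt1]; exact dy_down hm'
    · have hva := valE_of0 ha'
      have hvb := valE_of2 hb'
      have := dy_pos (k := k') hm'
      rw [hva, hvb] at h2; linarith
    · have hva := valE_of1 ha'
      have hvb := valE_of0 hb'
      have := dy_pos (k := k) hm
      rw [hva, hvb] at h2; linarith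
    · have hva := valE_of1 ha'
      have hvb := valE_of1 hb'
      rw [hva, hvb] at h2
      obtain ⟨x, y, hx, h3, h4⟩ := dy_dense h2
      refine ⟨elt (circ a) 1 x y, domA_subset_domB (elt_mem_domA hx), circ_elt, ?_, ?_⟩
      · rw [hva, valE_elt1]; exact h3
      · rw [hvb, valE_elt1]; exact h4
    · have hva := valE_of1 ha'
      have hvb := valE_of2 hb'
      have := dy_pos (k := k) hm
      have := dy_pos (k := k') hm'
      rw [hva, hvb] at h2; linarith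
    · have hva := valE_of2 ha'
      have hvb := valE_of0 hb'
      refine ⟨elt (circ a) (s + 2) m (k + 1), elt_mem_domB2 hm hs, circ_elt, ?_, ?_⟩
      · rw [hva, valE_elt2, neg_lt_neg_iff]; exact dy_down hm
      · rw [hvb, valE_elt2, neg_lt_zero]; exact dy_pos hm
    · have hva := valE_of2 ha'
      have hvb := valE_of1 hb'
      refine ⟨elt (circ a) 0 0 0, elt_mem_domB0, circ_elt, ?_, ?_⟩
      · rw [hva, valE_elt0, neg_lt_zero]; exact dy_pos hm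
      · rw [hvb, valE_elt0]; exact dy_pos hm'
    · have hva := valE_of2 ha'
      have hvb := valE_of2 hb'
      rw [hva, hvb, neg_lt_neg_iff] at h2
      obtain ⟨x, y, hx, h3, h4⟩ := dy_dense h2
      refine ⟨elt (circ a) (s + 2) x y, elt_mem_domB2 hx hs, circ_elt, ?_, ?_⟩
      · rw [hva, valE_elt2, neg_lt_neg_iff]; exact h4
      · rw [hvb, valE_elt2, neg_lt_neg_iff]; exact h3
  up := by
    intro a ha
    rcases elt_of_domB ha with ha' | ⟨m, k, hm, ha'⟩ | ⟨s, m, k, hm, hs, ha'⟩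
    · have hva := valE_of0 ha'
      refine ⟨elt (circ a) 1 1 0, domA_subset_domB (elt_mem_domA rfl), circ_elt, ?_⟩
      rw [hva, valE_elt1]; exact dy_pos rfl
    · have hva := valE_of1 ha'
      obtain ⟨x, y, hx, h3⟩ := dy_up m k hm
      refine ⟨elt (circ a) 1 x y, domA_subset_domB (elt_mem_domA hx), circ_elt, ?_⟩
      rw [hva, valE_elt1]; exact h3
    · have hva := valE_of2 ha'
      refine ⟨elt (circ a) 0 0 0, elt_mem_domB0, circ_elt, ?_⟩
      rw [hva, valE_elt0, neg_lt_zero]; exact dy_pos hm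
  down := by
    intro s0 a ha hs0
    rcases elt_of_domB ha with ha' | ⟨m, k, hm, ha'⟩ | ⟨s, m, k, hm, hs, ha'⟩
    · have hva := valE_of0 ha'
      refine ⟨elt (circ a) (s0 + 2) 1 0, elt_mem_domB2 rfl hs0, circ_elt, ?_⟩
      rw [hva, valE_elt2, neg_lt_zero]; exact dy_pos rfl
    · have hva := valE_of1 ha'
      refine ⟨elt (circ a) 0 0 0, elt_mem_domB0, circ_elt, ?_⟩
      rw [hva, valE_elt0]; exact dy_pos hm
    · have hva := valE_of2 ha'
      obtain ⟨x, y, hx, h3⟩ := dy_up m k hm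
      refine ⟨elt (circ a) (s + 2) x y, elt_mem_domB2 hx hs, circ_elt, ?_⟩
      rw [hva, valE_elt2, neg_lt_neg_iff]; exact h3
  ne := fun n => ⟨elt n 0 0 0, elt_mem_domB0, circ_elt⟩

end Pool.Agent.H93PMU
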