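import Mathlib
import Pool.Agent.H93PMU.Model
import Pool.Agent.H93PMU.Info

/-!
# Finite certificates for satisfaction in the concrete models
-/

set_option autoImplicit false

namespace Pool.Agent.H93PMU

open Encodable

/-- The list `R` of elements of `D` realises all types over `l` (for symbols below `k`). -/
def Complete (sp : ℕ → ℕ → Prop) (D : Set ℕ) (k : ℕ) (l R : List ℕ) : Prop :=
  (∀ a ∈ R, a ∈ D) ∧ (∀ a ∈ l, a ∈ R) ∧ (∃ a ∈ R, k ≤ circ a ∧ a ∉ l) ∧
  (∀ n < k, ∃ a ∈ R, circ a = n ∧ ∀ x ∈ l, circ x = n → valE x < valE a) ∧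
  (∀ n < k, (∃ s < k, sp n s) → ∃ a ∈ R, circ a = n ∧ ∀ x ∈ l, circ x = n → valE a < valE x) ∧
  (∀ x ∈ l, ∀ y ∈ l, circ x = circ y → valE x < valE y →
    ∃ a ∈ R, circ a = circ x ∧ valE x < valE a ∧ valE a < valE y)

theorem exists_list_reqs {α : Type*} {D : Set ℕ} {W : α → ℕ → Prop} (reqs : List α)
    (h : ∀ r ∈ reqs, ∃ a ∈ D, W r a) :
    ∃ R : List ℕ, (∀ a ∈ R, a ∈ D) ∧ ∀ r ∈ reqs, ∃ a ∈ R, W r a := by
  induction reqs with
  | nil => exact ⟨[], by simp, by simp⟩
  | cons r reqs ih =>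
    obtain ⟨R, h1, h2⟩ := ih fun r hr => h r (List.mem_cons_of_mem _ hr)
    obtain ⟨a, ha, hW⟩ := h r (List.mem_cons_self)
    refine ⟨a :: R, ?_, ?_⟩
    · intro b hb
      rcases List.mem_cons.1 hb with rfl | hb
      · exact ha
      · exact h1 b hb
    · intro r' hr'
      rcases List.mem_cons.1 hr' with rfl | hr'
      · exact ⟨a, List.mem_cons_self, hW⟩
      · obtain ⟨b, hb, hb'⟩ := h2 r' hr'
        exact ⟨b, List.mem_cons_of_mem _ hb, hb'⟩

section
variable {sp : ℕ → ℕ → Prop} {D : Set ℕ} {hD : D.Nonempty}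

/-- above all elements of a list -/
theorem OKD.above (h : OKD sp D) (n : ℕ) (l : List ℕ) (hl : ∀ x ∈ l, x ∈ D) :
    ∃ a ∈ D, circ a = n ∧ ∀ x ∈ l, circ x = n → valE x < valE a := by
  induction l with
  | nil =>
    obtain ⟨a, ha, h1⟩ := h.ne n
    exact ⟨a, ha, h1, by simp⟩
  | cons y l ih =>
    obtain ⟨a, ha, h1, h2⟩ := ih fun x hx => hl x (List.mem_cons_of_mem _ hx)
    by_cases hy : circ y = n ∧ valE a ≤ valE y
    · obtain ⟨c, hc, h3, h4⟩ := h.up y (hl y List.mem_cons_self)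
      refine ⟨c, hc, h3.trans hy.1, ?_⟩
      intro x hx hxn
      rcases List.mem_cons.1 hx with rfl | hx
      · exact h4
      · exact lt_trans (h2 x hx hxn) (lt_of_le_of_lt hy.2 h4)
    · refine ⟨a, ha, h1, ?_⟩
      intro x hx hxn
      rcases List.mem_cons.1 hx with rfl | hx
      · by_contra hlt
        exact hy ⟨hxn, not_lt.1 hlt⟩
      · exact h2 x hx hxn

theorem OKD.below (h : OKD sp D) (n s : ℕ) (hs : sp n s) (l : List ℕ) (hl : ∀ x ∈ l, x ∈ D) :
    ∃ a ∈ D, circ a = n ∧ ∀ x ∈ l, circ x = n → valE a < valE x := by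
  induction l with
  | nil =>
    obtain ⟨a, ha, h1⟩ := h.ne n
    exact ⟨a, ha, h1, by simp⟩
  | cons y l ih =>
    obtain ⟨a, ha, h1, h2⟩ := ih fun x hx => hl x (List.mem_cons_of_mem _ hx)
    by_cases hy : circ y = n ∧ valE y ≤ valE a
    · obtain ⟨c, hc, h3, h4⟩ := h.down s y (hl y List.mem_cons_self) (by rw [hy.1]; exact hs)
      refine ⟨c, hc, h3.trans hy.1, ?_⟩
      intro x hx hxn
      rcases List.mem_cons.1 hx with rfl | hx
      · exact h4
      · exact lt_trans (lt_of_lt_of_le h4 hy.2) (h2 x hx hxn)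
    · refine ⟨a, ha, h1, ?_⟩
      intro x hx hxn
      rcases List.mem_cons.1 hx with rfl | hx
      · by_contra hlt
        exact hy ⟨hxn, not_lt.1 hlt⟩
      · exact h2 x hx hxn

/-- Complete lists exist. -/
theorem OKD.exists_complete (h : OKD sp D) (k : ℕ) (l : List ℕ) (hl : ∀ x ∈ l, x ∈ D) :
    ∃ R, Complete sp D k l R := by
  -- an element on a high circle not in `l`
  obtain ⟨z, hz, hz1, hz2⟩ := h.above k l hl
  obtain ⟨R1, h11, h12⟩ := exists_list_reqs (D := D)
    (W := fun n a => circ a = n ∧ ∀ x ∈ l, circ x = n → valE x < valE a) (List.range k)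
    (fun n _ => h.above n l hl)
  obtain ⟨R2, h21, h22⟩ := exists_list_reqs (D := D)
    (W := fun n a => (∃ s < k, sp n s) → circ a = n ∧ ∀ x ∈ l, circ x = n → valE a < valE x)
    (List.range k)
    (fun n _ => by
      by_cases hs : ∃ s < k, sp n s
      · obtain ⟨s, _, hs⟩ := hs
        obtain ⟨a, ha, h1⟩ := h.below n s hs l hl
        exact ⟨a, ha, fun _ => h1⟩
      · exact ⟨z, hz, fun h => absurd h hs⟩)
  obtain ⟨R3, h31, h32⟩ := exists_list_reqs (D := D)
    (W := fun (p : ℕ × ℕ) a => circ p.1 = circ p.2 → valE p.1 < valE p.2 →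
      circ a = circ p.1 ∧ valE p.1 < valE a ∧ valE a < valE p.2)
    (l ×ˢ l)
    (fun p hp => by
      obtain ⟨x, y⟩ := p
      rw [List.mem_product] at hp
      by_cases hc : circ x = circ y ∧ valE x < valE y
      · obtain ⟨a, ha, h1⟩ := h.dense x (hl x hp.1) y (hl y hp.2) hc.1 hc.2
        exact ⟨a, ha, fun _ _ => h1⟩
      · exact ⟨z, hz, fun h1 h2 => absurd ⟨h1, h2⟩ hc⟩)
  refine ⟨l ++ (z :: (R1 ++ (R2 ++ R3))), ?_, ?_, ?_, ?_, ?_, ?_⟩
  · intro a ha
    simp only [List.mem_append, List.mem_cons] at ha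
    rcases ha with ha | rfl | ha | ha | ha
    · exact hl a ha
    · exact hz
    · exact h11 a ha
    · exact h21 a ha
    · exact h31 a ha
  · intro a ha
    simp [ha]
  · refine ⟨z, by simp, hz1.ge, fun hzl => ?_⟩
    exact lt_irrefl _ (hz2 z hzl hz1)
  · intro n hn
    obtain ⟨a, ha, h1⟩ := h12 n (List.mem_range.2 hn)
    exact ⟨a, by simp [ha], h1⟩
  · intro n hn hs
    obtain ⟨a, ha, h1⟩ := h22 n (List.mem_range.2 hn)
    exact ⟨a, by simp [ha], h1 hs⟩
  · intro x hx y hy hxy hlt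
    obtain ⟨a, ha, h1⟩ := h32 (x, y) (List.mem_product.2 ⟨hx, hy⟩)
    exact ⟨a, by simp [ha], h1 hxy hlt⟩

theorem cyc_low_high {a b x y : ℚ} (h1 : a < x) (h2 : a < y) (h3 : x < b) (h4 : y < b) :
    cyc a x y ↔ cyc b x y := by
  unfold cyc; grind

theorem cyc_cut {a b x y : ℚ} (h1 : x < a ↔ x < b) (h2 : a < x ↔ b < x) (h3 : y < a ↔ y < b)
    (h4 : a < y ↔ b < y) : cyc a x y ↔ cyc b x y := by
  unfold cyc; grind

/-- Elements in the same cut over `l` match. -/
theorem OKD.match_cut (h : OKD sp D) {k : ℕ} {l : List ℕ} {S : Finset ℕ} {v : ℕ → ℕ}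
    (hl : ∀ x ∈ l, x ∈ D) (hv : ∀ j ∈ S, v j ∈ l) {a b : ℕ} (ha : a ∈ D) (hb : b ∈ D)
    (hal : a ∉ l) (hab : circ b = circ a)
    (hcut : ∀ x ∈ l, circ x = circ a → ((valE x < valE a ↔ valE x < valE b) ∧
      (valE a < valE x ↔ valE b < valE x))) :
    Match k (Gs sp D hD) (Gs sp D hD) S v v a b := by
  have hbl : b ∉ l := by
    intro hbl
    obtain ⟨h1, h2⟩ := hcut b hbl hab
    have h3 : valE a = valE b := by
      rcases lt_trichotomy (valE a) (valE b) with h4 | h4 | h4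
      · exact absurd (h2.1 h4) (lt_irrefl _)
      · exact h4
      · exact absurd (h1.1 h4) (lt_irrefl _)
    have := h.inj a ha b hb hab.symm h3
    exact hal (this ▸ hbl)
  refine ⟨ha, hb, ?_, ?_, ?_, ?_, ?_⟩
  · intro j hj
    exact ⟨fun h' => absurd (h' ▸ hv j hj) hal, fun h' => absurd (h' ▸ hv j hj) hbl⟩
  · intro n _
    rw [P_Gs, P_Gs, hab]
    exact and_congr_left fun _ => ⟨fun _ => hb, fun _ => ha⟩
  · intro n _ j hj i hi
    rw [C_Gs, C_Gs, hab]
    refine and_congr ?_ (and_congr_right fun hc => ?_)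
    · exact and_congr_left fun _ => ⟨fun _ => hb, fun _ => ha⟩
    · obtain ⟨h1, h2⟩ := hcut (v j) (hv j hj) (by rw [hc.2.1, hc.1])
      obtain ⟨h3, h4⟩ := hcut (v i) (hv i hi) (by rw [hc.2.2, hc.1])
      exact cyc_cut h1 h2 h3 h4
  · intro n _ s _ j hj
    rw [R_Gs, R_Gs, hab]
    refine and_congr_right fun _ => and_congr ?_ (and_congr_right fun hc => ?_)
    · exact and_congr_left fun _ => ⟨fun _ => hb, fun _ => ha⟩
    · exact (hcut (v j) (hv j hj) (by rw [hc.2, hc.1])).2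
  · intro n _ s _ j hj
    rw [R_Gs, R_Gs, hab]
    refine and_congr_right fun _ => and_congr ?_ (and_congr_right fun hc => ?_)
    · exact and_congr_right fun _ => ⟨fun _ => hb, fun _ => ha⟩
    · exact (hcut (v j) (hv j hj) (by rw [hc.1, hc.2])).1

/-- Every element is matched in a complete list. -/
theorem Complete.match (h : OKD sp D) {k : ℕ} {l R : List ℕ} (hc : Complete sp D k l R)
    (hl : ∀ x ∈ l, x ∈ D) {S : Finset ℕ} {v : ℕ → ℕ} (hv : ∀ j ∈ S, v j ∈ l) {a : ℕ}
    (ha : a ∈ D) : ∃ b ∈ R, Match k (Gs sp D hD) (Gs sp D hD) S v v a b := by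
  obtain ⟨h1, h2, h3, h4, h5, h6⟩ := hc
  by_cases hal : a ∈ l
  · exact ⟨a, h2 a hal, ⟨ha, ha, fun _ _ => Iff.rfl, fun _ _ => Iff.rfl,
      fun _ _ _ _ _ _ => Iff.rfl, fun _ _ _ _ _ _ => Iff.rfl, fun _ _ _ _ _ _ => Iff.rfl⟩⟩
  by_cases hk : k ≤ circ a
  · obtain ⟨b, hb, hb1, hb2⟩ := h3
    refine ⟨b, hb, ha, h1 b hb, ?_, ?_, ?_, ?_, ?_⟩
    · intro j hj
      exact ⟨fun h' => absurd (h' ▸ hv j hj) hal, fun h' => absurd (h' ▸ hv j hj) hb2⟩
    · intro n hn
      rw [P_Gs, P_Gs]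
      exact ⟨fun h' => by omega, fun h' => by omega⟩
    · intro n hn j hj i hi
      rw [C_Gs, C_Gs]
      exact ⟨fun h' => by omega, fun h' => by omega⟩
    · intro n hn s _ j hj
      rw [R_Gs, R_Gs]
      exact ⟨fun h' => by omega, fun h' => by omega⟩
    · intro n hn s _ j hj
      rw [R_Gs, R_Gs]
      exact ⟨fun h' => by omega, fun h' => by omega⟩
  rw [not_le] at hk
  have hne : ∀ x ∈ l, circ x = circ a → valE x ≠ valE a := by
    intro x hx hxa h'
    exact hal (h.inj x (hl x hx) a ha hxa h' ▸ hx)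
  -- elements of `l` below and above `a`
  classical
  let Lo := l.toFinset.filter fun x => circ x = circ a ∧ valE x < valE a
  let Up := l.toFinset.filter fun x => circ x = circ a ∧ valE a < valE x
  have mLo : ∀ x, x ∈ Lo ↔ x ∈ l ∧ circ x = circ a ∧ valE x < valE a := by
    intro x; simp [Lo]
  have mUp : ∀ x, x ∈ Up ↔ x ∈ l ∧ circ x = circ a ∧ valE a < valE x := by
    intro x; simp [Up]
  by_cases hUp : Up.Nonempty
  · obtain ⟨y, hy, hy'⟩ := Up.exists_min_image valE hUp
    rw [mUp] at hy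
    by_cases hLo : Lo.Nonempty
    · obtain ⟨x, hx, hx'⟩ := Lo.exists_max_image valE hLo
      rw [mLo] at hx
      obtain ⟨b, hb, hb1, hb2, hb3⟩ := h6 x hx.1 y hy.1 (hx.2.1.trans hy.2.1.symm)
        (hx.2.2.trans hy.2.2)
      refine ⟨b, hb, h.match_cut hl hv ha (h1 b hb) hal (hb1.trans hx.2.1) ?_⟩
      intro z hz hza
      have hzne := hne z hz hza
      rcases lt_or_gt_of_ne hzne with h7 | h7
      · have h8 := hx' z ((mLo z).2 ⟨hz, hza, h7⟩)
        have h9 : valE z < valE b := lt_of_le_of_lt h8 hb2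
        exact ⟨⟨fun _ => h9, fun _ => h7⟩, ⟨fun h' => absurd h' h7.not_gt,
          fun h' => absurd h' h9.not_gt⟩⟩
      · have h8 := hy' z ((mUp z).2 ⟨hz, hza, h7⟩)
        have h9 : valE b < valE z := lt_of_lt_of_le hb3 h8
        exact ⟨⟨fun h' => absurd h' (not_lt.2 h7.le), fun h' => absurd h' (not_lt.2 h9.le)⟩,
          ⟨fun _ => h9, fun _ => h7⟩⟩
    · -- `a` is below all elements of `l` on its circle
      have hbel : ∀ z ∈ l, circ z = circ a → valE a < valE z := by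
        intro z hz hza
        rcases lt_or_gt_of_ne (hne z hz hza) with h7 | h7
        · exact absurd ⟨z, (mLo z).2 ⟨hz, hza, h7⟩⟩ hLo
        · exact h7
      by_cases hs : ∃ s < k, sp (circ a) s
      · obtain ⟨b, hb, hb1, hb2⟩ := h5 (circ a) hk hs
        refine ⟨b, hb, h.match_cut hl hv ha (h1 b hb) hal hb1 ?_⟩
        intro z hz hza
        have h7 := hbel z hz hza
        have h8 := hb2 z hz hza
        exact ⟨⟨fun h' => absurd h' (not_lt.2 h7.le), fun h' => absurd h' (not_lt.2 h8.le)⟩,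
          ⟨fun _ => h8, fun _ => h7⟩⟩
      · obtain ⟨b, hb, hb1, hb2⟩ := h4 (circ a) hk
        have hbl : b ∉ l := fun hbl => lt_irrefl _ (hb2 b hbl hb1)
        refine ⟨b, hb, ha, h1 b hb, ?_, ?_, ?_, ?_, ?_⟩
        · intro j hj
          exact ⟨fun h' => absurd (h' ▸ hv j hj) hal, fun h' => absurd (h' ▸ hv j hj) hbl⟩
        · intro n _
          rw [P_Gs, P_Gs, hb1]
          exact and_congr_left fun _ => ⟨fun _ => h1 b hb, fun _ => ha⟩
        · intro n _ j hj i hi
          rw [C_Gs, C_Gs, hb1]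
          refine and_congr ?_ (and_congr_right fun hc => ?_)
          · exact and_congr_left fun _ => ⟨fun _ => h1 b hb, fun _ => ha⟩
          · have e1 : circ (v j) = circ a := by rw [hc.2.1, hc.1]
            have e2 : circ (v i) = circ a := by rw [hc.2.2, hc.1]
            exact cyc_low_high (hbel _ (hv j hj) e1) (hbel _ (hv i hi) e2)
              (hb2 _ (hv j hj) e1) (hb2 _ (hv i hi) e2)
        · intro n _ s hs' j hj
          rw [R_Gs, R_Gs]
          constructor
          · rintro ⟨g1, _, ⟨g3, _⟩, _⟩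
            exact absurd ⟨s, hs', by rw [g3]; exact g1⟩ hs
          · rintro ⟨g1, _, ⟨g3, _⟩, _⟩
            exact absurd ⟨s, hs', by rw [← hb1, g3]; exact g1⟩ hs
        · intro n _ s hs' j hj
          rw [R_Gs, R_Gs]
          constructor
          · rintro ⟨g1, _, ⟨_, g3⟩, _⟩
            exact absurd ⟨s, hs', by rw [g3]; exact g1⟩ hs
          · rintro ⟨g1, _, ⟨_, g3⟩, _⟩
            exact absurd ⟨s, hs', by rw [← hb1, g3]; exact g1⟩ hs
  · -- `a` is above all elements of `l` on its circle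
    obtain ⟨b, hb, hb1, hb2⟩ := h4 (circ a) hk
    refine ⟨b, hb, h.match_cut hl hv ha (h1 b hb) hal hb1 ?_⟩
    intro z hz hza
    have h8 := hb2 z hz hza
    have h7 : valE z < valE a := by
      rcases lt_or_gt_of_ne (hne z hz hza) with h7 | h7
      · exact h7
      · exact absurd ⟨z, (mUp z).2 ⟨hz, hza, h7⟩⟩ hUp
    exact ⟨⟨fun _ => h8, fun _ => h7⟩, ⟨fun h' => absurd h' h7.not_gt,
      fun h' => absurd h' h8.not_gt⟩⟩

end

/-- Entries of certificates: (code of a) formula, assignment, truth value, auxiliary list. -/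
abbrev Ent := ℕ × List ℕ × Bool × List ℕ

/-- The certificate `T` contains an entry for formula `c`, assignment `l`, truth value `b`. -/
def Has (T : List Ent) (c : ℕ) (l : List ℕ) (b : Bool) : Prop :=
  ∃ e ∈ T, e.1 = c ∧ e.2.1 = l ∧ e.2.2.1 = b

/-- Local correctness of the entry `e` of the certificate `T`. -/
def OkE (sp : ℕ → ℕ → Prop) (D : Set ℕ) (rel : ℕ → List ℕ → Prop) (k : ℕ) (T : List Ent)
    (e : Ent) : Prop :=
  (e.1.unpair.1 = 0 ∧ (e.2.2.1 = true ↔
    e.2.1.getD e.1.unpair.2.unpair.1 0 = e.2.1.getD e.1.unpair.2.unpair.2 0)) ∨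
  (e.1.unpair.1 = 1 ∧ (e.2.2.1 = true ↔ rel e.1.unpair.2.unpair.1
    (((decode (α := List ℕ) e.1.unpair.2.unpair.2).getD []).map fun i => e.2.1.getD i 0))) ∨
  (e.1.unpair.1 = 2 ∧ Has T e.1.unpair.2 e.2.1 (!e.2.2.1)) ∨
  (e.1.unpair.1 = 3 ∧ e.2.2.1 = true ∧ Has T e.1.unpair.2.unpair.1 e.2.1 true ∧
    Has T e.1.unpair.2.unpair.2 e.2.1 true) ∨
  (e.1.unpair.1 = 3 ∧ e.2.2.1 = false ∧ (Has T e.1.unpair.2.unpair.1 e.2.1 false ∨
    Has T e.1.unpair.2.unpair.2 e.2.1 false)) ∨
  (e.1.unpair.1 = 4 ∧ e.2.2.1 = true ∧ ∃ a ∈ e.2.2.2, a ∈ D ∧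
    Has T e.1.unpair.2.unpair.2 (e.2.1.set e.1.unpair.2.unpair.1 a) true) ∨
  (e.1.unpair.1 = 4 ∧ e.2.2.1 = false ∧ Complete sp D k e.2.1 e.2.2.2 ∧ ∀ a ∈ e.2.2.2,
    Has T e.1.unpair.2.unpair.2 (e.2.1.set e.1.unpair.2.unpair.1 a) false)

theorem Has.mono {T T' : List Ent} (h : T ⊆ T') {c : ℕ} {l : List ℕ} {b : Bool}
    (hT : Has T c l b) : Has T' c l b := by
  obtain ⟨e, he, h1⟩ := hT
  exact ⟨e, h he, h1⟩

theorem OkE.mono {sp : ℕ → ℕ → Prop} {D : Set ℕ} {rel : ℕ → List ℕ → Prop} {k : ℕ}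
    {T T' : List Ent} (h : T ⊆ T') {e : Ent} (hT : OkE sp D rel k T e) :
    OkE sp D rel k T' e := by
  rcases hT with hT | hT | ⟨h1, h2⟩ | ⟨h1, h2, h3, h4⟩ | ⟨h1, h2, h3⟩ | ⟨h1, h2, a, h3, h4, h5⟩ |
    ⟨h1, h2, h3, h4⟩
  · exact Or.inl hT
  · exact Or.inr (Or.inl hT)
  · exact Or.inr (Or.inr (Or.inl ⟨h1, h2.mono h⟩))
  · exact Or.inr (Or.inr (Or.inr (Or.inl ⟨h1, h2, h3.mono h, h4.mono h⟩)))
  · exact Or.inr (Or.inr (Or.inr (Or.inr (Or.inl ⟨h1, h2, h3.imp (Has.mono h) (Has.mono h)⟩))))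
  · exact Or.inr (Or.inr (Or.inr (Or.inr (Or.inr (Or.inl ⟨h1, h2, a, h3, h4, h5.mono h⟩)))))
  · exact Or.inr (Or.inr (Or.inr (Or.inr (Or.inr (Or.inr ⟨h1, h2, h3, fun a ha =>
      (h4 a ha).mono h⟩)))))

theorem getD_set {l : List ℕ} {i a : ℕ} (hi : i < l.length) :
    (fun j => (l.set i a).getD j 0) = Function.update (fun j => l.getD j 0) i a := by
  funext j
  by_cases hj : j = i
  · subst hj
    simp [List.getD_eq_getElem?_getD, hi]
  · rw [Function.update_of_ne hj]
    simp [List.getD_eq_getElem?_getD, List.getElem?_set_ne (Ne.symm hj)]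

section
variable {sp : ℕ → ℕ → Prop} {D : Set ℕ} {hD : D.Nonempty}

theorem getD_mem_of_lt {l : List ℕ} {j : ℕ} (hj : j < l.length) : l.getD j 0 ∈ l := by
  rw [List.getD_eq_getElem _ _ hj]
  exact List.getElem_mem hj

/-- Soundness of certificates. -/
theorem cert_sound (hsp : ∀ n s s', sp n s → sp n s' → s = s') (h : OKD sp D) {k N : ℕ}
    {T : List Ent} (hT : ∀ e ∈ T, OkE sp D (Gs sp D hD).rel k T e) (φ : Fml) :
    φ.vb ≤ N → φ.bnd ≤ k → ∀ (l : List ℕ) (b : Bool), l.length = N → (∀ x ∈ l, x ∈ D) →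
      Has T φ.code l b → (Sat (Gs sp D hD) φ (fun i => l.getD i 0) ↔ b = true) := by
  induction φ with
  | eq i j =>
    intro hN hk l b hl hlD hb
    obtain ⟨⟨c, l', b', R⟩, he, rfl, rfl, rfl⟩ := hb
    have := hT _ he
    simp only [OkE, Fml.code, Nat.unpair_pair] at this
    simp only [Sat]
    rcases this with h1 | h1 | h1 | h1 | h1 | h1 | h1 <;>
      first | exact h1.2.symm | exact absurd h1.1 (by decide)
  | rel r vs =>
    intro hN hk l b hl hlD hb
    obtain ⟨⟨c, l', b', R⟩, he, rfl, rfl, rfl⟩ := hb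
    have := hT _ he
    simp only [OkE, Fml.code, Nat.unpair_pair, encodek, Option.getD_some] at this
    simp only [Sat]
    rcases this with h1 | h1 | h1 | h1 | h1 | h1 | h1 <;>
      first | exact h1.2.symm | exact absurd h1.1 (by decide)
  | neg φ ih =>
    intro hN hk l b hl hlD hb
    obtain ⟨⟨c, l', b', R⟩, he, rfl, rfl, rfl⟩ := hb
    have := hT _ he
    simp only [OkE, Fml.code, Nat.unpair_pair] at this
    simp only [Sat]
    rcases this with h1 | h1 | h1 | h1 | h1 | h1 | h1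
    · exact absurd h1.1 (by decide)
    · exact absurd h1.1 (by decide)
    · have h2 := ih hN hk _ _ hl hlD h1.2
      rw [h2]
      cases b' <;> simp
    · exact absurd h1.1 (by decide)
    · exact absurd h1.1 (by decide)
    · exact absurd h1.1 (by decide)
    · exact absurd h1.1 (by decide)
  | and φ ψ ih1 ih2 =>
    intro hN hk l b hl hlD hb
    simp only [Fml.vb, max_le_iff] at hN
    simp only [Fml.bnd, max_le_iff] at hk
    obtain ⟨⟨c, l', b', R⟩, he, rfl, rfl, rfl⟩ := hb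
    have := hT _ he
    simp only [OkE, Fml.code, Nat.unpair_pair] at this
    simp only [Sat]
    rcases this with h1 | h1 | h1 | h1 | h1 | h1 | h1
    · exact absurd h1.1 (by decide)
    · exact absurd h1.1 (by decide)
    · exact absurd h1.1 (by decide)
    · have h2 := ih1 hN.1 hk.1 _ _ hl hlD h1.2.2.1
      have h3 := ih2 hN.2 hk.2 _ _ hl hlD h1.2.2.2
      rw [h2, h3, h1.2.1]
      simp
    · rw [h1.2.1]
      rcases h1.2.2 with h2 | h2
      · rw [ih1 hN.1 hk.1 _ _ hl hlD h2]; simp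
      · rw [ih2 hN.2 hk.2 _ _ hl hlD h2]; simp
    · exact absurd h1.1 (by decide)
    · exact absurd h1.1 (by decide)
  | ex i φ ih =>
    intro hN hk l b hl hlD hb
    simp only [Fml.vb, max_le_iff] at hN
    simp only [Fml.bnd] at hk
    have hi : i < l.length := by omega
    obtain ⟨⟨c, l', b', R⟩, he, rfl, rfl, rfl⟩ := hb
    have := hT _ he
    simp only [OkE, Fml.code, Nat.unpair_pair] at this
    simp only [Sat]
    have hset : ∀ a ∈ D, ∀ x ∈ l'.set i a, x ∈ D := by
      intro a ha x hx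
      rcases List.mem_or_eq_of_mem_set hx with hx | rfl
      · exact hlD x hx
      · exact ha
    rcases this with h1 | h1 | h1 | h1 | h1 | h1 | h1
    · exact absurd h1.1 (by decide)
    · exact absurd h1.1 (by decide)
    · exact absurd h1.1 (by decide)
    · exact absurd h1.1 (by decide)
    · exact absurd h1.1 (by decide)
    · obtain ⟨_, hb', a, haR, haD, ha⟩ := h1
      have h2 := ih hN.2 hk _ _ (by simpa using hl) (hset a haD) ha
      rw [getD_set hi] at h2
      rw [hb']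
      exact ⟨fun _ => rfl, fun _ => ⟨a, haD, h2.2 rfl⟩⟩
    · obtain ⟨_, hb', hC, hR⟩ := h1
      rw [hb']
      refine ⟨?_, fun h' => absurd h' (by decide)⟩
      rintro ⟨a, ha, hs⟩
      exfalso
      have hG : Good sp (Gs sp D hD) := good_Gs h
      have hvl : ∀ j ∈ (Finset.range N).erase i, (fun j => l'.getD j 0) j ∈ l' := by
        intro j hj
        simp only [Finset.mem_erase, Finset.mem_range] at hj
        have hj2 := hj.2
        rw [← hl] at hj2
        exact getD_mem_of_lt hj2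
      obtain ⟨b, hbR, hm⟩ := Complete.match (hD := hD) h hC hlD
        (S := (Finset.range N).erase i) (v := fun j => l'.getD j 0) hvl ha
      have hkeq : KEq k (Gs sp D hD) (Gs sp D hD) ((Finset.range N).erase i)
          (fun j => l'.getD j 0) (fun j => l'.getD j 0) :=
        ⟨fun j hj => hlD _ (hvl j hj), fun j hj => hlD _ (hvl j hj), fun _ _ _ _ => Iff.rfl,
          fun _ _ _ _ => Iff.rfl, fun _ _ _ _ _ _ _ _ => Iff.rfl,
          fun _ _ _ _ _ _ _ _ => Iff.rfl⟩
      have hkeq' := hkeq.insert hG hG (Finset.notMem_erase i _) hm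
      have hfv : φ.fv ⊆ insert i ((Finset.range N).erase i) := by
        intro j hj
        have := fv_lt_vb φ j hj
        by_cases hji : j = i
        · simp [hji]
        · exact Finset.mem_insert_of_mem (Finset.mem_erase.2
            ⟨hji, Finset.mem_range.2 (lt_of_lt_of_le this hN.2)⟩)
      have h3 := (sat_of_keq hsp hG hG φ hk hkeq' hfv).1 hs
      have h4 := ih hN.2 hk _ _ (by simpa using hl) (hset b (hC.1 b hbR)) (hR b hbR)
      rw [getD_set hi] at h4
      exact absurd (h4.1 h3) (by decide)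

theorem has_append_left {T T' : List Ent} {c : ℕ} {l : List ℕ} {b : Bool} (h : Has T c l b) :
    Has (T ++ T') c l b := h.mono (List.subset_append_left _ _)

theorem has_append_right {T T' : List Ent} {c : ℕ} {l : List ℕ} {b : Bool} (h : Has T' c l b) :
    Has (T ++ T') c l b := h.mono (List.subset_append_right _ _)

/-- Completeness of certificates. -/
theorem cert_complete (h : OKD sp D) {k N : ℕ} (φ : Fml) :
    φ.vb ≤ N → ∀ (l : List ℕ), l.length = N → (∀ x ∈ l, x ∈ D) →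
      ∃ (T : List Ent) (b : Bool), (∀ e ∈ T, OkE sp D (Gs sp D hD).rel k T e) ∧
        Has T φ.code l b := by
  classical
  have cons_ok : ∀ (T : List Ent) (e : Ent), (∀ e' ∈ T, OkE sp D (Gs sp D hD).rel k T e') →
      OkE sp D (Gs sp D hD).rel k T e →
      ∀ e' ∈ (e :: T), OkE sp D (Gs sp D hD).rel k (e :: T) e' := by
    intro T e h1 h2 e' he'
    rcases List.mem_cons.1 he' with rfl | he'
    · exact h2.mono (List.subset_cons_self _ _)
    · exact (h1 e' he').mono (List.subset_cons_self _ _)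
  have has_cons : ∀ (T : List Ent) (c : ℕ) (l : List ℕ) (b : Bool) (R : List ℕ),
      Has ((c, l, b, R) :: T) c l b := fun T c l b R =>
    ⟨_, List.mem_cons_self, rfl, rfl, rfl⟩
  have app_ok : ∀ (T T' : List Ent), (∀ e' ∈ T, OkE sp D (Gs sp D hD).rel k T e') →
      (∀ e' ∈ T', OkE sp D (Gs sp D hD).rel k T' e') →
      ∀ e' ∈ (T ++ T'), OkE sp D (Gs sp D hD).rel k (T ++ T') e' := by
    intro T T' h1 h2 e' he'
    rcases List.mem_append.1 he' with he' | he'
    · exact (h1 e' he').mono (List.subset_append_left _ _)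
    · exact (h2 e' he').mono (List.subset_append_right _ _)
  induction φ with
  | eq i j =>
    intro hN l hl hlD
    refine ⟨[((Fml.eq i j).code, l, decide (l.getD i 0 = l.getD j 0), [])], _, ?_,
      has_cons [] _ _ _ _⟩
    refine cons_ok [] _ (by simp) (Or.inl ?_)
    simp [Fml.code]
  | rel r vs =>
    intro hN l hl hlD
    refine ⟨[((Fml.rel r vs).code, l, decide ((Gs sp D hD).rel r (vs.map fun i => l.getD i 0)),
      [])], _, ?_, has_cons [] _ _ _ _⟩
    refine cons_ok [] _ (by simp) (Or.inr (Or.inl ?_))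
    simp [Fml.code]
  | neg φ ih =>
    intro hN l hl hlD
    obtain ⟨T, b, h1, h2⟩ := ih hN l hl hlD
    refine ⟨(φ.neg.code, l, !b, []) :: T, !b, ?_, has_cons _ _ _ _ _⟩
    refine cons_ok T _ h1 (Or.inr (Or.inr (Or.inl ?_)))
    simpa [Fml.code] using h2
  | and φ ψ ih1 ih2 =>
    intro hN l hl hlD
    simp only [Fml.vb, max_le_iff] at hN
    obtain ⟨T, b, h1, h2⟩ := ih1 hN.1 l hl hlD
    obtain ⟨T', b', h1', h2'⟩ := ih2 hN.2 l hl hlD
    refine ⟨((φ.and ψ).code, l, b && b', []) :: (T ++ T'), b && b', ?_, has_cons _ _ _ _ _⟩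
    refine cons_ok (T ++ T') _ (app_ok _ _ h1 h1') ?_
    have g1 := has_append_left (T' := T') h2
    have g2 := has_append_right (T := T) h2'
    cases b <;> cases b'
    · exact Or.inr (Or.inr (Or.inr (Or.inr (Or.inl (by simpa [Fml.code] using Or.inl g1)))))
    · exact Or.inr (Or.inr (Or.inr (Or.inr (Or.inl (by simpa [Fml.code] using Or.inl g1)))))
    · exact Or.inr (Or.inr (Or.inr (Or.inr (Or.inl (by simpa [Fml.code] using Or.inr g2)))))
    · exact Or.inr (Or.inr (Or.inr (Or.inl (by simpa [Fml.code] using ⟨g1, g2⟩))))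
  | ex i φ ih =>
    intro hN l hl hlD
    simp only [Fml.vb, max_le_iff] at hN
    have hset : ∀ a ∈ D, ∀ x ∈ l.set i a, x ∈ D := by
      intro a ha x hx
      rcases List.mem_or_eq_of_mem_set hx with hx | rfl
      · exact hlD x hx
      · exact ha
    obtain ⟨R, hR⟩ := h.exists_complete k l hlD
    -- certificates for all elements of `R`
    have key : ∀ R' : List ℕ, (∀ a ∈ R', a ∈ D) → ∃ T : List Ent,
        (∀ e ∈ T, OkE sp D (Gs sp D hD).rel k T e) ∧
        ∀ a ∈ R', ∃ b, Has T φ.code (l.set i a) b := by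
      intro R'
      induction R' with
      | nil => exact fun _ => ⟨[], by simp, by simp⟩
      | cons a R' ihR =>
        intro hR'
        obtain ⟨T, h1, h2⟩ := ihR fun x hx => hR' x (List.mem_cons_of_mem _ hx)
        obtain ⟨T', b', h1', h2'⟩ := ih hN.2 (l.set i a) (by simpa using hl)
          (hset a (hR' a List.mem_cons_self))
        refine ⟨T ++ T', app_ok _ _ h1 h1', ?_⟩
        intro x hx
        rcases List.mem_cons.1 hx with rfl | hx
        · exact ⟨b', has_append_right h2'⟩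
        · obtain ⟨b, hb⟩ := h2 x hx
          exact ⟨b, has_append_left hb⟩
    obtain ⟨T, h1, h2⟩ := key R hR.1
    by_cases hex : ∃ a ∈ R, Has T φ.code (l.set i a) true
    · obtain ⟨a, haR, ha⟩ := hex
      refine ⟨((Fml.ex i φ).code, l, true, R) :: T, true, ?_, has_cons _ _ _ _ _⟩
      refine cons_ok T _ h1 (Or.inr (Or.inr (Or.inr (Or.inr (Or.inr (Or.inl ?_))))))
      simp only [Fml.code, Nat.unpair_pair]
      exact ⟨trivial, trivial, a, haR, hR.1 a haR, ha⟩
    · refine ⟨((Fml.ex i φ).code, l, false, R) :: T, false, ?_, has_cons _ _ _ _ _⟩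
      refine cons_ok T _ h1 (Or.inr (Or.inr (Or.inr (Or.inr (Or.inr (Or.inr ?_))))))
      simp only [Fml.code, Nat.unpair_pair]
      refine ⟨trivial, trivial, hR, fun a ha => ?_⟩
      obtain ⟨b, hb⟩ := h2 a ha
      cases b
      · exact hb
      · exact absurd ⟨a, ha, hb⟩ hex

end

end Pool.Agent.H93PMU
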