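import Mathlib
import Pool.Agent.H93PMU.Eval

/-!
# The elementary diagrams of the concrete models are computable in the cut function
-/

set_option autoImplicit false

namespace Pool.Agent.H93PMU

open Encodable Pool.Agent.H19 Classical

/-- The characteristic function of a set, with Boolean values. -/
noncomputable def bit (X : Set ℕ) : ℕ → Bool := fun n => decide (n ∈ X)

theorem chr_eq (X : Set ℕ) : chr X = chi (bit X) := by
  funext n
  by_cases h : n ∈ X <;> simp [chr, chi, bit, h]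

theorem rcp_bit_self (X : Set ℕ) : RCp (bit X) (fun n => n ∈ X) := RC.oracle (bit X)

theorem TuringIdeal.mem {I : Set (Set ℕ)} (hI : TuringIdeal I) {X Y : Set ℕ} (hX : X ∈ I)
    (h : RCp (bit X) (fun n => n ∈ Y)) : Y ∈ I := by
  refine hI.down X hX Y ?_
  rw [chr_eq, chr_eq]
  exact RC.turing h

theorem TuringIdeal.join2 {I : Set (Set ℕ)} (hI : TuringIdeal I) {X Y : Set ℕ} (hX : X ∈ I)
    (hY : Y ∈ I) : ∃ W ∈ I, RCp (bit W) (fun n => n ∈ X) ∧ RCp (bit W) (fun n => n ∈ Y) := by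
  refine ⟨_, hI.join X hX Y hY, ?_, ?_⟩
  · have h1 : Computable (fun n : ℕ => 2 * n) :=
      (Primrec.nat_mul.comp (Primrec.const 2) Primrec.id).to_comp
    refine ((rcp_bit_self _).comp (RC.of_computable h1)).of_iff fun n => ?_
    simp only [Set.mem_ofPred_eq]
    constructor
    · rintro (⟨m, hm, h⟩ | ⟨m, hm, h⟩)
      · have : n = m := by omega
        subst this; exact hm
      · omega
    · intro h
      exact Or.inl ⟨n, h, rfl⟩
  · have h1 : Computable (fun n : ℕ => 2 * n + 1) :=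
      (Primrec.nat_add.comp (Primrec.nat_mul.comp (Primrec.const 2) Primrec.id)
        (Primrec.const 1)).to_comp
    refine ((rcp_bit_self _).comp (RC.of_computable h1)).of_iff fun n => ?_
    simp only [Set.mem_ofPred_eq]
    constructor
    · rintro (⟨m, hm, h⟩ | ⟨m, hm, h⟩)
      · omega
      · have : n = m := by omega
        subst this; exact hm
    · intro h
      exact Or.inr ⟨n, h, rfl⟩

theorem RCp.trans_oracle {α : Type*} [Primcodable α] {W Z : ℕ → Bool} {p : α → Prop}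
    (hp : RCp W p) (hW : RC Z W) : RCp Z p := RC.trans_oracle (f := fun a => decide (p a)) hp hW

section
variable {α : Type*} [Primcodable α] {Z : ℕ → Bool}

theorem RC.unpair1 {f : α → ℕ} (hf : RC Z f) : RC Z (fun a => (f a).unpair.1) :=
  RC.comp_computable (g := fun n : ℕ => n.unpair.1) (Computable.fst.comp Computable.unpair) hf

theorem RC.unpair2 {f : α → ℕ} (hf : RC Z f) : RC Z (fun a => (f a).unpair.2) :=
  RC.comp_computable (g := fun n : ℕ => n.unpair.2) (Computable.snd.comp Computable.unpair) hf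

theorem RC.getD {f : α → List ℕ} {g : α → ℕ} (hf : RC Z f) (hg : RC Z g) :
    RC Z (fun a => (f a).getD (g a) 0) := by
  have h : Computable₂ (fun (l : List ℕ) (n : ℕ) => l.getD n 0) := by
    have h1 : Computable (fun p : List ℕ × ℕ => (p.1[p.2]?).getD 0) :=
      Computable.option_getD (Computable.list_getElem?.comp Computable.fst Computable.snd)
        (Computable.const 0)
    exact h1.of_eq fun p => (List.getD_eq_getElem?_getD ..).symm
  exact RC.comp_computable₂ (f := fun (l : List ℕ) (n : ℕ) => l.getD n 0) h hf hg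

theorem RC.len {f : α → List ℕ} (hf : RC Z f) : RC Z (fun a => (f a).length) :=
  RC.comp_computable Computable.list_length hf

theorem RC.range {f : α → ℕ} (hf : RC Z f) : RC Z (fun a => List.range (f a)) :=
  RC.comp_computable (comp_range Computable.id) hf

theorem RC.add {f g : α → ℕ} (hf : RC Z f) (hg : RC Z g) : RC Z (fun a => f a + g a) :=
  RC.comp_computable₂ (f := fun a b : ℕ => a + b) Primrec.nat_add.to_comp hf hg

theorem RC.mul {f g : α → ℕ} (hf : RC Z f) (hg : RC Z g) : RC Z (fun a => f a * g a) :=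
  RC.comp_computable₂ (f := fun a b : ℕ => a * b) Primrec.nat_mul.to_comp hf hg

theorem RC.sub {f g : α → ℕ} (hf : RC Z f) (hg : RC Z g) : RC Z (fun a => f a - g a) :=
  RC.comp_computable₂ (f := fun a b : ℕ => a - b) Primrec.nat_sub.to_comp hf hg

theorem RC.mod2 {f : α → ℕ} (hf : RC Z f) : RC Z (fun a => f a % 2) :=
  RC.comp_computable (g := fun n : ℕ => n % 2)
    (Primrec.nat_mod.comp Primrec.id (Primrec.const 2)).to_comp hf

theorem RC.pow {f g : α → ℕ} (hf : RC Z f) (hg : RC Z g) : RC Z (fun a => f a ^ g a) := by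
  have h : Primrec₂ (fun a b : ℕ => a ^ b) := Primrec₂.unpaired'.1 Nat.Primrec.pow
  exact RC.comp_computable₂ (f := fun a b : ℕ => a ^ b) h.to_comp hf hg

theorem RC.natpair {f g : α → ℕ} (hf : RC Z f) (hg : RC Z g) :
    RC Z (fun a => Nat.pair (f a) (g a)) :=
  RC.comp_computable₂ (f := fun a b : ℕ => Nat.pair a b) Primrec₂.natPair.to_comp hf hg

theorem RC.circ {f : α → ℕ} (hf : RC Z f) : RC Z (fun a => circ (f a)) := hf.unpair1

theorem RC.tag {f : α → ℕ} (hf : RC Z f) : RC Z (fun a => (f a).unpair.2.unpair.1) :=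
  hf.unpair2.unpair1

/-- Positive part of the scaled value. -/
def posP (e k : ℕ) : ℕ :=
  if e.unpair.2.unpair.1 = 1 then e.unpair.2.unpair.2.unpair.1 * 2 ^ k else 0

/-- Negative part of the scaled value. -/
def negP (e k : ℕ) : ℕ :=
  if e.unpair.2.unpair.1 = 0 then 0 else if e.unpair.2.unpair.1 = 1 then 0 else
    e.unpair.2.unpair.2.unpair.1 * 2 ^ k

theorem valE_scaled (e k : ℕ) :
    valE e * (2 ^ e.unpair.2.unpair.2.unpair.2 * 2 ^ k) = (posP e k : ℚ) - (negP e k : ℚ) := by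
  have h2 : (2 : ℚ) ^ e.unpair.2.unpair.2.unpair.2 ≠ 0 := by positivity
  unfold valE val posP negP
  by_cases h0 : e.unpair.2.unpair.1 = 0
  · simp [h0]
  · by_cases h1 : e.unpair.2.unpair.1 = 1
    · rw [if_neg h0, if_pos h1, if_pos h1, if_neg h0, if_pos h1]
      push_cast
      field_simp
      simp
    · rw [if_neg h0, if_neg h1, if_neg h1, if_neg h0, if_neg h1]
      push_cast
      field_simp
      simp

theorem valE_lt_iff (a b : ℕ) : valE a < valE b ↔
    posP a b.unpair.2.unpair.2.unpair.2 + negP b a.unpair.2.unpair.2.unpair.2 <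
      posP b a.unpair.2.unpair.2.unpair.2 + negP a b.unpair.2.unpair.2.unpair.2 := by
  have ha := valE_scaled a b.unpair.2.unpair.2.unpair.2
  have hb := valE_scaled b a.unpair.2.unpair.2.unpair.2
  set x := a.unpair.2.unpair.2.unpair.2
  set y := b.unpair.2.unpair.2.unpair.2
  have hpos : (0 : ℚ) < 2 ^ x * 2 ^ y := by positivity
  rw [← mul_lt_mul_iff_left₀ hpos, ha, mul_comm ((2 : ℚ) ^ x) (2 ^ y), hb]
  rw [← Nat.cast_lt (α := ℚ)]
  push_cast
  constructor <;> intro h <;> linarith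

theorem RC.posP {f g : α → ℕ} (hf : RC Z f) (hg : RC Z g) : RC Z (fun a => posP (f a) (g a)) :=
  (RC.ite_prop (RCp.eq hf.tag (RC.const 1)) (hf.unpair2.unpair2.unpair1.mul
    ((RC.const 2).pow hg)) (RC.const 0)).of_eq fun a => by
      unfold H93PMU.posP; split_ifs <;> rfl

theorem RC.negP {f g : α → ℕ} (hf : RC Z f) (hg : RC Z g) : RC Z (fun a => negP (f a) (g a)) :=
  (RC.ite_prop (RCp.eq hf.tag (RC.const 0)) (RC.const 0)
    (RC.ite_prop (RCp.eq hf.tag (RC.const 1)) (RC.const 0) (hf.unpair2.unpair2.unpair1.mul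
    ((RC.const 2).pow hg)))).of_eq fun a => by
      unfold H93PMU.negP; split_ifs <;> rfl

theorem RCp.valE_lt {f g : α → ℕ} (hf : RC Z f) (hg : RC Z g) :
    RCp Z (fun a => valE (f a) < valE (g a)) := by
  refine (RCp.lt ((hf.posP hg.unpair2.unpair2.unpair2).add (hg.negP hf.unpair2.unpair2.unpair2))
    ((hg.posP hf.unpair2.unpair2.unpair2).add (hf.negP hg.unpair2.unpair2.unpair2))).of_iff
    fun a => (valE_lt_iff _ _).symm

theorem RCp.cyc {f g h : α → ℕ} (hf : RC Z f) (hg : RC Z g) (hh : RC Z h) :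
    RCp Z (fun a => cyc (valE (f a)) (valE (g a)) (valE (h a))) :=
  ((RCp.valE_lt hf hg).and (RCp.valE_lt hg hh)).or
    (((RCp.valE_lt hg hh).and (RCp.valE_lt hh hf)).or
      ((RCp.valE_lt hh hf).and (RCp.valE_lt hf hg)))

theorem RC.listSet {f : α → List ℕ} {g h : α → ℕ} (hf : RC Z f) (hg : RC Z g) (hh : RC Z h) :
    RC Z (fun a => (f a).set (g a) (h a)) := by
  refine (RC.list_map (f := fun a => List.range (f a).length)
    (g := fun a j => if j = g a then h a else (f a).getD j 0) hf.len.range ?_).of_eq fun a => ?_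
  · refine (RC.ite_prop (RCp.eq RC.snd (hg.comp RC.fst)) (hh.comp RC.fst)
      ((hf.comp RC.fst).getD RC.snd)).of_eq fun p => ?_
    by_cases hp : p.2 = g p.1 <;> simp [hp]
  · apply List.ext_getElem
    · simp
    · intro j h1 h2
      simp only [List.length_set] at h2
      simp only [List.getElem_map, List.getElem_range, List.getElem_set]
      by_cases hj : g a = j
      · simp [hj]
      · rw [if_neg hj, if_neg (fun h => hj h.symm), List.getD_eq_getElem _ _ h2]

theorem RC.decodeL {f : α → ℕ} (hf : RC Z f) :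
    RC Z (fun a => (decode (α := List ℕ) (f a)).getD []) :=
  RC.comp_computable (g := fun n : ℕ => (decode (α := List ℕ) n).getD [])
    (Computable.option_getD Computable.decode (Computable.const [])) hf

/-! The relations of the structure. -/

variable {sp : ℕ → ℕ → Prop} {D : Set ℕ} {hD : D.Nonempty}

theorem rel_Gs_iff (r : ℕ) (l : List ℕ) : (Gs sp D hD).rel r l ↔
    ((r.unpair.1 = 0 ∧ l.length = 1) ∧ l.getD 0 0 ∈ D ∧ circ (l.getD 0 0) = r.unpair.2) ∨
    ((r.unpair.1 = 1 ∧ l.length = 3) ∧ (l.getD 0 0 ∈ D ∧ l.getD 1 0 ∈ D ∧ l.getD 2 0 ∈ D) ∧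
      (circ (l.getD 0 0) = r.unpair.2 ∧ circ (l.getD 1 0) = r.unpair.2 ∧
        circ (l.getD 2 0) = r.unpair.2) ∧
      cyc (valE (l.getD 0 0)) (valE (l.getD 1 0)) (valE (l.getD 2 0))) ∨
    ((r.unpair.1 = 2 ∧ l.length = 2) ∧ sp r.unpair.2.unpair.1 r.unpair.2.unpair.2 ∧
      (l.getD 0 0 ∈ D ∧ l.getD 1 0 ∈ D) ∧
      (circ (l.getD 0 0) = r.unpair.2.unpair.1 ∧ circ (l.getD 1 0) = r.unpair.2.unpair.1) ∧
      valE (l.getD 0 0) < valE (l.getD 1 0)) := by
  constructor
  · rintro (⟨n, a, rfl, rfl, h⟩ | ⟨n, a, b, c, rfl, rfl, h⟩ | ⟨n, s, a, b, rfl, rfl, h⟩)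
    · left; simpa using h
    · right; left; simpa using h
    · right; right; simpa using h
  · rintro (⟨⟨h1, h2⟩, h⟩ | ⟨⟨h1, h2⟩, h⟩ | ⟨⟨h1, h2⟩, h⟩)
    · match l, h2 with
      | [a], _ =>
        refine Or.inl ⟨r.unpair.2, a, ?_, rfl, by simpa using h⟩
        rw [← h1, Nat.pair_unpair]
    · match l, h2 with
      | [a, b, c], _ =>
        refine Or.inr (Or.inl ⟨r.unpair.2, a, b, c, ?_, rfl, by simpa using h⟩)
        rw [← h1, Nat.pair_unpair]
    · match l, h2 with
      | [a, b], _ =>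
        refine Or.inr (Or.inr ⟨r.unpair.2.unpair.1, r.unpair.2.unpair.2, a, b, ?_, rfl,
          by simpa using h⟩)
        rw [Nat.pair_unpair, ← h1, Nat.pair_unpair]

theorem RCp.relGs (hsp : RCp Z (fun p : ℕ × ℕ => sp p.1 p.2)) (hDc : RCp Z (fun a => a ∈ D))
    {f : α → ℕ} {g : α → List ℕ} (hf : RC Z f) (hg : RC Z g) :
    RCp Z (fun a => (Gs sp D hD).rel (f a) (g a)) := by
  have g0 := hg.getD (RC.const (Z := Z) (α := α) 0)
  have g1 := hg.getD (RC.const (Z := Z) (α := α) 1)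
  have g2 := hg.getD (RC.const (Z := Z) (α := α) 2)
  have len : ∀ k : ℕ, RCp Z (fun a => (g a).length = k) := fun k => RCp.eq hg.len (RC.const k)
  have tg : ∀ k : ℕ, RCp Z (fun a => (f a).unpair.1 = k) := fun k =>
    RCp.eq hf.unpair1 (RC.const k)
  refine RCp.of_iff (((((tg 0).and (len 1)).and ((hDc.comp g0).and
    (RCp.eq g0.circ hf.unpair2)))).or ((((tg 1).and (len 3)).and
      (((hDc.comp g0).and ((hDc.comp g1).and (hDc.comp g2))).and
      (((RCp.eq g0.circ hf.unpair2).and ((RCp.eq g1.circ hf.unpair2).and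
        (RCp.eq g2.circ hf.unpair2))).and (RCp.cyc g0 g1 g2)))).or
    (((tg 2).and (len 2)).and ((hsp.comp (hf.unpair2.unpair1.pair hf.unpair2.unpair2)).and
      (((hDc.comp g0).and (hDc.comp g1)).and
      (((RCp.eq g0.circ hf.unpair2.unpair1).and (RCp.eq g1.circ hf.unpair2.unpair1)).and
        (RCp.valE_lt g0 g1))))))) fun a => (rel_Gs_iff _ _).symm

theorem RCp.complete (hsp : RCp Z (fun p : ℕ × ℕ => sp p.1 p.2)) (hDc : RCp Z (fun a => a ∈ D))
    {f : α → ℕ} {g h : α → List ℕ} (hf : RC Z f) (hg : RC Z g) (hh : RC Z h) :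
    RCp Z (fun a => Complete sp D (f a) (g a) (h a)) := by
  refine RCp.and (RCp.all hh (hDc.comp RC.snd)) (RCp.and (RCp.all hg (RCp.mem RC.snd
    (hh.comp RC.fst))) (RCp.and (RCp.ex hh (RCp.and (RCp.le (hf.comp RC.fst) RC.snd.circ)
    (RCp.not (RCp.mem RC.snd (hg.comp RC.fst))))) (RCp.and (RCp.all_lt hf (RCp.ex
    (f := fun q : α × ℕ => h q.1)
    (p := fun q a => circ a = q.2 ∧ ∀ x ∈ g q.1, circ x = q.2 → valE x < valE a)
    (hh.comp RC.fst) (RCp.and (RCp.eq RC.snd.circ (RC.snd.comp RC.fst))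
    (RCp.all (f := fun q : (α × ℕ) × ℕ => g q.1.1)
      (p := fun q x => circ x = q.1.2 → valE x < valE q.2)
      (hg.comp (RC.fst.comp RC.fst)) (RCp.imp (RCp.eq RC.snd.circ
        (RC.snd.comp (RC.fst.comp RC.fst))) (RCp.valE_lt RC.snd (RC.snd.comp RC.fst))))))) ?_)))
  refine RCp.and ?_ ?_
  · refine RCp.all_lt hf (RCp.imp (RCp.ex_lt (hf.comp RC.fst) (hsp.comp
      ((RC.snd.comp RC.fst).pair RC.snd))) (RCp.ex
    (f := fun q : α × ℕ => h q.1)
    (p := fun q a => circ a = q.2 ∧ ∀ x ∈ g q.1, circ x = q.2 → valE a < valE x)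
    (hh.comp RC.fst) (RCp.and (RCp.eq RC.snd.circ (RC.snd.comp RC.fst))
    (RCp.all (f := fun q : (α × ℕ) × ℕ => g q.1.1)
      (p := fun q x => circ x = q.1.2 → valE q.2 < valE x)
      (hg.comp (RC.fst.comp RC.fst)) (RCp.imp (RCp.eq RC.snd.circ
        (RC.snd.comp (RC.fst.comp RC.fst))) (RCp.valE_lt (RC.snd.comp RC.fst) RC.snd))))))
  · refine RCp.all hg (RCp.all (f := fun q : α × ℕ => g q.1)
      (p := fun q y => circ q.2 = circ y → valE q.2 < valE y →
        ∃ a ∈ h q.1, circ a = circ q.2 ∧ valE q.2 < valE a ∧ valE a < valE y)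
      (hg.comp RC.fst) ?_)
    refine RCp.imp (RCp.eq (RC.snd.comp RC.fst).circ RC.snd.circ) (RCp.imp
      (RCp.valE_lt (RC.snd.comp RC.fst) RC.snd) (RCp.ex
        (f := fun q : (α × ℕ) × ℕ => h q.1.1)
        (p := fun q a => circ a = circ q.1.2 ∧ valE q.1.2 < valE a ∧ valE a < valE q.2)
        (hh.comp (RC.fst.comp RC.fst)) ?_))
    exact RCp.and (RCp.eq RC.snd.circ (RC.snd.comp (RC.fst.comp RC.fst)).circ)
      (RCp.and (RCp.valE_lt (RC.snd.comp (RC.fst.comp RC.fst)) RC.snd)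
        (RCp.valE_lt RC.snd (RC.snd.comp RC.fst)))

theorem RCp.has {T : α → List Ent} {c : α → ℕ} {l : α → List ℕ} {b : α → Bool}
    (hT : RC Z T) (hc : RC Z c) (hl : RC Z l) (hb : RC Z b) :
    RCp Z (fun a => Has (T a) (c a) (l a) (b a)) := by
  refine RCp.ex (f := T) (p := fun a e => e.1 = c a ∧ e.2.1 = l a ∧ e.2.2.1 = b a) hT ?_
  exact RCp.and (RCp.eq (RC.fst.comp RC.snd) (hc.comp RC.fst)) (RCp.and
    (RCp.eq (RC.fst.comp (RC.snd.comp RC.snd)) (hl.comp RC.fst))
    (RCp.eq (RC.fst.comp (RC.snd.comp (RC.snd.comp RC.snd))) (hb.comp RC.fst)))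

theorem RCp.okE (hsp : RCp Z (fun p : ℕ × ℕ => sp p.1 p.2)) (hDc : RCp Z (fun a => a ∈ D))
    {k : α → ℕ} {T : α → List Ent} {e : α → Ent} (hk : RC Z k) (hT : RC Z T) (he : RC Z e) :
    RCp Z (fun a => OkE sp D (Gs sp D hD).rel (k a) (T a) (e a)) := by
  have c0 : RC Z (fun a => (e a).1) := RC.fst.comp he
  have l0 : RC Z (fun a => (e a).2.1) := RC.fst.comp (RC.snd.comp he)
  have b0 : RC Z (fun a => (e a).2.2.1) := RC.fst.comp (RC.snd.comp (RC.snd.comp he))
  have R0 : RC Z (fun a => (e a).2.2.2) := RC.snd.comp (RC.snd.comp (RC.snd.comp he))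
  have tg : ∀ j : ℕ, RCp Z (fun a => (e a).1.unpair.1 = j) := fun j =>
    RCp.eq c0.unpair1 (RC.const j)
  have x := c0.unpair2.unpair1
  have y := c0.unpair2.unpair2
  have bt : RCp Z (fun a => (e a).2.2.1 = true) := RCp.eq b0 (RC.const true)
  have bf : RCp Z (fun a => (e a).2.2.1 = false) := RCp.eq b0 (RC.const false)
  refine RCp.or ((tg 0).and (bt.iff (RCp.eq (l0.getD x) (l0.getD y)))) (RCp.or
    ((tg 1).and (bt.iff (RCp.relGs hsp hDc x (RC.list_map (g := fun a i => (e a).2.1.getD i 0)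
      y.decodeL ((l0.comp RC.fst).getD RC.snd))))) (RCp.or
    ((tg 2).and (RCp.has hT c0.unpair2 l0 b0.not)) (RCp.or
    ((tg 3).and (bt.and ((RCp.has hT x l0 (RC.const true)).and
      (RCp.has hT y l0 (RC.const true))))) (RCp.or
    ((tg 3).and (bf.and ((RCp.has hT x l0 (RC.const false)).or
      (RCp.has hT y l0 (RC.const false))))) (RCp.or
    ((tg 4).and (bt.and (RCp.ex (f := fun a => (e a).2.2.2)
      (p := fun a z => z ∈ D ∧ Has (T a) (e a).1.unpair.2.unpair.2
        ((e a).2.1.set (e a).1.unpair.2.unpair.1 z) true) R0 ?_)))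
    ((tg 4).and (bf.and ((RCp.complete hsp hDc hk l0 R0).and (RCp.all
      (f := fun a => (e a).2.2.2)
      (p := fun a z => Has (T a) (e a).1.unpair.2.unpair.2
        ((e a).2.1.set (e a).1.unpair.2.unpair.1 z) false) R0 ?_)))))))))
  · exact (hDc.comp RC.snd).and (RCp.has (hT.comp RC.fst) (y.comp RC.fst)
      ((l0.comp RC.fst).listSet (x.comp RC.fst) RC.snd) (RC.const true))
  · exact RCp.has (hT.comp RC.fst) (y.comp RC.fst)
      ((l0.comp RC.fst).listSet (x.comp RC.fst) RC.snd) (RC.const false)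

end

end Pool.Agent.H93PMU
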