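import Mathlib
import Pool.Agent.H93PMU.Decide

/-!
# The elementary diagrams and the theory of the concrete models lie in the ideal
-/

set_option autoImplicit false

namespace Pool.Agent.H93PMU

open Encodable Pool.Agent.H19 Classical

theorem decodeL_encode (n : ℕ) : encode ((decode (α := List ℕ) n).getD []) = n := by
  rw [Denumerable.decode_eq_ofNat, Option.getD_some, Denumerable.encode_ofNat]

section
variable {Z : ℕ → Bool} {sp : ℕ → ℕ → Prop} {D : Set ℕ} {hD : D.Nonempty}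

/-- Well-formed queries: `c` is the code of a formula and the tuple `l` of elements of `D` gives
values to all its free variables. -/
def Query (D : Set ℕ) (c : ℕ) (l : List ℕ) : Prop :=
  (info c).isSome = true ∧ (∀ i ∈ (info c).getD [], i < l.length) ∧ ∀ a ∈ l, a ∈ D

theorem query_iff (D : Set ℕ) (c : ℕ) (l : List ℕ) : Query D c l ↔
    ∃ φ : Fml, c = φ.code ∧ (∀ i ∈ φ.fv, i < l.length) ∧ ∀ a ∈ l, a ∈ D := by
  constructor
  · rintro ⟨h1, h2, h3⟩
    obtain ⟨L, hL⟩ := Option.isSome_iff_exists.1 h1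
    obtain ⟨φ, rfl⟩ := code_of_info c L hL
    obtain ⟨L', hL', h4⟩ := info_code φ
    refine ⟨φ, rfl, fun i hi => h2 i ?_, h3⟩
    rw [hL']
    exact (h4 i).2 hi
  · rintro ⟨φ, rfl, h1, h2⟩
    obtain ⟨L, hL, h4⟩ := info_code φ
    refine ⟨by rw [hL]; rfl, fun i hi => h1 i ?_, h2⟩
    rw [hL] at hi
    exact (h4 i).1 hi

theorem RCp.query (hDc : RCp Z (fun a => a ∈ D)) {α : Type*} [Primcodable α] {c : α → ℕ}
    {l : α → List ℕ} (hc : RC Z c) (hl : RC Z l) : RCp Z (fun a => Query D (c a) (l a)) := by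
  have hi : RC Z (fun a => info (c a)) := RC.comp_computable info_computable hc
  have h1 : RCp Z (fun a => (info (c a)).isSome = true) :=
    RCp.of_bool (RC.comp_computable (g := fun o : Option (List ℕ) => o.isSome)
      Primrec.option_isSome.to_comp hi)
  have h2 : RC Z (fun a => (info (c a)).getD []) :=
    RC.comp_computable (g := fun o : Option (List ℕ) => o.getD [])
      (Computable.option_getD Computable.id (Computable.const [])) hi
  exact h1.and ((RCp.all h2 (RCp.lt RC.snd (hl.comp RC.fst).len)).and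
    (RCp.all hl (hDc.comp RC.snd)))

/-- The elementary diagram of a concrete model is computable in the cut function and domain. -/
theorem ed_rcp (hspu : ∀ n s s', sp n s → sp n s' → s = s') (h : OKD sp D)
    (hsp : RCp Z (fun p : ℕ × ℕ => sp p.1 p.2)) (hDc : RCp Z (fun a => a ∈ D)) :
    RCp Z (fun n => n ∈ ED (Gs sp D hD)) := by
  obtain ⟨d0, hd0⟩ := hD
  -- the padded tuple
  let pad : ℕ → List ℕ → List ℕ := fun c l => l ++ (List.range (c + 1)).map fun _ => d0
  have hpadlen : ∀ c l, (pad c l).length = l.length + (c + 1) := by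
    intro c l; simp [pad]
  have hpadD : ∀ c l, (∀ a ∈ l, a ∈ D) → ∀ a ∈ pad c l, a ∈ D := by
    intro c l hl a ha
    simp only [pad, List.mem_append, List.mem_map] at ha
    rcases ha with ha | ⟨_, _, rfl⟩
    · exact hl a ha
    · exact hd0
  have hpadget : ∀ c l i, i < l.length → (pad c l).getD i 0 = l.getD i 0 := by
    intro c l i hi
    simp only [pad, List.getD_eq_getElem?_getD]
    rw [List.getElem?_append_left hi]
  have hc : RC Z (fun q : ℕ => q.unpair.1) := RC.id.unpair1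
  have hl : RC Z (fun q : ℕ => (decode (α := List ℕ) q.unpair.2).getD []) := RC.id.unpair2.decodeL
  have hpad : RC Z (fun q : ℕ => pad q.unpair.1 ((decode (α := List ℕ) q.unpair.2).getD [])) :=
    RC.comp_computable₂ (f := fun a b : List ℕ => a ++ b) Computable.list_append hl
      (RC.list_map (f := fun q : ℕ => List.range (q.unpair.1 + 1)) (g := fun _ _ => d0)
        (hc.add (RC.const 1)).range (RC.const d0))
  have hsearch : RCp Z (fun p : ℕ × (List Ent × Bool) =>
      Query D p.1.unpair.1 ((decode (α := List ℕ) p.1.unpair.2).getD []) →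
      (∀ e ∈ p.2.1, OkE sp D (Gs sp D ⟨d0, hd0⟩).rel (p.1.unpair.1 + 1) p.2.1 e) ∧
      Has p.2.1 p.1.unpair.1 (pad p.1.unpair.1 ((decode (α := List ℕ) p.1.unpair.2).getD []))
        p.2.2) := by
    refine (RCp.query hDc (hc.comp RC.fst) (hl.comp RC.fst)).imp (RCp.and (RCp.all
      (f := fun p : ℕ × (List Ent × Bool) => p.2.1)
      (p := fun p e => OkE sp D (Gs sp D ⟨d0, hd0⟩).rel (p.1.unpair.1 + 1) p.2.1 e)
      (RC.fst.comp RC.snd) ?_) ?_)
    · exact RCp.okE hsp hDc ((hc.comp (RC.fst.comp RC.fst)).add (RC.const 1))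
        (RC.fst.comp (RC.snd.comp RC.fst)) RC.snd
    · exact RCp.has (RC.fst.comp RC.snd) (hc.comp RC.fst) (hpad.comp RC.fst)
        (RC.snd.comp RC.snd)
  obtain ⟨g, hg1, hg2⟩ := RC.find_coded (Z := Z) (α := ℕ) (β := List Ent × Bool)
    (p := fun q r => Query D q.unpair.1 ((decode (α := List ℕ) q.unpair.2).getD []) →
      (∀ e ∈ r.1, OkE sp D (Gs sp D ⟨d0, hd0⟩).rel (q.unpair.1 + 1) r.1 e) ∧
      Has r.1 q.unpair.1 (pad q.unpair.1 ((decode (α := List ℕ) q.unpair.2).getD [])) r.2)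
    hsearch (by
      intro q
      by_cases hq : Query D q.unpair.1 ((decode (α := List ℕ) q.unpair.2).getD [])
      · obtain ⟨φ, h1, h2, h3⟩ := (query_iff _ _ _).1 hq
        have h4 : φ.vb ≤ (pad q.unpair.1 ((decode (α := List ℕ) q.unpair.2).getD [])).length := by
          rw [hpadlen, h1]
          have := vb_le_code φ
          omega
        obtain ⟨T, b, h5, h6⟩ := cert_complete (hD := ⟨d0, hd0⟩) (k := q.unpair.1 + 1) h φ h4 _
          rfl (hpadD _ _ h3)
        exact ⟨(T, b), fun _ => ⟨h5, h1 ▸ h6⟩⟩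
      · exact ⟨default, fun h' => absurd h' hq⟩)
  refine ((RCp.query hDc hc hl).and (RCp.eq (RC.snd.comp hg1) (RC.const true))).of_iff fun q => ?_
  set l := (decode (α := List ℕ) q.unpair.2).getD [] with hldef
  have hq : q = Nat.pair q.unpair.1 (encode l) := by
    rw [hldef, decodeL_encode, Nat.pair_unpair]
  have key : ∀ φ : Fml, q.unpair.1 = φ.code → (∀ i ∈ φ.fv, i < l.length) → (∀ a ∈ l, a ∈ D) →
      (Sat (Gs sp D ⟨d0, hd0⟩) φ (fun i => l.getD i 0) ↔ (g q).2 = true) := by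
    intro φ h1 h2 h3
    have hQ : Query D q.unpair.1 l := (query_iff _ _ _).2 ⟨φ, h1, h2, h3⟩
    obtain ⟨h5, h6⟩ := hg2 q hQ
    rw [h1] at h5 h6
    have h7 := cert_sound hspu h h5 φ (N := (pad φ.code l).length)
      (by rw [hpadlen]; have := vb_le_code φ; omega) (bnd_le_code φ) _ _ rfl
      (hpadD _ _ h3) h6
    rw [← h7]
    exact sat_congr _ φ fun i hi => (hpadget _ _ _ (h2 i hi)).symm
  constructor
  · rintro ⟨hQ, hb⟩
    obtain ⟨φ, h1, h2, h3⟩ := (query_iff _ _ _).1 hQ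
    rw [hq, h1, mem_ED]
    exact ⟨h2, h3, (key φ h1 h2 h3).2 hb⟩
  · intro hmem
    obtain ⟨φ, l', h1, h2, h3, h4⟩ := hmem
    have h5 : q.unpair.1 = φ.code := by rw [h1]; simp
    have h6 : l = l' := by
      rw [hldef, h1]; simp
    subst h6
    exact ⟨(query_iff _ _ _).2 ⟨φ, h5, h2, h3⟩, (key φ h5 h2 h3).1 h4⟩

/-- The theory of a structure. -/
def Th (A : Str) : Set Fml := {φ | φ.fv = ∅ ∧ Models A φ}

theorem completeTheory_Th (A : Str) : CompleteTheory (Th A) := by
  refine ⟨fun φ h => h.1, ⟨A, fun φ h => h.2⟩, fun ψ hψ => ?_⟩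
  by_cases h : Models A ψ
  · exact Or.inl fun B hB => hB ψ ⟨hψ, h⟩
  · refine Or.inr fun B hB => hB ψ.neg ⟨hψ, ?_⟩
    rw [sentence_models (φ := ψ.neg) hψ (fun _ => 0)]
    rw [sentence_models hψ (fun _ => 0)] at h
    exact h

theorem mem_code_Th (A : Str) (n : ℕ) : n ∈ Fml.code '' (Th A) ↔
    info n = some [] ∧ Nat.pair n (encode ([] : List ℕ)) ∈ ED A := by
  constructor
  · rintro ⟨φ, ⟨h1, h2⟩, rfl⟩
    obtain ⟨L, hL, h3⟩ := info_code φ
    have : L = [] := by
      rw [List.eq_nil_iff_forall_not_mem]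
      intro i hi
      rw [h3, h1] at hi
      simp at hi
    subst this
    refine ⟨hL, mem_ED.2 ⟨by rw [h1]; simp, by simp, ?_⟩⟩
    exact (sentence_models h1 _).1 h2
  · rintro ⟨h1, h2⟩
    obtain ⟨φ, rfl⟩ := code_of_info n [] h1
    obtain ⟨L, hL, h3⟩ := info_code φ
    rw [h1] at hL
    have hfv : φ.fv = ∅ := by
      rw [Finset.eq_empty_iff_forall_notMem]
      intro i hi
      rw [← h3, ← Option.some.inj hL] at hi
      simp at hi
    rw [mem_ED] at h2
    exact ⟨φ, ⟨hfv, (sentence_models hfv _).2 h2.2.2⟩, rfl⟩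

theorem th_rcp {A : Str} (h : RCp Z (fun n => n ∈ ED A)) :
    RCp Z (fun n => n ∈ Fml.code '' (Th A)) := by
  refine ((RCp.eq (RC.of_computable info_computable) (RC.const (some []))).and
    (h.comp (RC.id.natpair (RC.const (encode ([] : List ℕ)))))).of_iff fun n => ?_
  exact (mem_code_Th A n).symm

end

/-! The cut function of a set. -/

/-- The circle `n` is cut at the least stage `s` with `(n, s)` in `X`. -/
def spX (X : Set ℕ) (n s : ℕ) : Prop := Nat.pair n s ∈ X ∧ ∀ m < s, Nat.pair n m ∉ X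

theorem spX_unique (X : Set ℕ) (n s s' : ℕ) (h : spX X n s) (h' : spX X n s') : s = s' := by
  rcases lt_trichotomy s s' with h1 | h1 | h1
  · exact absurd h.1 (h'.2 s h1)
  · exact h1
  · exact absurd h'.1 (h.2 s' h1)

theorem exists_spX (X : Set ℕ) (n : ℕ) : (∃ s, spX X n s) ↔ ∃ m, Nat.pair n m ∈ X := by
  constructor
  · rintro ⟨s, hs⟩; exact ⟨s, hs.1⟩
  · intro h
    exact ⟨Nat.find h, Nat.find_spec h, fun m hm => Nat.find_min h hm⟩

section
variable {Z : ℕ → Bool}

theorem spX_rcp {X : Set ℕ} (hX : RCp Z (fun n => n ∈ X)) :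
    RCp Z (fun p : ℕ × ℕ => spX X p.1 p.2) := by
  refine (hX.comp (RC.fst.natpair RC.snd)).and (RCp.all_lt RC.snd ?_)
  exact (hX.comp ((RC.fst.comp RC.fst).natpair RC.snd)).not

theorem domA_rcp : RCp Z (fun e => e ∈ domA) :=
  (RCp.eq RC.id.tag (RC.const 1)).and
    (RCp.eq RC.id.unpair2.unpair2.unpair1.mod2 (RC.const 1))

theorem domB_rcp {sp : ℕ → ℕ → Prop} (hsp : RCp Z (fun p : ℕ × ℕ => sp p.1 p.2)) :
    RCp Z (fun e => e ∈ domB sp) := by
  refine RCp.or ((RCp.eq RC.id.tag (RC.const 0)).and (RCp.eq RC.id.unpair2.unpair2 (RC.const 0)))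
    (RCp.or ((RCp.eq RC.id.tag (RC.const 1)).and
      (RCp.eq RC.id.unpair2.unpair2.unpair1.mod2 (RC.const 1)))
    ((RCp.le (RC.const 2) RC.id.tag).and
      ((RCp.eq RC.id.unpair2.unpair2.unpair1.mod2 (RC.const 1)).and
        (hsp.comp (RC.id.unpair1.pair (RC.id.tag.sub (RC.const 2)))))))

end

theorem domA_nonempty : domA.Nonempty := ⟨elt 0 1 1 0, elt_mem_domA rfl⟩

theorem domB_nonempty (sp : ℕ → ℕ → Prop) : (domB sp).Nonempty := ⟨elt 0 0 0 0, elt_mem_domB0⟩

/-- An isomorphism between the two models computes the projection. -/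
theorem proj_of_iso {I : Set (Set ℕ)} (hI : TuringIdeal I) {X : Set ℕ} {f : ℕ → ℕ}
    (hf : graph domA f ∈ I)
    (hiso : Iso (Gs (spX X) domA domA_nonempty)
      (Gs (spX X) (domB (spX X)) (domB_nonempty _)) f) :
    {n | ∃ m, Nat.pair n m ∈ X} ∈ I := by
  obtain ⟨⟨hmaps, hinj, hsurj⟩, hrel⟩ := hiso
  have hcirc : ∀ a ∈ domA, circ (f a) = circ a := by
    intro a ha
    have h1 := (hrel (Nat.pair 0 (circ a)) [a] (by
      intro b hb
      rw [List.mem_singleton] at hb
      exact hb ▸ ha)).1 (P_Gs.2 ⟨ha, rfl⟩)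
    exact (P_Gs.1 h1).2
  have hF : RCp (bit (graph domA f)) (fun n => n ∈ graph domA f) := rcp_bit_self _
  -- first search
  obtain ⟨g1, hg1, hg1'⟩ := RC.find_prop (Z := bit (graph domA f)) (α := ℕ)
    (p := fun n a => Nat.pair a (elt n 0 0 0) ∈ graph domA f)
    (hF.comp (RC.snd.natpair (RC.fst.natpair (RC.const (Nat.pair 0 (Nat.pair 0 0))))))
    (by
      intro n
      obtain ⟨a, ha, h1⟩ := hsurj (elt_mem_domB0 (sp := spX X) (n := n))
      exact ⟨a, a, ha, by rw [h1]⟩)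
  have hg1a : ∀ n, g1 n ∈ domA ∧ f (g1 n) = elt n 0 0 0 := by
    intro n
    obtain ⟨a, ha, h1⟩ := hg1' n
    rw [Nat.pair_eq_pair] at h1
    rw [h1.1]
    exact ⟨ha, h1.2.symm⟩
  -- the smaller element
  let low : ℕ → ℕ := fun n => elt n 1 (g1 n).unpair.2.unpair.2.unpair.1
    ((g1 n).unpair.2.unpair.2.unpair.2 + 1)
  have hlow : RC (bit (graph domA f)) low :=
    RC.natpair RC.id (RC.natpair (RC.const 1) (RC.natpair hg1.unpair2.unpair2.unpair1
      (hg1.unpair2.unpair2.unpair2.add (RC.const 1))))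
  have hlowA : ∀ n, low n ∈ domA := fun n => elt_mem_domA (hg1a n).1.2
  have hlowlt : ∀ n, valE (low n) < valE (g1 n) := by
    intro n
    obtain ⟨m, k, hm, he⟩ := elt_of_domA (hg1a n).1
    have h1 : low n = elt n 1 m (k + 1) := by
      simp only [low]
      rw [he]
      simp [elt]
    rw [h1, valE_elt1, valE_of1 he]
    exact dy_down hm
  obtain ⟨g2, hg2, hg2'⟩ := RC.find_prop (Z := bit (graph domA f)) (α := ℕ)
    (p := fun n a => Nat.pair (low n) a ∈ graph domA f)
    (hF.comp ((hlow.comp RC.fst).natpair RC.snd))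
    (fun n => ⟨f (low n), low n, hlowA n, rfl⟩)
  have hg2a : ∀ n, g2 n = f (low n) := by
    intro n
    obtain ⟨a, ha, h1⟩ := hg2' n
    rw [Nat.pair_eq_pair] at h1
    rw [h1.1]
    exact h1.2
  refine hI.mem hf ((RCp.le (RC.const 2) hg2.tag).of_iff fun n => ?_)
  rw [hg2a n]
  have hcn : circ (f (low n)) = n := by rw [hcirc _ (hlowA n)]; exact circ_elt
  have hmem : f (low n) ∈ domB (spX X) := hmaps (hlowA n)
  simp only [Set.mem_ofPred_eq]
  rw [← exists_spX]
  constructor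
  · intro h2
    rcases elt_of_domB hmem with h | ⟨m, k, _, h⟩ | ⟨s, m, k, _, hs, _⟩
    · rw [h] at h2; simp [elt] at h2
    · rw [h] at h2; simp [elt] at h2
    · rw [hcn] at hs
      exact ⟨s, hs⟩
  · rintro ⟨s, hs⟩
    have hcg : circ (g1 n) = n := by
      rw [← hcirc _ (hg1a n).1, (hg1a n).2]; exact circ_elt
    have hR : R (Gs (spX X) domA domA_nonempty) n s (low n) (g1 n) :=
      R_Gs.2 ⟨hs, ⟨hlowA n, (hg1a n).1⟩, ⟨circ_elt, hcg⟩, hlowlt n⟩
    have hR' := (hrel (Nat.pair 2 (Nat.pair n s)) [low n, g1 n] (by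
      intro b hb
      rcases List.mem_cons.1 hb with rfl | hb
      · exact hlowA n
      · rw [List.mem_singleton] at hb
        exact hb ▸ (hg1a n).1)).1 hR
    have hlt := (R_Gs.1 hR').2.2.2
    rw [(hg1a n).2, valE_elt0] at hlt
    rcases elt_of_domB hmem with h | ⟨m, k, hm, h⟩ | ⟨s', m, k, _, _, h⟩
    · rw [valE_of0 h] at hlt; exact absurd hlt (lt_irrefl _)
    · rw [valE_of1 h] at hlt
      exact absurd (dy_pos (k := k) hm) hlt.not_gt
    · rw [h]; simp [elt]

/-- The main argument of the failure half, given that both models are prime. -/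
theorem proj_of_pmu {I : Set (Set ℕ)} (hI : TuringIdeal I) (hP : PMU I) {X : Set ℕ} (hX : X ∈ I)
    (hA : PrimeIn I (Gs (spX X) domA domA_nonempty))
    (hB : PrimeIn I (Gs (spX X) (domB (spX X)) (domB_nonempty _))) :
    {n | ∃ m, Nat.pair n m ∈ X} ∈ I := by
  have hspc : RCp (bit X) (fun p : ℕ × ℕ => spX X p.1 p.2) := spX_rcp (rcp_bit_self X)
  have hEA : RCp (bit X) (fun n => n ∈ ED (Gs (spX X) domA domA_nonempty)) :=
    ed_rcp (spX_unique X) (okd_A _) hspc domA_rcp
  have hEB : RCp (bit X) (fun n => n ∈ ED (Gs (spX X) (domB (spX X)) (domB_nonempty _))) :=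
    ed_rcp (spX_unique X) (okd_B (spX_unique X)) hspc (domB_rcp hspc)
  have hAB : ElemEquiv (Gs (spX X) domA domA_nonempty)
      (Gs (spX X) (domB (spX X)) (domB_nonempty _)) :=
    Good.elemEquiv (spX_unique X) (good_Gs (okd_A _)) (good_Gs (okd_B (spX_unique X)))
  obtain ⟨f, hf, hiso⟩ := hP (Th (Gs (spX X) domA domA_nonempty))
    (hI.mem hX (th_rcp hEA)) (completeTheory_Th _) _ _ (hI.mem hX hEA) (hI.mem hX hEB)
    (fun φ h => h.2) (fun φ h => (hAB φ h.1).1 h.2) hA hB
  exact proj_of_iso hI hf hiso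

end Pool.Agent.H93PMU
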