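import Mathlib
import Pool.Agent.H93PMU.Diagram

/-!
# The concrete models are prime in ideals satisfying weak Koenig's lemma
-/

set_option autoImplicit false

namespace Pool.Agent.H93PMU

open Encodable Pool.Agent.H19 Classical

/-! Atomic facts about `M` are decidable from its elementary diagram. -/

section
variable {Z : ℕ → Bool} {M : Str} {α : Type*} [Primcodable α]

theorem RC.enc {β : Type*} [Primcodable β] {f : α → β} (hf : RC Z f) :
    RC Z (fun a => encode (f a)) := RC.comp_computable Computable.encode hf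

theorem RC.consL {f : α → ℕ} {g : α → List ℕ} (hf : RC Z f) (hg : RC Z g) :
    RC Z (fun a => f a :: g a) :=
  RC.comp_computable₂ (f := fun (a : ℕ) (l : List ℕ) => a :: l) Computable.list_cons hf hg

theorem dom_rcp (h : RCp Z (fun n => n ∈ ED M)) : RCp Z (fun a => a ∈ M.dom) := by
  refine (h.comp ((RC.const (Fml.eq 0 0).code).natpair
    (RC.enc (RC.consL RC.id (RC.const []))))).of_iff fun a => ?_
  rw [mem_ED]
  simp [Fml.fv, Sat]

theorem P_rcp (h : RCp Z (fun n => n ∈ ED M)) {n a : α → ℕ} (hn : RC Z n) (ha : RC Z a) :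
    RCp Z (fun q => a q ∈ M.dom ∧ P M (n q) (a q)) := by
  refine (h.comp (((RC.const 1).natpair (((RC.const 0).natpair hn).natpair
    (RC.const (encode [0])))).natpair
    (RC.enc (RC.consL ha (RC.const []))))).of_iff fun q => ?_
  change Nat.pair (fP (n q) 0).code (encode [a q]) ∈ ED M ↔ _
  rw [mem_ED]
  simp [fP, Fml.fv, Sat, P]

theorem C_rcp (h : RCp Z (fun n => n ∈ ED M)) {n a b c : α → ℕ} (hn : RC Z n) (ha : RC Z a)
    (hb : RC Z b) (hc : RC Z c) :
    RCp Z (fun q => (a q ∈ M.dom ∧ b q ∈ M.dom ∧ c q ∈ M.dom) ∧ C M (n q) (a q) (b q) (c q)) := by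
  refine (h.comp (((RC.const 1).natpair (((RC.const 1).natpair hn).natpair
    (RC.const (encode [0, 1, 2])))).natpair
    (RC.enc (RC.consL ha (RC.consL hb (RC.consL hc (RC.const []))))))).of_iff fun q => ?_
  change Nat.pair (fC (n q) 0 1 2).code (encode [a q, b q, c q]) ∈ ED M ↔ _
  rw [mem_ED]
  simp [fC, Fml.fv, Sat, C]

theorem R_rcp (h : RCp Z (fun n => n ∈ ED M)) {n s a b : α → ℕ} (hn : RC Z n) (hs : RC Z s)
    (ha : RC Z a) (hb : RC Z b) :
    RCp Z (fun q => (a q ∈ M.dom ∧ b q ∈ M.dom) ∧ R M (n q) (s q) (a q) (b q)) := by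
  refine (h.comp (((RC.const 1).natpair (((RC.const 2).natpair (hn.natpair hs)).natpair
    (RC.const (encode [0, 1])))).natpair
    (RC.enc (RC.consL ha (RC.consL hb (RC.const [])))))).of_iff fun q => ?_
  change Nat.pair (fR (n q) (s q) 0 1).code (encode [a q, b q]) ∈ ED M ↔ _
  rw [mem_ED]
  simp [fR, Fml.fv, Sat, R]

end

section
variable {sp : ℕ → ℕ → Prop} {M : Str}

/-- In the arc from `u` to `v`, which is not cut, the linear order is the circular order. -/
theorem Good.arc_R (hM : Good sp M) {n s u v y : ℕ} (hs : sp n s) (hu : u ∈ M.dom)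
    (hv : v ∈ M.dom) (hy : y ∈ M.dom) (huv : R M n s u v) (h : C M n u y v) : R M n s u y := by
  have hP := hM.cP n u hu y hy v hv h
  rcases (hM.rcyc n s hs u hu y hy v hv hP.1 hP.2.1 hP.2.2.1).1 h with h1 | h1 | h1
  · exact h1.1
  · exact absurd h1.2 (hM.rasym n s u hu v hv huv)
  · exact absurd h1.1 (hM.rasym n s u hu v hv huv)

theorem Good.arc_R' (hM : Good sp M) {n s u v y z : ℕ} (hs : sp n s) (hu : u ∈ M.dom)
    (hv : v ∈ M.dom) (hy : y ∈ M.dom) (hz : z ∈ M.dom) (huv : R M n s u v) (h1 : C M n u y v)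
    (h2 : C M n u z v) (h : C M n u y z) : R M n s y z := by
  have hy' := hM.arc_R hs hu hv hy huv h1
  have hz' := hM.arc_R hs hu hv hz huv h2
  have hP := hM.cP n u hu y hy z hz h
  rcases (hM.rcyc n s hs u hu y hy z hz hP.1 hP.2.1 hP.2.2.1).1 h with h3 | h3 | h3
  · exact h3.2
  · exact h3.1
  · exact absurd h3.1 (hM.rasym n s u hu z hz hz')

end

/-- A state of the construction: a finite part of the embedding. -/
def GoodSt (D : Set ℕ) (M : Str) (u v : ℕ → ℕ) (st : List (ℕ × ℕ)) : Prop :=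
  (∀ p ∈ st, p.1 ∈ D ∧ (u (circ p.1) ∈ M.dom ∧ p.2 ∈ M.dom ∧ v (circ p.1) ∈ M.dom) ∧
    C M (circ p.1) (u (circ p.1)) p.2 (v (circ p.1))) ∧
  ∀ p ∈ st, ∀ q ∈ st, circ p.1 = circ q.1 → valE p.1 < valE q.1 →
    (u (circ p.1) ∈ M.dom ∧ p.2 ∈ M.dom ∧ q.2 ∈ M.dom) ∧
      C M (circ p.1) (u (circ p.1)) p.2 q.2

/-- The point `y` is a correct image for `e`. -/
def GoodPt (M : Str) (u v : ℕ → ℕ) (st : List (ℕ × ℕ)) (e y : ℕ) : Prop :=
  ((u (circ e) ∈ M.dom ∧ y ∈ M.dom ∧ v (circ e) ∈ M.dom) ∧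
    C M (circ e) (u (circ e)) y (v (circ e))) ∧
  ∀ p ∈ st, circ p.1 = circ e →
    (valE p.1 < valE e → (u (circ e) ∈ M.dom ∧ p.2 ∈ M.dom ∧ y ∈ M.dom) ∧
      C M (circ e) (u (circ e)) p.2 y) ∧
    (valE e < valE p.1 → (u (circ e) ∈ M.dom ∧ y ∈ M.dom ∧ p.2 ∈ M.dom) ∧
      C M (circ e) (u (circ e)) y p.2)

section
variable {sp : ℕ → ℕ → Prop} {M : Str} {D : Set ℕ} {u v : ℕ → ℕ}

theorem exists_goodPt (hM : Good sp M) (huv : ∀ n, u n ∈ M.dom ∧ v n ∈ M.dom ∧ P M n (u n) ∧
    P M n (v n) ∧ u n ≠ v n) {st : List (ℕ × ℕ)} (hst : GoodSt D M u v st) (e : ℕ) :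
    ∃ y, GoodPt M u v st e y := by
  obtain ⟨hu, hv, hPu, hPv, hne⟩ := huv (circ e)
  set n := circ e with hn
  let L : Finset ℕ := (((st.filter fun p => decide (circ p.1 = n ∧ valE p.1 < valE e)).map
    Prod.snd)).toFinset
  let U : Finset ℕ := insert (v n) (((st.filter fun p => decide (circ p.1 = n ∧
    valE e < valE p.1)).map Prod.snd)).toFinset
  have mL : ∀ y, y ∈ L ↔ ∃ a, (a, y) ∈ st ∧ circ a = n ∧ valE a < valE e := by
    intro y; simp [L]
  have mU : ∀ y, y ∈ U ↔ y = v n ∨ ∃ a, (a, y) ∈ st ∧ circ a = n ∧ valE e < valE a := by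
    intro y; simp [U]
  have hmem : ∀ a y, (a, y) ∈ st → circ a = n → y ∈ M.dom ∧ C M n (u n) y (v n) := by
    intro a y h1 h2
    have := (hst.1 _ h1).2
    simp only [h2] at this
    exact ⟨this.1.2.1, this.2⟩
  have hPy : ∀ y, y ∈ M.dom → C M n (u n) y (v n) → P M n y ∧ y ≠ u n := by
    intro y hy h
    have := hM.cP n _ hu _ hy _ hv h
    exact ⟨this.2.1, this.2.2.2.1.symm⟩
  obtain ⟨b, hb, hb1, hb2, hb3, hb4⟩ := hM.fillC hu hPu L U
    (by
      intro y hy
      obtain ⟨a, h1, h2, h3⟩ := (mL y).1 hy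
      have h4 := hmem a y h1 h2
      exact ⟨h4.1, hPy y h4.1 h4.2⟩)
    (by
      intro y hy
      rcases (mU y).1 hy with rfl | ⟨a, h1, h2, h3⟩
      · exact ⟨hv, hPv, hne.symm⟩
      · have h4 := hmem a y h1 h2
        exact ⟨h4.1, hPy y h4.1 h4.2⟩)
    (by
      intro y hy z hz
      obtain ⟨a, h1, h2, h3⟩ := (mL y).1 hy
      rcases (mU z).1 hz with rfl | ⟨a', h1', h2', h3'⟩
      · exact (hmem a y h1 h2).2
      · have := hst.2 _ h1 _ h1' (h2.trans h2'.symm) (h3.trans h3')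
        simp only [h2] at this
        exact this.2)
  refine ⟨b, ⟨⟨hu, hb, hv⟩, hb4 _ ((mU _).2 (Or.inl rfl))⟩, ?_⟩
  rintro ⟨a, y⟩ hp hc
  simp only at hc
  have hy := hmem a y hp hc
  refine ⟨fun h => ⟨⟨hu, hy.1, hb⟩, hb3 y ((mL y).2 ⟨a, hp, hc, h⟩)⟩, fun h =>
    ⟨⟨hu, hb, hy.1⟩, hb4 y ((mU y).2 (Or.inr ⟨a, hp, hc, h⟩))⟩⟩

theorem goodSt_cons {st : List (ℕ × ℕ)} (hst : GoodSt D M u v st) {e y : ℕ} (he : e ∈ D)
    (hy : GoodPt M u v st e y) : GoodSt D M u v ((e, y) :: st) := by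
  constructor
  · intro p hp
    rcases List.mem_cons.1 hp with rfl | hp
    · exact ⟨he, hy.1⟩
    · exact hst.1 p hp
  · intro p hp q hq hc hlt
    rcases List.mem_cons.1 hp with rfl | hp <;> rcases List.mem_cons.1 hq with rfl | hq
    · exact absurd hlt (lt_irrefl _)
    · exact (hy.2 q hq hc.symm).2 hlt
    · have := (hy.2 p hp hc).1 hlt
      simp only [hc]
      exact this
    · exact hst.2 p hp q hq hc hlt

variable {Z : ℕ → Bool}

theorem goodSt_rcp (hD : RCp Z (fun a => a ∈ D)) (h : RCp Z (fun n => n ∈ ED M))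
    (hu : RC Z u) (hv : RC Z v) {α : Type*} [Primcodable α] {st : α → List (ℕ × ℕ)}
    (hst : RC Z st) : RCp Z (fun q => GoodSt D M u v (st q)) := by
  refine RCp.and (RCp.all hst ?_) (RCp.all hst (RCp.all
    (f := fun q : α × (ℕ × ℕ) => st q.1)
    (p := fun q r => circ q.2.1 = circ r.1 → valE q.2.1 < valE r.1 →
      (u (circ q.2.1) ∈ M.dom ∧ q.2.2 ∈ M.dom ∧ r.2 ∈ M.dom) ∧
      C M (circ q.2.1) (u (circ q.2.1)) q.2.2 r.2) (hst.comp RC.fst) ?_))
  · have h1 : RC Z (fun q : α × (ℕ × ℕ) => q.2.1) := RC.fst.comp RC.snd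
    have h2 : RC Z (fun q : α × (ℕ × ℕ) => q.2.2) := RC.snd.comp RC.snd
    exact (hD.comp h1).and (C_rcp h h1.circ (hu.comp h1.circ) h2 (hv.comp h1.circ))
  · have h1 : RC Z (fun q : (α × (ℕ × ℕ)) × (ℕ × ℕ) => q.1.2.1) :=
      RC.fst.comp (RC.snd.comp RC.fst)
    have h2 : RC Z (fun q : (α × (ℕ × ℕ)) × (ℕ × ℕ) => q.1.2.2) :=
      RC.snd.comp (RC.snd.comp RC.fst)
    have h3 : RC Z (fun q : (α × (ℕ × ℕ)) × (ℕ × ℕ) => q.2.1) := RC.fst.comp RC.snd
    have h4 : RC Z (fun q : (α × (ℕ × ℕ)) × (ℕ × ℕ) => q.2.2) := RC.snd.comp RC.snd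
    exact (RCp.eq h1.circ h3.circ).imp ((RCp.valE_lt h1 h3).imp
      (C_rcp h h1.circ (hu.comp h1.circ) h2 h4))

theorem goodPt_rcp (h : RCp Z (fun n => n ∈ ED M))
    (hu : RC Z u) (hv : RC Z v) {α : Type*} [Primcodable α] {st : α → List (ℕ × ℕ)}
    {e y : α → ℕ} (hst : RC Z st) (he : RC Z e) (hy : RC Z y) :
    RCp Z (fun q => GoodPt M u v (st q) (e q) (y q)) := by
  refine RCp.and (C_rcp h he.circ (hu.comp he.circ) hy (hv.comp he.circ)) (RCp.all hst ?_)
  have h1 : RC Z (fun q : α × (ℕ × ℕ) => q.2.1) := RC.fst.comp RC.snd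
  have h2 : RC Z (fun q : α × (ℕ × ℕ) => q.2.2) := RC.snd.comp RC.snd
  have he' := he.comp (RC.fst (Z := Z) (α := α) (β := ℕ × ℕ))
  have hy' := hy.comp (RC.fst (Z := Z) (α := α) (β := ℕ × ℕ))
  exact (RCp.eq h1.circ he'.circ).imp (((RCp.valE_lt h1 he').imp
    (C_rcp h he'.circ (hu.comp he'.circ) h2 hy')).and ((RCp.valE_lt he' h1).imp
    (C_rcp h he'.circ (hu.comp he'.circ) hy' h2)))

/-- The order-preserving map in the arcs. -/
theorem exists_arc_map (hM : Good sp M) (huv : ∀ n, u n ∈ M.dom ∧ v n ∈ M.dom ∧ P M n (u n) ∧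
    P M n (v n) ∧ u n ≠ v n) (hD : RCp Z (fun a => a ∈ D)) (h : RCp Z (fun n => n ∈ ED M))
    (hu : RC Z u) (hv : RC Z v) : ∃ f : ℕ → ℕ, RC Z f ∧
      (∀ e ∈ D, f e ∈ M.dom ∧ C M (circ e) (u (circ e)) (f e) (v (circ e))) ∧
      ∀ a ∈ D, ∀ b ∈ D, circ a = circ b → valE a < valE b →
        C M (circ a) (u (circ a)) (f a) (f b) := by
  obtain ⟨g, hg, hg'⟩ := RC.find_prop (Z := Z) (α := List (ℕ × ℕ) × ℕ)
    (p := fun q y => GoodSt D M u v q.1 → GoodPt M u v q.1 q.2 y)
    ((goodSt_rcp hD h hu hv (RC.fst.comp RC.fst)).imp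
      (goodPt_rcp h hu hv (RC.fst.comp RC.fst) (RC.snd.comp RC.fst) RC.snd))
    (fun q => by
      by_cases hq : GoodSt D M u v q.1
      · obtain ⟨y, hy⟩ := exists_goodPt hM huv hq q.2
        exact ⟨y, fun _ => hy⟩
      · exact ⟨0, fun h => absurd h hq⟩)
  -- the sequence of states
  let step : List (ℕ × ℕ) → ℕ → List (ℕ × ℕ) := fun st e =>
    if e ∈ D then (e, g (st, e)) :: st else st
  let st : ℕ → List (ℕ × ℕ) := fun n => Nat.rec [] (fun e s => step s e) n
  have st_succ : ∀ e, st (e + 1) = step (st e) e := fun e => rfl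
  have hstep : RC Z (fun q : ℕ × (ℕ × List (ℕ × ℕ)) => step q.2.2 q.2.1) := by
    have h1 : RC Z (fun q : ℕ × (ℕ × List (ℕ × ℕ)) => q.2.1) := RC.fst.comp RC.snd
    have h2 : RC Z (fun q : ℕ × (ℕ × List (ℕ × ℕ)) => q.2.2) := RC.snd.comp RC.snd
    exact RC.ite_prop (hD.comp h1) (RC.comp_computable₂
      (f := fun (a : ℕ × ℕ) (l : List (ℕ × ℕ)) => a :: l) Computable.list_cons
      (h1.pair (hg.comp (h2.pair h1))) h2) h2
  have hst : RC Z st := by
    have := RC.nat_rec (Z := Z) (f := fun n : ℕ => n) (g := fun _ : ℕ => ([] : List (ℕ × ℕ)))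
      (h := fun _ q => step q.2 q.1) RC.id (RC.const []) hstep
    exact this
  have hgood : ∀ n, GoodSt D M u v (st n) := by
    intro n
    induction n with
    | zero => exact ⟨by simp [st], by simp [st]⟩
    | succ e ih =>
      rw [st_succ]
      simp only [step]
      split_ifs with he
      · exact goodSt_cons ih he (hg' (st e, e) ih)
      · exact ih
  have hmem : ∀ n, ∀ e < n, e ∈ D → (e, g (st e, e)) ∈ st n := by
    intro n
    induction n with
    | zero => intro e he; omega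
    | succ m ih =>
      intro e he heD
      rw [st_succ]
      simp only [step]
      rcases Nat.lt_succ_iff_lt_or_eq.1 he with h1 | h1
      · split_ifs
        · exact List.mem_cons_of_mem _ (ih e h1 heD)
        · exact ih e h1 heD
      · subst h1
        rw [if_pos heD]
        exact List.mem_cons_self
  refine ⟨fun e => g (st e, e), hg.comp (hst.pair RC.id), ?_, ?_⟩
  · intro e he
    have := (hgood (e + 1)).1 _ (hmem (e + 1) e (Nat.lt_succ_self e) he)
    exact ⟨this.2.1.2.1, this.2.2⟩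
  · intro a ha b hb hc hlt
    have h1 := hmem (max a b + 1) a (by omega) ha
    have h2 := hmem (max a b + 1) b (by omega) hb
    exact ((hgood (max a b + 1)).2 _ h1 _ h2 hc hlt).2

end

/-- The map in safe arcs is an elementary embedding. -/
theorem elemEmb_of_arc {sp : ℕ → ℕ → Prop} (hspu : ∀ n s s', sp n s → sp n s' → s = s')
    {D : Set ℕ} {hD : D.Nonempty} (hok : OKD sp D) {M : Str} (hM : Good sp M) {u v : ℕ → ℕ}
    (huv : ∀ n, u n ∈ M.dom ∧ v n ∈ M.dom ∧ P M n (u n) ∧ P M n (v n) ∧ u n ≠ v n)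
    (hsafe : ∀ n s, sp n s → R M n s (u n) (v n)) {f : ℕ → ℕ}
    (h1 : ∀ e ∈ D, f e ∈ M.dom ∧ C M (circ e) (u (circ e)) (f e) (v (circ e)))
    (h2 : ∀ a ∈ D, ∀ b ∈ D, circ a = circ b → valE a < valE b →
      C M (circ a) (u (circ a)) (f a) (f b)) : ElemEmb (Gs sp D hD) M f := by
  have hP : ∀ e ∈ D, P M (circ e) (f e) ∧ f e ≠ u (circ e) := by
    intro e he
    have := hM.cP _ _ (huv _).1 _ (h1 e he).1 _ (huv _).2.1 (h1 e he).2
    exact ⟨this.2.1, this.2.2.2.1.symm⟩
  have hPn : ∀ n, ∀ e ∈ D, P M n (f e) → circ e = n := fun n e he h =>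
    hM.disj _ _ _ (h1 e he).1 (hP e he).1 h
  have hne : ∀ a ∈ D, ∀ b ∈ D, a ≠ b → circ a = circ b → valE a < valE b ∨ valE b < valE a :=
    fun a ha b hb hab hc => lt_or_gt_of_ne fun h => hab (hok.inj a ha b hb hc h)
  have hCiff : ∀ a ∈ D, ∀ b ∈ D, circ a = circ b →
      (C M (circ a) (u (circ a)) (f a) (f b) ↔ valE a < valE b) := by
    intro a ha b hb hc
    refine ⟨fun h => ?_, h2 a ha b hb hc⟩
    by_contra hlt
    by_cases hab : a = b
    · subst hab
      exact hM.not_C_abb (huv _).1 (h1 a ha).1 h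
    · rcases hne a ha b hb hab hc with h3 | h3
      · exact hlt h3
      · have h4 := h2 b hb a ha hc.symm h3
        rw [← hc] at h4
        exact hM.asym _ _ (huv _).1 _ (h1 a ha).1 _ (h1 b hb).1 h h4
  refine Good.elemEmb hspu (good_Gs hok) hM (fun a ha => (h1 a ha).1) ?_ ?_ ?_ ?_
  · intro a ha b hb hab
    by_contra hne'
    have hc : circ a = circ b := by
      refine hPn (circ b) a ha ?_
      rw [hab]; exact (hP b hb).1
    rcases hne a ha b hb hne' hc with h3 | h3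
    · have := (hCiff a ha b hb hc).2 h3
      rw [hab] at this
      exact hM.not_C_abb (huv _).1 (h1 b hb).1 this
    · have := (hCiff b hb a ha hc.symm).2 h3
      rw [hab] at this
      exact hM.not_C_abb (huv _).1 (h1 b hb).1 this
  · intro n a ha
    rw [P_Gs]
    constructor
    · rintro ⟨_, rfl⟩
      exact (hP a ha).1
    · intro h
      exact ⟨ha, hPn n a ha h⟩
  · intro n a ha b hb c hc
    rw [C_Gs]
    by_cases hcirc : circ a = n ∧ circ b = n ∧ circ c = n
    · obtain ⟨rfl, e2, e3⟩ := hcirc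
      have hb2 := hM.base (circ a) (u (circ a)) (huv _).1 (f a) (h1 a ha).1 (f b) (h1 b hb).1
        (f c) (h1 c hc).1 (huv _).2.2.1 (hP a ha).1 (e2 ▸ (hP b hb).1) (e3 ▸ (hP c hc).1)
        (hP a ha).2.symm (e2 ▸ (hP b hb).2.symm) (e3 ▸ (hP c hc).2.symm)
      have i1 := hCiff a ha b hb e2.symm
      have i2 := hCiff b hb c hc (e2.trans e3.symm)
      have i3 := hCiff c hc a ha e3
      rw [e2] at i2
      rw [e3] at i3
      rw [hb2, i1, i2, i3]
      simp only [e2, e3, and_self, true_and]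
      constructor
      · rintro ⟨_, h⟩; exact h
      · intro h; exact ⟨⟨ha, hb, hc⟩, h⟩
    · constructor
      · intro h; exact absurd h.2.1 hcirc
      · intro h
        have := hM.cP n _ (h1 a ha).1 _ (h1 b hb).1 _ (h1 c hc).1 h
        exact absurd ⟨hPn n a ha this.1, hPn n b hb this.2.1, hPn n c hc this.2.2.1⟩ hcirc
  · intro n s a ha b hb
    rw [R_Gs]
    have key : ∀ a ∈ D, ∀ b ∈ D, sp n s → circ a = n → circ b = n → valE a < valE b →
        R M n s (f a) (f b) := by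
      intro a ha b hb hs e1 e2 hlt
      have g1 := (h1 a ha).2
      have g2 := (h1 b hb).2
      have g3 := h2 a ha b hb (e1.trans e2.symm) hlt
      rw [e1] at g1 g3
      rw [e2] at g2
      exact hM.arc_R' hs (huv n).1 (huv n).2.1 (h1 a ha).1 (h1 b hb).1 (hsafe n s hs) g1 g2 g3
    constructor
    · rintro ⟨hs, _, ⟨e1, e2⟩, hlt⟩
      exact key a ha b hb hs e1 e2 hlt
    · intro h
      have h3 := hM.rP n s _ (h1 a ha).1 _ (h1 b hb).1 h
      have e1 := hPn n a ha h3.2.1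
      have e2 := hPn n b hb h3.2.2
      refine ⟨h3.1, ⟨ha, hb⟩, ⟨e1, e2⟩, ?_⟩
      by_contra hlt
      by_cases hab : a = b
      · subst hab
        exact hM.not_R_aa (h1 a ha).1 h
      · rcases hne a ha b hb hab (e1.trans e2.symm) with h4 | h4
        · exact hlt h4
        · exact hM.rasym n s _ (h1 a ha).1 _ (h1 b hb).1 h (key b hb a ha h3.1 e2 e1 h4)

/-- The concrete models are prime in Scott ideals. -/
theorem primeIn_Gs {I : Set (Set ℕ)} (hI : TuringIdeal I) (hW : WKL I) {X D : Set ℕ}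
    (hX : X ∈ I) (hDI : D ∈ I) (hD : D.Nonempty) (hok : OKD (spX X) D) :
    PrimeIn I (Gs (spX X) D hD) := by
  intro M hM hAM
  have hG : Good (spX X) M := Good.transfer (good_Gs hok) hAM
  obtain ⟨W1, hW1, hW1X, hW1D⟩ := hI.join2 hX hDI
  obtain ⟨W, hWI, hWW1, hWM⟩ := hI.join2 hW1 hM
  have cX : RCp (bit W) (fun n => n ∈ X) := hW1X.trans_oracle hWW1
  -- base points
  obtain ⟨x0, hx0, hx0'⟩ := RC.find_prop (Z := bit W) (α := ℕ)
    (p := fun n a => a ∈ M.dom ∧ P M n a) (P_rcp hWM RC.fst RC.snd) (fun n => hG.ne n)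
  obtain ⟨x1, hx1, hx1'⟩ := RC.find_prop (Z := bit W) (α := ℕ)
    (p := fun n a => (a ∈ M.dom ∧ P M n a) ∧ ¬ a = x0 n)
    ((P_rcp hWM RC.fst RC.snd).and (RCp.eq RC.snd (hx0.comp RC.fst)).not)
    (fun n => by
      obtain ⟨a, h1, h2, h3⟩ := hG.two n (x0 n) (hx0' n).1 (hx0' n).2
      exact ⟨a, ⟨h1, h2⟩, h3⟩)
  -- the tree
  let Tr : List Bool → Prop := fun σ => ∀ n < σ.length, ∀ s < σ.length, spX X n s →
    ((σ.getD n false = true → (x0 n ∈ M.dom ∧ x1 n ∈ M.dom) ∧ R M n s (x0 n) (x1 n)) ∧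
      (¬ σ.getD n false = true → (x1 n ∈ M.dom ∧ x0 n ∈ M.dom) ∧ R M n s (x1 n) (x0 n)))
  have hTr : RCp (bit W) Tr := by
    have hlen : RC (bit W) (fun σ : List Bool => σ.length) :=
      RC.of_computable Computable.list_length
    have hget : RC (bit W) (fun q : (List Bool × ℕ) × ℕ => q.1.1.getD q.1.2 false) := by
      have h1 : Computable (fun p : List Bool × ℕ => p.1.getD p.2 false) := by
        have h2 : Computable (fun p : List Bool × ℕ => (p.1[p.2]?).getD false) :=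
          Computable.option_getD (Computable.list_getElem?.comp Computable.fst Computable.snd)
            (Computable.const false)
        exact h2.of_eq fun p => (List.getD_eq_getElem?_getD ..).symm
      exact RC.comp_computable (g := fun p : List Bool × ℕ => p.1.getD p.2 false) h1 RC.fst
    refine RCp.all_lt hlen (RCp.all_lt (f := fun q : List Bool × ℕ => q.1.length)
      (p := fun q s => spX X q.2 s →
        ((q.1.getD q.2 false = true → (x0 q.2 ∈ M.dom ∧ x1 q.2 ∈ M.dom) ∧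
          R M q.2 s (x0 q.2) (x1 q.2)) ∧
        (¬ q.1.getD q.2 false = true → (x1 q.2 ∈ M.dom ∧ x0 q.2 ∈ M.dom) ∧
          R M q.2 s (x1 q.2) (x0 q.2)))) (hlen.comp RC.fst) ?_)
    have hn : RC (bit W) (fun q : (List Bool × ℕ) × ℕ => q.1.2) := RC.snd.comp RC.fst
    refine ((spX_rcp cX).comp (hn.pair RC.snd)).imp (RCp.and (RCp.imp (RCp.eq hget (RC.const true))
      (R_rcp hWM hn RC.snd (hx0.comp hn) (hx1.comp hn))) (RCp.imp (RCp.eq hget
      (RC.const true)).not (R_rcp hWM hn RC.snd (hx1.comp hn) (hx0.comp hn))))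
  let S : Set ℕ := {n | ∃ σ : List Bool, encode σ = n ∧ Tr σ}
  have hSmem : ∀ σ : List Bool, encode σ ∈ S ↔ Tr σ := by
    intro σ
    constructor
    · rintro ⟨τ, h1, h2⟩
      rwa [encode_injective h1] at h2
    · intro h; exact ⟨σ, rfl, h⟩
  have hSI : S ∈ I := by
    refine hI.mem hWI ?_
    have hdec : RC (bit W) (fun n : ℕ => (decode (α := List Bool) n).getD []) :=
      RC.of_computable (Computable.option_getD Computable.decode (Computable.const []))
    refine ((RCp.eq (hdec.enc) RC.id).and (hTr.comp hdec)).of_iff fun n => ?_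
    constructor
    · rintro ⟨h1, h2⟩
      exact ⟨_, h1, h2⟩
    · rintro ⟨σ, rfl, h2⟩
      simp only [encodek, Option.getD_some, true_and]
      exact h2
  have hsepR : ∀ n s, spX X n s → R M n s (x0 n) (x1 n) ∨ R M n s (x1 n) (x0 n) :=
    fun n s hs => hG.rtotal n s hs _ (hx0' n).1 _ (hx1' n).1.1 (hx0' n).2 (hx1' n).1.2
      fun h => (hx1' n).2 h.symm
  obtain ⟨Y, hY, hYS⟩ := hW S hSI
    (by
      intro σ τ h
      rw [hSmem] at h ⊢
      intro n hn s hs hsp
      have h1 := h n (by simp; omega) s (by simp; omega) hsp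
      have h2 : (σ ++ τ).getD n false = σ.getD n false := by
        simp only [List.getD_eq_getElem?_getD]
        rw [List.getElem?_append_left hn]
      rwa [h2] at h1)
    (by
      intro k
      refine ⟨(List.range k).map fun n => decide (∀ s, spX X n s → R M n s (x0 n) (x1 n)),
        by simp, ?_⟩
      rw [hSmem]
      intro n hn s _ hsp
      simp only [List.length_map, List.length_range] at hn
      have h1 : ((List.range k).map fun n => decide (∀ s, spX X n s →
          R M n s (x0 n) (x1 n))).getD n false =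
          decide (∀ s, spX X n s → R M n s (x0 n) (x1 n)) := by
        rw [List.getD_eq_getElem _ _ (by simpa using hn)]
        simp
      rw [h1, decide_eq_true_eq]
      refine ⟨fun h => ⟨⟨(hx0' n).1, (hx1' n).1.1⟩, h s hsp⟩, fun h =>
        ⟨⟨(hx1' n).1.1, (hx0' n).1⟩, ?_⟩⟩
      rcases hsepR n s hsp with h2 | h2
      · refine absurd (fun s' hs' => ?_) h
        rw [spX_unique X n s' s hs' hsp]
        exact h2
      · exact h2)
  have hYsafe : ∀ n s, spX X n s → (n ∈ Y → R M n s (x0 n) (x1 n)) ∧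
      (n ∉ Y → R M n s (x1 n) (x0 n)) := by
    intro n s hs
    have h1 := (hSmem _).1 (hYS (max n s + 1)) n
      (by rw [List.length_map, List.length_range]; omega) s
      (by rw [List.length_map, List.length_range]; omega) hs
    have h2 : ((List.range (max n s + 1)).map fun i => decide (i ∈ Y)).getD n false =
        decide (n ∈ Y) := by
      rw [List.getD_eq_getElem _ _ (by rw [List.length_map, List.length_range]; omega)]
      simp
    rw [h2, decide_eq_true_eq] at h1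
    exact ⟨fun h => (h1.1 h).2, fun h => (h1.2 h).2⟩
  obtain ⟨V, hV, hVW, hVY⟩ := hI.join2 hWI hY
  let u : ℕ → ℕ := fun n => if n ∈ Y then x0 n else x1 n
  let v : ℕ → ℕ := fun n => if n ∈ Y then x1 n else x0 n
  have hu : RC (bit V) u := RC.ite_prop hVY (hx0.trans_oracle hVW) (hx1.trans_oracle hVW)
  have hv : RC (bit V) v := RC.ite_prop hVY (hx1.trans_oracle hVW) (hx0.trans_oracle hVW)
  have huv : ∀ n, u n ∈ M.dom ∧ v n ∈ M.dom ∧ P M n (u n) ∧ P M n (v n) ∧ u n ≠ v n := by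
    intro n
    simp only [u, v]
    by_cases hn : n ∈ Y
    · simp only [hn, if_true]
      exact ⟨(hx0' n).1, (hx1' n).1.1, (hx0' n).2, (hx1' n).1.2, fun h => (hx1' n).2 h.symm⟩
    · simp only [hn, if_false]
      exact ⟨(hx1' n).1.1, (hx0' n).1, (hx1' n).1.2, (hx0' n).2, (hx1' n).2⟩
  have hsafe : ∀ n s, spX X n s → R M n s (u n) (v n) := by
    intro n s hs
    simp only [u, v]
    by_cases hn : n ∈ Y
    · simp only [hn, if_true]
      exact (hYsafe n s hs).1 hn
    · simp only [hn, if_false]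
      exact (hYsafe n s hs).2 hn
  have cD : RCp (bit V) (fun a => a ∈ D) := (hW1D.trans_oracle hWW1).trans_oracle hVW
  have cM : RCp (bit V) (fun n => n ∈ ED M) := hWM.trans_oracle hVW
  obtain ⟨f, hf, h1, h2⟩ := exists_arc_map hG huv cD cM hu hv
  refine ⟨f, ?_, elemEmb_of_arc (spX_unique X) hok hG huv hsafe h1 h2⟩
  refine hI.mem hV (((cD.comp RC.id.unpair1).and (RCp.eq RC.id.unpair2
    (hf.comp RC.id.unpair1))).of_iff fun n => ?_)
  constructor
  · rintro ⟨h3, h4⟩
    refine ⟨n.unpair.1, h3, ?_⟩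
    rw [← h4, Nat.pair_unpair]
  · rintro ⟨a, ha, rfl⟩
    rw [Nat.unpair_pair]
    exact ⟨ha, rfl⟩

/-- In every Scott ideal, prime model uniqueness implies arithmetical comprehension. -/
theorem aca_of_wkl_pmu (I : Set (Set ℕ)) (hI : TuringIdeal I) (hW : WKL I) (hP : PMU I) :
    ACA I := by
  intro X hX
  have hspc : RCp (bit X) (fun p : ℕ × ℕ => spX X p.1 p.2) := spX_rcp (rcp_bit_self X)
  exact proj_of_pmu hI hP hX
    (primeIn_Gs hI hW hX (hI.mem hX domA_rcp) domA_nonempty (okd_A _))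
    (primeIn_Gs hI hW hX (hI.mem hX (domB_rcp hspc)) (domB_nonempty _)
      (okd_B (spX_unique X)))

end Pool.Agent.H93PMU
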