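import Mathlib
import Pool.Agent.H93PMU.Defs
import Pool.Agent.H19.Reduce

/-!
A Turing ideal that satisfies weak Koenig's lemma and is not closed under the Turing jump: the
cone avoidance theorem for effectively closed classes, relativised and iterated.
-/

set_option autoImplicit false

namespace Pool.Agent.H93PMU.Scott

open Encodable Nat.Partrec Pool.Agent.H19

/-- All binary strings of length `s`. -/
def allStr : ℕ → List (List Bool)
  | 0 => [[]]
  | s + 1 => (allStr s).flatMap (fun σ => [σ ++ [false], σ ++ [true]])

theorem mem_allStr {s : ℕ} {σ : List Bool} : σ ∈ allStr s ↔ σ.length = s := by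
  induction s generalizing σ with
  | zero => simp [allStr]
  | succ s ih =>
    simp only [allStr, List.mem_flatMap]
    constructor
    · rintro ⟨τ, hτ, h⟩
      rw [ih] at hτ
      simp only [List.mem_cons, List.not_mem_nil, or_false] at h
      rcases h with rfl | rfl <;> simp [hτ]
    · intro h
      have hne : σ ≠ [] := by
        intro h0; subst h0; simp at h
      refine ⟨σ.dropLast, ?_, ?_⟩
      · rw [ih]; simp [h]
      · have h1 := List.dropLast_append_getLast hne
        cases hb : σ.getLast hne with
        | false => rw [hb] at h1; simp [h1]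
        | true => rw [hb] at h1; simp [h1]

theorem computable_allStr : Computable allStr := by
  have h1 : Computable₂ (fun (_ : ℕ) (p : ℕ × List (List Bool)) =>
      p.2.flatMap (fun σ => [σ ++ [false], σ ++ [true]])) := by
    refine comp_list_flatMap (g := fun (_ : ℕ × (ℕ × List (List Bool))) (σ : List Bool) =>
      [σ ++ [false], σ ++ [true]]) (Computable.snd.comp Computable.snd) ?_
    refine Computable.list_cons.comp
      (Computable.list_append.comp Computable.snd (Computable.const [false])) ?_
    exact Computable.list_cons.comp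
      (Computable.list_append.comp Computable.snd (Computable.const [true])) (Computable.const [])
  refine (Computable.nat_rec (f := fun n : ℕ => n) (g := fun _ => [[]])
    (h := fun (_ : ℕ) (p : ℕ × List (List Bool)) =>
      p.2.flatMap (fun σ => [σ ++ [false], σ ++ [true]])) Computable.id
    (Computable.const _) h1).of_eq fun n => ?_
  induction n with
  | zero => rfl
  | succ n ih => simp only [allStr]; rw [← ih]

theorem comp_all {α β : Type*} [Primcodable α] [Primcodable β] {f : α → List β}
    {g : α → β → Bool} (hf : Computable f) (hg : Computable₂ g) :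
    Computable fun a => (f a).all (g a) := by
  refine (comp_not (comp_list_any hf (g := fun a b => !(g a b)) (comp_not hg))).of_eq fun a => ?_
  rw [List.all_eq_not_any_not]

theorem comp_getD {α : Type*} [Primcodable α] {f : α → List Bool} {g : α → ℕ}
    (hf : Computable f) (hg : Computable g) : Computable fun a => (f a).getD (g a) false := by
  refine (Computable.option_getD (Computable.list_getElem?.comp hf hg)
    (Computable.const false)).of_eq fun a => ?_
  rw [List.getD_eq_getElem?_getD]

/-! ### Topology of Cantor space -/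

theorem isOpen_pre (s : ℕ) (Q : List Bool → Prop) : IsOpen {Z : ℕ → Bool | Q (pre Z s)} := by
  rw [isOpen_iff_mem_nhds]
  intro X hX
  have h1 : IsOpen (⋂ i ∈ Finset.range s, {Y : ℕ → Bool | Y i = X i}) := by
    refine isOpen_biInter_finset fun i _ => ?_
    exact (isOpen_discrete ({X i} : Set Bool)).preimage (continuous_apply (A := fun _ : ℕ => Bool) i)
  refine Filter.mem_of_superset (h1.mem_nhds (by simp)) ?_
  intro Y hY
  simp only [Set.mem_iInter, Finset.mem_range, Set.mem_ofPred_eq] at hY
  have h2 : pre Y s = pre X s :=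
    List.map_congr_left fun i hi => hY i (List.mem_range.1 hi)
  show Q (pre Y s)
  rw [h2]; exact hX

/-- Extension of a string by zeros. -/
def ext0 (σ : List Bool) : ℕ → Bool := fun n => σ.getD n false

theorem pre_ext0 (σ : List Bool) {t : ℕ} (ht : t ≤ σ.length) : pre (ext0 σ) t = σ.take t := by
  apply List.ext_getElem?
  intro n
  by_cases hn : n < t
  · rw [pre_getElem? _ hn, List.getElem?_take_of_lt hn, ext0, List.getD_eq_getElem?_getD,
      List.getElem?_eq_getElem (lt_of_lt_of_le hn ht)]
    rfl
  · rw [List.getElem?_eq_none, List.getElem?_eq_none]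
    · simp; omega
    · rw [pre_length]; omega

theorem compactness (B : ℕ → List Bool → Bool)
    (h : ¬ ∃ Z : ℕ → Bool, ∀ t, B t (pre Z t) = false) :
    ∃ s, ∀ ζ : List Bool, ζ.length = s → ∃ t ≤ s, B t (ζ.take t) = true := by
  let U : ℕ → Set (ℕ → Bool) := fun s => ⋃ t ∈ Finset.range (s + 1), {Z | B t (pre Z t) = true}
  have hopen : ∀ s, IsOpen (U s) := fun s =>
    isOpen_biUnion fun t _ => isOpen_pre t (fun σ => B t σ = true)
  have hmono : Monotone U := by
    intro s s' hs X hX
    simp only [U, Set.mem_iUnion, Finset.mem_range] at hX ⊢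
    obtain ⟨t, ht, h⟩ := hX
    exact ⟨t, by omega, h⟩
  have hcover : (Set.univ : Set (ℕ → Bool)) ⊆ ⋃ s, U s := by
    intro X _
    by_contra hX
    refine h ⟨X, fun t => ?_⟩
    by_contra hB
    refine hX ?_
    simp only [U, Set.mem_iUnion, Finset.mem_range]
    exact ⟨t, t, Nat.lt_succ_self t, by simpa using hB⟩
  obtain ⟨s, hs⟩ := isCompact_univ.elim_directed_cover U hopen hcover hmono.directed_le
  refine ⟨s, fun ζ hζ => ?_⟩
  have h1 : ext0 ζ ∈ U s := hs (Set.mem_univ _)
  simp only [U, Set.mem_iUnion, Finset.mem_range] at h1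
  obtain ⟨t, ht, h2⟩ := h1
  refine ⟨t, by omega, ?_⟩
  have h3 : B t (pre (ext0 ζ) t) = true := h2
  rwa [pre_ext0 ζ (by omega)] at h3

/-- The class of all `Z` such that `g` is false on all pairs of initial segments of `X`, `Z`. -/
def Cls (X : ℕ → Bool) (g : List Bool → List Bool → Bool) : Set (ℕ → Bool) :=
  {Z | ∀ s, g (pre X s) (pre Z s) = false}

theorem isClosed_cls (X : ℕ → Bool) (g : List Bool → List Bool → Bool) : IsClosed (Cls X g) := by
  have : Cls X g = ⋂ s, {Z | g (pre X s) (pre Z s) = false} := by
    ext Z; simp [Cls]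
  rw [this]
  refine isClosed_iInter fun s => ?_
  have h1 := isOpen_pre s (fun σ => g (pre X s) σ = true)
  rw [← isOpen_compl_iff]
  convert h1 using 1
  ext Z; simp

/-! ### One requirement -/

/-- The computation `c` with some initial segment of `ζ` gives the value `v` at `n`. -/
def hb (c : Code) (n v : ℕ) (ζ : List Bool) : Bool :=
  (List.range (ζ.length + 1)).any fun t =>
    decide (Code.evaln ζ.length c (encode (n, ζ.take t)) = some v)

theorem comp_hb (c : Code) {α : Type*} [Primcodable α] {f g : α → ℕ} {z : α → List Bool}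
    (hf : Computable f) (hg : Computable g) (hz : Computable z) :
    Computable fun a => hb c (f a) (g a) (z a) := by
  refine comp_list_any (comp_range (Computable.succ.comp (Computable.list_length.comp hz))) ?_
  refine comp_decEq ?_ (Computable.option_some.comp (hg.comp Computable.fst))
  have h1 : Computable (fun x : α × ℕ => (((z x.1).length, c),
      encode (f x.1, (z x.1).take x.2))) := by
    refine Computable.pair (Computable.pair (Computable.list_length.comp
      (hz.comp Computable.fst)) (Computable.const c)) ?_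
    exact Computable.encode.comp (Computable.pair (hf.comp Computable.fst)
      (comp_take Computable.snd (hz.comp Computable.fst)))
  have h2 := (Code.primrec_evaln.to_comp).comp h1
  exact h2

theorem hb_pre {c : Code} {n v : ℕ} {Z : ℕ → Bool} {s : ℕ} (h : hb c n v (pre Z s) = true) :
    ∃ t, v ∈ c.eval (encode (n, pre Z t)) := by
  simp only [hb, List.any_eq_true, List.mem_range, decide_eq_true_eq] at h
  obtain ⟨t, ht, h⟩ := h
  rw [pre_length] at ht
  rw [pre_take Z (by omega)] at h
  exact ⟨t, Code.evaln_sound (Option.mem_def.2 h)⟩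

theorem exists_hb {c : Code} {n v : ℕ} {Z : ℕ → Bool} {t : ℕ}
    (h : v ∈ c.eval (encode (n, pre Z t))) : ∃ s, hb c n v (pre Z s) = true := by
  obtain ⟨k, hk⟩ := Code.evaln_complete.1 h
  refine ⟨max k t, ?_⟩
  simp only [hb, List.any_eq_true, List.mem_range, decide_eq_true_eq, pre_length]
  refine ⟨t, by omega, ?_⟩
  rw [pre_take Z (le_max_right k t)]
  exact Option.mem_def.1 (Code.evaln_mono (le_max_left k t) hk)

theorem step (X K : ℕ → Bool) (hK : ¬ TuringReducible (chi K) (chi X))
    (g : List Bool → List Bool → Bool) (hg : Computable₂ g) (hne : (Cls X g).Nonempty) (c : Code) :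
    ∃ g' : List Bool → List Bool → Bool, Computable₂ g' ∧ (Cls X g').Nonempty ∧
      Cls X g' ⊆ Cls X g ∧ ∀ Z ∈ Cls X g', ¬ CodeComputes c Z K := by
  by_cases h1 : ∃ n, (Cls X (fun σ ζ => g σ ζ || hb c n (if K n then 1 else 0) ζ)).Nonempty
  · obtain ⟨n, hn⟩ := h1
    refine ⟨_, ?_, hn, ?_, ?_⟩
    · exact comp_or hg (comp_hb c (Computable.const n) (Computable.const _) Computable.snd)
    · intro Z hZ s
      have := hZ s
      simp only [Bool.or_eq_false_iff] at this
      exact this.1
    · intro Z hZ hc
      obtain ⟨s, hs⟩ := hc.2 n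
      obtain ⟨t, ht⟩ := exists_hb hs
      have := hZ t
      simp only [Bool.or_eq_false_iff] at this
      rw [this.2] at ht
      exact absurd ht (by decide)
  by_cases h2 : ∃ Z0 ∈ Cls X g, ∃ n s v, v ∈ c.eval (encode (n, pre Z0 s)) ∧
      v ≠ if K n then 1 else 0
  · obtain ⟨Z0, hZ0, n, s, v, hv, hv'⟩ := h2
    refine ⟨fun σ ζ => g σ ζ || (decide (s ≤ ζ.length) && !(decide (ζ.take s = pre Z0 s))),
      ?_, ⟨Z0, ?_⟩, ?_, ?_⟩
    · refine comp_or hg (comp_and (comp_decLe (Computable.const s)
        (Computable.list_length.comp Computable.snd)) (comp_not (comp_decEq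
        (comp_take (Computable.const s) Computable.snd) (Computable.const _))))
    · intro t
      simp only [hZ0 t, Bool.false_or, pre_length]
      by_cases hst : s ≤ t
      · simp [pre_take Z0 hst]
      · simp [hst]
    · intro Z hZ t
      have := hZ t
      simp only [Bool.or_eq_false_iff] at this
      exact this.1
    · intro Z hZ hc
      have h3 := hZ s
      simp only [Bool.or_eq_false_iff, pre_length, le_refl, decide_true, Bool.true_and,
        Bool.not_eq_false', decide_eq_true_eq] at h3
      rw [pre_take Z le_rfl] at h3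
      exact hv' (hc.1 n s v (by rw [h3.2]; exact hv))
  exfalso
  apply hK
  push Not at h2
  let tst : ℕ → ℕ → List Bool → Bool := fun v n σ =>
    (allStr σ.length).all fun ζ => (List.range (σ.length + 1)).any fun t =>
      g (σ.take t) (ζ.take t) || hb c n v (ζ.take t)
  have htst : ∀ v, Computable₂ (tst v) := by
    intro v
    refine comp_all (computable_allStr.comp (Computable.list_length.comp Computable.snd)) ?_
    refine comp_list_any (comp_range (Computable.succ.comp (Computable.list_length.comp
      (Computable.snd.comp Computable.fst)))) ?_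
    refine comp_or ?_ ?_
    · exact hg.comp (comp_take Computable.snd (Computable.snd.comp
        (Computable.fst.comp Computable.fst))) (comp_take Computable.snd
        (Computable.snd.comp Computable.fst))
    · exact comp_hb c (Computable.fst.comp (Computable.fst.comp Computable.fst))
        (Computable.const v) (comp_take Computable.snd (Computable.snd.comp Computable.fst))
  have hsound : ∀ v n s, tst v n (pre X s) = true → v = if K n then 1 else 0 := by
    intro v n s h
    obtain ⟨Z0, hZ0⟩ := hne
    simp only [tst, List.all_eq_true, mem_allStr, List.any_eq_true, List.mem_range,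
      Bool.or_eq_true, pre_length] at h
    obtain ⟨t, ht, h⟩ := h (pre Z0 s) (pre_length _ _)
    rw [pre_take X (by omega), pre_take Z0 (by omega)] at h
    rcases h with h | h
    · rw [hZ0 t] at h; exact absurd h (by decide)
    · obtain ⟨t', ht'⟩ := hb_pre h
      exact h2 Z0 hZ0 n t' v ht'
  have hcompl : ∀ n, ∃ s, tst (if K n then 1 else 0) n (pre X s) = true := by
    intro n
    have h3 : ¬ ∃ Z : ℕ → Bool, ∀ t, (g (pre X t) (pre Z t) ||
        hb c n (if K n then 1 else 0) (pre Z t)) = false := by
      rintro ⟨Z, hZ⟩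
      exact h1 ⟨n, Z, hZ⟩
    obtain ⟨s, hs⟩ := compactness (fun t ζ => (g (pre X t) ζ ||
      hb c n (if K n then 1 else 0) ζ)) h3
    refine ⟨s, ?_⟩
    simp only [tst, List.all_eq_true, mem_allStr, List.any_eq_true, List.mem_range, pre_length]
    intro ζ hζ
    obtain ⟨t, ht, h4⟩ := hs ζ hζ
    refine ⟨t, by omega, ?_⟩
    rw [pre_take X ht]
    exact h4
  let F : ℕ → List Bool → Option ℕ := fun n σ =>
    if tst 1 n σ then some 1 else if tst 0 n σ then some 0 else none
  have hF : Partrec₂ (fun (n : ℕ) (σ : List Bool) => (F n σ : Part ℕ)) := by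
    have : Computable₂ F := by
      refine comp_ite (c := fun p : ℕ × List Bool => tst 1 p.1 p.2) (htst 1)
        (Computable.const (some 1)) ?_
      exact comp_ite (c := fun p : ℕ × List Bool => tst 0 p.1 p.2) (htst 0)
        (Computable.const (some 0)) (Computable.const none)
    exact Computable.ofOption this
  obtain ⟨c', hc'⟩ := exists_code_of_partrec₂ hF
  refine turingReducible_of_codeComputes (c := c') ⟨fun n s v hv => ?_, fun n => ?_⟩
  · rw [hc'] at hv
    simp only [Part.mem_coe, Option.mem_def, F] at hv
    by_cases ht1 : tst 1 n (pre X s) = true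
    · rw [if_pos ht1] at hv
      have := hsound 1 n s ht1
      simp only [Option.some.injEq] at hv
      rw [← hv]; exact this
    · rw [if_neg ht1] at hv
      by_cases ht0 : tst 0 n (pre X s) = true
      · rw [if_pos ht0] at hv
        have := hsound 0 n s ht0
        simp only [Option.some.injEq] at hv
        rw [← hv]; exact this
      · rw [if_neg ht0] at hv
        exact absurd hv (by simp)
  · obtain ⟨s, hs⟩ := hcompl n
    refine ⟨s, ?_⟩
    rw [hc']
    simp only [Part.mem_coe, Option.mem_def, F]
    by_cases hKn : K n = true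
    · rw [if_pos hKn] at hs ⊢
      rw [if_pos hs]
    · rw [if_neg hKn] at hs ⊢
      have ht1 : ¬ tst 1 n (pre X s) = true := by
        intro ht1
        have := hsound 1 n s ht1
        rw [if_neg hKn] at this
        exact absurd this (by decide)
      rw [if_neg ht1, if_pos hs]

/-- Cone avoidance for effectively closed classes. -/
theorem cone_avoid (X K : ℕ → Bool) (hK : ¬ TuringReducible (chi K) (chi X))
    (g : List Bool → List Bool → Bool) (hg : Computable₂ g) (hne : (Cls X g).Nonempty) :
    ∃ Z ∈ Cls X g, ¬ TuringReducible (chi K) (chi Z) := by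
  have hstep : ∀ (g : {g : List Bool → List Bool → Bool // Computable₂ g ∧ (Cls X g).Nonempty})
      (c : Code), ∃ g' : {g : List Bool → List Bool → Bool // Computable₂ g ∧ (Cls X g).Nonempty},
      Cls X g'.1 ⊆ Cls X g.1 ∧ ∀ Z ∈ Cls X g'.1, ¬ CodeComputes c Z K := by
    intro g c
    obtain ⟨g', h1, h2, h3, h4⟩ := step X K hK g.1 g.2.1 g.2.2 c
    exact ⟨⟨g', h1, h2⟩, h3, h4⟩
  choose nx hn1 hn2 using hstep
  let G : ℕ → {g : List Bool → List Bool → Bool // Computable₂ g ∧ (Cls X g).Nonempty} :=
    fun i => Nat.rec ⟨g, hg, hne⟩ (fun i g => nx g (Denumerable.ofNat Code i)) i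
  have hG : ∀ i, G (i + 1) = nx (G i) (Denumerable.ofNat Code i) := fun i => rfl
  have hI : (⋂ i, Cls X (G i).1).Nonempty := by
    refine IsCompact.nonempty_iInter_of_sequence_nonempty_isCompact_isClosed _ ?_ ?_ ?_ ?_
    · intro i
      rw [hG]
      exact hn1 _ _
    · intro i
      exact (G i).2.2
    · exact (isClosed_cls _ _).isCompact
    · intro i
      exact isClosed_cls _ _
  obtain ⟨Z, hZ⟩ := hI
  rw [Set.mem_iInter] at hZ
  refine ⟨Z, hZ 0, fun h => ?_⟩
  obtain ⟨c, hc⟩ := exists_codeComputes h
  have h1 := hZ (encode c + 1)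
  rw [hG] at h1
  have h2 := hn2 _ _ Z h1
  rw [Denumerable.ofNat_encode] at h2
  exact h2 hc

/-! ### Adding a path -/

/-- The string of the first `t` bits of `ζ` at odd places. -/
def odds (t : ℕ) (ζ : List Bool) : List Bool := (List.range t).map fun i => ζ.getD (2 * i + 1) false

theorem comp_odds {α : Type*} [Primcodable α] {f : α → ℕ} {z : α → List Bool}
    (hf : Computable f) (hz : Computable z) : Computable fun a => odds (f a) (z a) := by
  refine comp_list_map (comp_range hf) ?_
  refine comp_getD (hz.comp Computable.fst) ?_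
  have h1 : Computable fun x : α × ℕ => 2 * x.2 :=
    (Primrec.nat_mul.to_comp).comp (Computable.const 2) Computable.snd
  exact Computable.succ.comp h1

theorem odds_pre {Z : ℕ → Bool} {t s : ℕ} (h : 2 * t ≤ s) :
    odds t (pre Z s) = pre (fun i => Z (2 * i + 1)) t := by
  refine List.map_congr_left fun i hi => ?_
  rw [List.mem_range] at hi
  exact pre_getD Z (by omega) false

/-- The class of the joins of `X` with the paths of the tree computed by `c` from `X`. -/
def gT (c : Code) (σ ζ : List Bool) : Bool :=
  ((List.range σ.length).any fun i =>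
      decide (2 * i < ζ.length) && !(decide (ζ.getD (2 * i) false = σ.getD i false))) ||
    (List.range (ζ.length + 1)).any fun t => decide (2 * t ≤ ζ.length) &&
      (List.range (σ.length + 1)).any fun u =>
        decide (Code.evaln σ.length c (encode (encode (odds t ζ), σ.take u)) = some 0)

theorem comp_gT (c : Code) : Computable₂ (gT c) := by
  have hd : ∀ {α : Type} [Primcodable α] {f : α → ℕ}, Computable f →
      Computable fun a => 2 * f a := by
    intro α _ f hf
    exact (Primrec.nat_mul.to_comp).comp (Computable.const 2) hf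
  refine comp_or ?_ ?_
  · refine comp_list_any (comp_range (Computable.list_length.comp Computable.fst)) ?_
    refine comp_and (comp_decLt (hd Computable.snd) (Computable.list_length.comp
      (Computable.snd.comp Computable.fst))) (comp_not (comp_decEq ?_ ?_))
    · exact comp_getD (Computable.snd.comp Computable.fst) (hd Computable.snd)
    · exact comp_getD (Computable.fst.comp Computable.fst) Computable.snd
  · refine comp_list_any (comp_range (Computable.succ.comp
      (Computable.list_length.comp Computable.snd))) ?_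
    refine comp_and (comp_decLe (hd Computable.snd) (Computable.list_length.comp
      (Computable.snd.comp Computable.fst))) ?_
    refine comp_list_any (comp_range (Computable.succ.comp (Computable.list_length.comp
      (Computable.fst.comp Computable.fst)))) ?_
    refine comp_decEq ?_ (Computable.const (some 0))
    have h1 : Computable (fun x : ((List Bool × List Bool) × ℕ) × ℕ => ((x.1.1.1.length, c),
        encode (encode (odds x.1.2 x.1.1.2), x.1.1.1.take x.2))) := by
      refine Computable.pair (Computable.pair (Computable.list_length.comp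
        (Computable.fst.comp (Computable.fst.comp Computable.fst))) (Computable.const c)) ?_
      refine Computable.encode.comp (Computable.pair ?_ ?_)
      · exact Computable.encode.comp (comp_odds (Computable.snd.comp Computable.fst)
          (Computable.snd.comp (Computable.fst.comp Computable.fst)))
      · exact comp_take Computable.snd (Computable.fst.comp (Computable.fst.comp Computable.fst))
    have h2 := (Code.primrec_evaln.to_comp).comp h1
    exact h2

theorem mem_cls_gT {c : Code} {X S Z : ℕ → Bool} (hc : CodeComputes c X S) :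
    Z ∈ Cls X (gT c) ↔ (∀ i, Z (2 * i) = X i) ∧
      ∀ t, S (encode (pre (fun i => Z (2 * i + 1)) t)) = true := by
  constructor
  · intro hZ
    constructor
    · intro i
      have h1 := hZ (2 * i + 1)
      simp only [gT, Bool.or_eq_false_iff, List.any_eq_false, List.mem_range, pre_length,
        Bool.and_eq_true, Bool.not_eq_true', decide_eq_true_eq, decide_eq_false_iff_not, not_and,
        not_not] at h1
      have h2 := h1.1 i (by omega) (by omega)
      rw [pre_getD Z (by omega), pre_getD X (by omega)] at h2
      exact h2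
    · intro t
      by_contra hS
      obtain ⟨s, hs⟩ := hc.2 (encode (pre (fun i => Z (2 * i + 1)) t))
      rw [if_neg hS] at hs
      obtain ⟨k, hk⟩ := Code.evaln_complete.1 hs
      have h1 := hZ (max (max k s) (2 * t))
      simp only [gT, Bool.or_eq_false_iff, List.any_eq_false, List.mem_range, pre_length,
        Bool.and_eq_true, Bool.not_eq_true', decide_eq_true_eq, decide_eq_false_iff_not, not_and,
        not_not, Bool.not_eq_true] at h1
      have h2 := h1.2 t (by omega) (by omega) s (by omega)
      rw [odds_pre (by omega), pre_take X (by omega)] at h2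
      exact h2 (Option.mem_def.1 (Code.evaln_mono (by omega) hk))
  · rintro ⟨h1, h2⟩ s
    simp only [gT, Bool.or_eq_false_iff, List.any_eq_false, List.mem_range, pre_length,
        Bool.and_eq_true, Bool.not_eq_true', decide_eq_true_eq, decide_eq_false_iff_not, not_and,
        not_not, Bool.not_eq_true]
    constructor
    · intro i hi hi'
      rw [pre_getD Z (by omega), pre_getD X (by omega)]
      exact h1 i
    · intro t ht ht' u hu h3
      rw [odds_pre (by omega), pre_take X (by omega)] at h3
      have h4 := hc.1 _ _ _ (Code.evaln_sound (Option.mem_def.2 h3))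
      rw [if_pos (h2 t)] at h4
      exact absurd h4 (by decide)

theorem add_path (X K S : ℕ → Bool) (hK : ¬ TuringReducible (chi K) (chi X))
    (hS : TuringReducible (chi S) (chi X))
    (htree : ∀ σ τ : List Bool, S (encode (σ ++ τ)) = true → S (encode σ) = true)
    (hinf : ∀ n : ℕ, ∃ σ : List Bool, σ.length = n ∧ S (encode σ) = true) :
    ∃ Z : ℕ → Bool, ¬ TuringReducible (chi K) (chi Z) ∧ TuringReducible (chi X) (chi Z) ∧
      ∃ P : ℕ → Bool, TuringReducible (chi P) (chi Z) ∧ ∀ n, S (encode (pre P n)) = true := by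
  obtain ⟨c, hc⟩ := exists_codeComputes hS
  have hpath : ∃ P : ℕ → Bool, ∀ n, S (encode (pre P n)) = true := by
    by_contra hno
    obtain ⟨s, hs⟩ := compactness (fun _ ζ => !(S (encode ζ))) (by
      rintro ⟨Z, hZ⟩
      exact hno ⟨Z, fun n => by simpa using hZ n⟩)
    obtain ⟨σ, hσ, hσS⟩ := hinf s
    obtain ⟨t, _, h⟩ := hs σ hσ
    have h1 := htree (σ.take t) (σ.drop t) (by rw [List.take_append_drop]; exact hσS)
    simp [h1] at h
  obtain ⟨P, hP⟩ := hpath
  have hne : (Cls X (gT c)).Nonempty := by
    refine ⟨fun n => if n % 2 = 0 then X (n / 2) else P (n / 2), (mem_cls_gT hc).2 ⟨?_, ?_⟩⟩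
    · intro i
      simp
    · intro t
      have : (fun i => (fun n => if n % 2 = 0 then X (n / 2) else P (n / 2)) (2 * i + 1)) = P := by
        funext i
        have h1 : (2 * i + 1) % 2 ≠ 0 := by omega
        have h2 : (2 * i + 1) / 2 = i := by omega
        simp only [h2]
        rw [if_neg h1]
      rw [this]; exact hP t
  obtain ⟨Z, hZ, hKZ⟩ := cone_avoid X K hK (gT c) (comp_gT c) hne
  obtain ⟨h1, h2⟩ := (mem_cls_gT hc).1 hZ
  have hd : Computable fun n : ℕ => 2 * n :=
    (Primrec.nat_mul.to_comp).comp (Computable.const 2) Computable.id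
  refine ⟨Z, hKZ, ?_, fun i => Z (2 * i + 1), ?_, h2⟩
  · refine turingReducible_of_computable (F := fun n σ => σ.getD (2 * n) false)
      (g := fun n => 2 * n + 1) ?_ (Computable.succ.comp hd) fun n => ?_
    · exact comp_getD Computable.snd (hd.comp Computable.fst)
    · rw [pre_getD Z (by omega)]; exact h1 n
  · refine turingReducible_of_computable (F := fun n σ => σ.getD (2 * n + 1) false)
      (g := fun n => 2 * n + 2) ?_ (Computable.succ.comp (Computable.succ.comp hd)) fun n => ?_
    · exact comp_getD Computable.snd (Computable.succ.comp (hd.comp Computable.fst))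
    · rw [pre_getD Z (by omega)]

/-! ### The ideal -/

open Classical in
/-- The characteristic sequence of a set. -/
noncomputable def bs (Y : Set ℕ) : ℕ → Bool := fun n => decide (n ∈ Y)

theorem bs_iff {Y : Set ℕ} {n : ℕ} : bs Y n = true ↔ n ∈ Y := by simp [bs]

theorem chr_eq (Y : Set ℕ) : chr Y = chi (bs Y) := by
  funext n
  by_cases h : n ∈ Y <;> simp [chr, chi, bs, h]

theorem bs_set (P : ℕ → Bool) : bs {n | P n = true} = P := by
  funext n
  simp [bs]

/-- The halting set for the input `0`. -/
def Kset : Set ℕ := {n | ((Denumerable.ofNat Code n).eval 0).Dom}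

/-- The computable set whose projection is `Kset`. -/
def K0 : Set ℕ := {p | ((Denumerable.ofNat Code p.unpair.1).evaln p.unpair.2 0).isSome = true}

theorem proj_K0 : {n | ∃ m, Nat.pair n m ∈ K0} = Kset := by
  ext n
  simp only [K0, Kset, Set.mem_ofPred_eq, Nat.unpair_pair]
  constructor
  · rintro ⟨m, hm⟩
    obtain ⟨v, hv⟩ := Option.isSome_iff_exists.1 hm
    exact Part.dom_iff_mem.2 ⟨v, Code.evaln_sound (Option.mem_def.2 hv)⟩
  · intro h
    obtain ⟨v, hv⟩ := Part.dom_iff_mem.1 h
    obtain ⟨k, hk⟩ := Code.evaln_complete.1 hv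
    exact ⟨k, by rw [Option.mem_def] at hk; rw [hk]; rfl⟩

theorem computable_bs_K0 : Computable (bs K0) := by
  have h1 : Computable (fun p : ℕ => ((p.unpair.2, Denumerable.ofNat Code p.unpair.1), 0)) := by
    refine Computable.pair (Computable.pair (Computable.snd.comp Computable.unpair) ?_)
      (Computable.const 0)
    exact (Computable.ofNat Code).comp (Computable.fst.comp Computable.unpair)
  have h2 := (Code.primrec_evaln.to_comp).comp h1
  have h3 := (Primrec.option_isSome.to_comp).comp h2
  refine h3.of_eq fun p => ?_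
  simp [bs, K0]

theorem turingReducible_of_computable_left {P Z : ℕ → Bool} (hP : Computable P) :
    TuringReducible (chi P) (chi Z) := by
  refine Partrec.turingReducible ?_
  have h1 : Computable fun n => if P n then 1 else 0 :=
    comp_ite hP (Computable.const 1) (Computable.const 0)
  exact h1.partrec

theorem Kset_not_le : ¬ TuringReducible (chi (bs Kset)) (chi fun _ => false) := by
  intro h
  have h1 : (chi fun _ => false) = fun _ => Part.some 0 := by
    funext n; simp [chi]
  rw [h1] at h
  have h2 : Partrec (chi (bs Kset)) := h.partrec_of_const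
  have h3 : Computable fun n : ℕ => if bs Kset n then 1 else 0 := h2
  have h4 : Computable fun c : Code => decide ((fun n : ℕ => if bs Kset n then 1 else 0)
      (encode c) = 1) :=
    comp_decEq (h3.comp Computable.encode) (Computable.const 1)
  refine ComputablePred.halting_problem 0 (ComputablePred.computable_iff.2
    ⟨fun c => decide ((fun n : ℕ => if bs Kset n then 1 else 0) (encode c) = 1), h4, ?_⟩)
  funext c
  simp [bs, Kset]

/-- The tree condition. -/
def IsTree (S : ℕ → Bool) : Prop :=
  (∀ σ τ : List Bool, S (encode (σ ++ τ)) = true → S (encode σ) = true) ∧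
    ∀ n : ℕ, ∃ σ : List Bool, σ.length = n ∧ S (encode σ) = true

theorem exists_next (K : ℕ → Bool) (X : {X : ℕ → Bool // ¬ TuringReducible (chi K) (chi X)})
    (S : ℕ → Bool) : ∃ Z : {X : ℕ → Bool // ¬ TuringReducible (chi K) (chi X)},
      TuringReducible (chi X.1) (chi Z.1) ∧ (TuringReducible (chi S) (chi X.1) → IsTree S →
        ∃ P : ℕ → Bool, TuringReducible (chi P) (chi Z.1) ∧
          ∀ n, S (encode (pre P n)) = true) := by
  by_cases h : TuringReducible (chi S) (chi X.1) ∧ IsTree S
  · obtain ⟨Z, h1, h2, h3⟩ := add_path X.1 K S X.2 h.1 h.2.1 h.2.2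
    exact ⟨⟨Z, h1⟩, h2, fun _ _ => h3⟩
  · exact ⟨X, TuringReducible.refl _, fun h1 h2 => absurd ⟨h1, h2⟩ h⟩

open Classical in
/-- The set computed by `c` from `X`, if any. -/
noncomputable def treeOf (X : ℕ → Bool) (c : Code) : ℕ → Bool :=
  if h : ∃ S, CodeComputes c X S then h.choose else fun _ => false

theorem codeComputes_unique {c : Code} {X S T : ℕ → Bool} (h1 : CodeComputes c X S)
    (h2 : CodeComputes c X T) : S = T := by
  funext n
  obtain ⟨s, hs⟩ := h1.2 n
  have := h2.1 n s _ hs
  cases hS : S n <;> cases hT : T n <;> simp_all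

theorem treeOf_eq {X S : ℕ → Bool} {c : Code} (h : CodeComputes c X S) : treeOf X c = S := by
  have h1 : ∃ S, CodeComputes c X S := ⟨S, h⟩
  rw [treeOf, dif_pos h1]
  exact codeComputes_unique h1.choose_spec h

section

variable (K : ℕ → Bool)
  (X0 : {X : ℕ → Bool // ¬ TuringReducible (chi K) (chi X)})

/-- The increasing sequence of oracles. -/
noncomputable def Xs : ℕ → {X : ℕ → Bool // ¬ TuringReducible (chi K) (chi X)}
  | 0 => X0
  | k + 1 => (exists_next K (Xs k)
      (treeOf (Xs k.unpair.1).1 (Denumerable.ofNat Code k.unpair.2))).choose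
termination_by k => k
decreasing_by
  · exact Nat.lt_succ_self k
  · exact Nat.lt_succ_of_le (Nat.unpair_left_le k)

theorem Xs_succ (k : ℕ) : TuringReducible (chi (Xs K X0 k).1) (chi (Xs K X0 (k + 1)).1) ∧
    (TuringReducible (chi (treeOf (Xs K X0 k.unpair.1).1 (Denumerable.ofNat Code k.unpair.2)))
      (chi (Xs K X0 k).1) →
      IsTree (treeOf (Xs K X0 k.unpair.1).1 (Denumerable.ofNat Code k.unpair.2)) →
        ∃ P : ℕ → Bool, TuringReducible (chi P) (chi (Xs K X0 (k + 1)).1) ∧
          ∀ n, treeOf (Xs K X0 k.unpair.1).1 (Denumerable.ofNat Code k.unpair.2)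
            (encode (pre P n)) = true) := by
  have h := (exists_next K (Xs K X0 k)
      (treeOf (Xs K X0 k.unpair.1).1 (Denumerable.ofNat Code k.unpair.2))).choose_spec
  rw [Xs]
  exact h

theorem Xs_mono {j k : ℕ} (h : j ≤ k) :
    TuringReducible (chi (Xs K X0 j).1) (chi (Xs K X0 k).1) := by
  induction k, h using Nat.le_induction with
  | base => exact TuringReducible.refl _
  | succ k _ ih => exact ih.trans (Xs_succ K X0 k).1

/-- The ideal generated by the sequence. -/
def ideal : Set (Set ℕ) := {Y | ∃ k, TuringReducible (chr Y) (chi (Xs K X0 k).1)}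

theorem ideal_of_le {Y : Set ℕ} {k : ℕ} (h : TuringReducible (chr Y) (chi (Xs K X0 k).1)) :
    Y ∈ ideal K X0 := ⟨k, h⟩

theorem join_le {X Y : Set ℕ} {Z : ℕ → Bool} (hX : TuringReducible (chr X) (chi Z))
    (hY : TuringReducible (chr Y) (chi Z)) :
    TuringReducible (chr {n | (∃ m ∈ X, n = 2 * m) ∨ ∃ m ∈ Y, n = 2 * m + 1}) (chi Z) := by
  rw [chr_eq] at hX hY
  have hX' : TotRec Z (fun n => if bs X n then 1 else 0) := RecursiveIn.iff_nat.1 hX
  have hY' : TotRec Z (fun n => if bs Y n then 1 else 0) := RecursiveIn.iff_nat.1 hY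
  have hdiv : Computable fun n : ℕ => n / 2 :=
    (Primrec.nat_div.to_comp).comp Computable.id (Computable.const 2)
  have hmod : Computable fun n : ℕ => n % 2 :=
    (Primrec.nat_mod.to_comp).comp Computable.id (Computable.const 2)
  have h1 : TotRec Z (fun n => Nat.pair (if bs X (n / 2) then 1 else 0)
      (if bs Y (n / 2) then 1 else 0)) :=
    (hX'.comp (TotRec.of_computable hdiv)).pair (hY'.comp (TotRec.of_computable hdiv))
  have h2 : Computable₂ fun n p : ℕ => if decide (n % 2 = 0) then p.unpair.1 else p.unpair.2 := by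
    refine comp_ite (c := fun x : ℕ × ℕ => decide (x.1 % 2 = 0)) (comp_decEq
      (hmod.comp Computable.fst) (Computable.const 0)) ?_ ?_
    · exact Computable.fst.comp (Computable.unpair.comp Computable.snd)
    · exact Computable.snd.comp (Computable.unpair.comp Computable.snd)
  have h3 := TotRec.comp_computable₂ h2 (TotRec.of_computable (Z := Z) Computable.id) h1
  rw [chr_eq]
  refine RecursiveIn.iff_nat.2 ((h3 : Nat.RecursiveIn _ _).of_eq fun n => ?_)
  simp only [id_eq, Nat.unpair_pair, chi, Part.some_inj, decide_eq_true_eq]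
  rcases Nat.mod_two_eq_zero_or_one n with hn | hn
  · rw [if_pos hn]
    have h4 : (∃ m ∈ X, n = 2 * m) ∨ (∃ m ∈ Y, n = 2 * m + 1) ↔ n / 2 ∈ X := by
      constructor
      · rintro (⟨m, hm, rfl⟩ | ⟨m, hm, rfl⟩)
        · rwa [Nat.mul_div_cancel_left _ (by norm_num)]
        · omega
      · intro h
        exact Or.inl ⟨_, h, by omega⟩
    have h5 : bs X (n / 2) = true ↔
        bs {n | (∃ m ∈ X, n = 2 * m) ∨ ∃ m ∈ Y, n = 2 * m + 1} n = true := by
      rw [bs_iff, bs_iff]; exact h4.symm
    by_cases h6 : bs X (n / 2) = true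
    · rw [if_pos h6, if_pos (h5.1 h6)]
    · rw [if_neg h6, if_neg (fun h7 => h6 (h5.2 h7))]
  · rw [if_neg (by omega)]
    have h4 : (∃ m ∈ X, n = 2 * m) ∨ (∃ m ∈ Y, n = 2 * m + 1) ↔ n / 2 ∈ Y := by
      constructor
      · rintro (⟨m, hm, rfl⟩ | ⟨m, hm, rfl⟩)
        · omega
        · have : (2 * m + 1) / 2 = m := by omega
          rwa [this]
      · intro h
        exact Or.inr ⟨_, h, by omega⟩
    have h5 : bs Y (n / 2) = true ↔
        bs {n | (∃ m ∈ X, n = 2 * m) ∨ ∃ m ∈ Y, n = 2 * m + 1} n = true := by
      rw [bs_iff, bs_iff]; exact h4.symm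
    by_cases h6 : bs Y (n / 2) = true
    · rw [if_pos h6, if_pos (h5.1 h6)]
    · rw [if_neg h6, if_neg (fun h7 => h6 (h5.2 h7))]

theorem turingIdeal_ideal : TuringIdeal (ideal K X0) := by
  refine ⟨⟨{n | X0.1 n = true}, 0, ?_⟩, ?_, ?_⟩
  · rw [chr_eq, bs_set, Xs]
    exact TuringReducible.refl _
  · rintro X ⟨j, hj⟩ Y ⟨k, hk⟩
    refine ⟨max j k, join_le (hj.trans (Xs_mono K X0 (le_max_left j k)))
      (hk.trans (Xs_mono K X0 (le_max_right j k)))⟩
  · rintro X ⟨k, hk⟩ Y hY
    exact ⟨k, hY.trans hk⟩

theorem wkl_ideal : WKL (ideal K X0) := by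
  rintro S ⟨j, hj⟩ htree hinf
  rw [chr_eq] at hj
  obtain ⟨c, hc⟩ := exists_codeComputes hj
  have h1 := (Xs_succ K X0 (Nat.pair j (encode c))).2
  rw [Nat.unpair_pair] at h1
  simp only [Denumerable.ofNat_encode] at h1
  rw [treeOf_eq hc] at h1
  obtain ⟨P, hP, hPS⟩ := h1 (hj.trans (Xs_mono K X0 (Nat.left_le_pair _ _)))
    ⟨fun σ τ h => by
      simp only [bs, decide_eq_true_eq] at h ⊢
      exact htree σ τ h, fun n => by
      obtain ⟨σ, h1, h2⟩ := hinf n
      exact ⟨σ, h1, by simpa [bs] using h2⟩⟩
  refine ⟨{n | P n = true}, ⟨_, by rw [chr_eq, bs_set]; exact hP⟩, fun n => ?_⟩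
  have h2 := hPS n
  simp only [bs, decide_eq_true_eq] at h2
  convert h2 using 2
  refine List.map_congr_left fun i _ => ?_
  simp

theorem not_mem_ideal : {n | K n = true} ∉ ideal K X0 := by
  rintro ⟨k, hk⟩
  rw [chr_eq, bs_set] at hk
  exact (Xs K X0 k).2 hk

end

/-- Cone avoidance: for all `X`, `Y` with `Y` not reducible to `X` there is a Turing ideal that
satisfies weak Koenig's lemma, contains `X` and does not contain `Y`. -/
theorem exists_scott_ideal_avoiding (X Y : Set ℕ) (h : ¬ TuringReducible (chr Y) (chr X)) :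
    ∃ I : Set (Set ℕ), TuringIdeal I ∧ WKL I ∧ X ∈ I ∧ Y ∉ I := by
  rw [chr_eq, chr_eq] at h
  refine ⟨ideal (bs Y) ⟨bs X, h⟩, turingIdeal_ideal _ _, wkl_ideal _ _, ⟨0, ?_⟩, ?_⟩
  · rw [chr_eq, Xs]
    exact TuringReducible.refl _
  · have := not_mem_ideal (bs Y) ⟨bs X, h⟩
    have e : {n | bs Y n = true} = Y := by
      ext n; simp [bs]
    rwa [e] at this

end Pool.Agent.H93PMU.Scott

namespace Pool.Agent.H93PMU

open Encodable Pool.Agent.H19 Pool.Agent.H93PMU.Scott

/-- There is a Turing ideal that satisfies weak Koenig's lemma and is not closed under the jump. -/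
theorem exists_wkl_not_aca : ∃ I : Set (Set ℕ), TuringIdeal I ∧ WKL I ∧ ¬ ACA I := by
  have h0 : ¬ TuringReducible (chr Kset) (chr ∅) := by
    rw [chr_eq, chr_eq]
    have : bs ∅ = fun _ => false := by
      funext n; simp [bs]
    rw [this]
    exact Kset_not_le
  obtain ⟨I, h1, h2, h3, h4⟩ := exists_scott_ideal_avoiding ∅ Kset h0
  refine ⟨I, h1, h2, fun h5 => h4 ?_⟩
  have h6 : K0 ∈ I := by
    refine h1.down ∅ h3 K0 ?_
    rw [chr_eq, chr_eq]
    exact turingReducible_of_computable_left computable_bs_K0
  have h7 := h5 K0 h6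
  rwa [proj_K0] at h7

/-- The computable sets are a Turing ideal that is not closed under the jump. -/
theorem rec_not_aca : ¬ ACA REC := by
  intro h
  have h1 : K0 ∈ REC := by
    refine ComputablePred.computable_iff.2 ⟨bs K0, computable_bs_K0, ?_⟩
    funext n
    simp [bs]
  have h2 := h K0 h1
  rw [proj_K0] at h2
  obtain ⟨f, hf, hfe⟩ := ComputablePred.computable_iff.1 h2
  refine ComputablePred.halting_problem 0 (ComputablePred.computable_iff.2
    ⟨fun c => f (encode c), hf.comp Computable.encode, ?_⟩)
  funext c
  have h3 := congrFun hfe (encode c)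
  simp only [Kset, Set.mem_ofPred_eq, Denumerable.ofNat_encode] at h3
  exact h3

end Pool.Agent.H93PMU
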